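import Pool.Agent.helper48.SLn.Three

/-!
Profinitely dense subgroups, and the final forms of the theorems.
-/

namespace Pool.Agent.H48SL

open Matrix

variable {ι : Type*} [Fintype ι] [DecidableEq ι]

/-- `H` is dense in the profinite topology of `SL(ι, ℤ)`: it surjects onto every finite quotient. -/
def ProfDense (H : Subgroup (SpecialLinearGroup ι ℤ)) : Prop :=
  ∀ N : Subgroup (SpecialLinearGroup ι ℤ), N.Normal → N.FiniteIndex → H ⊔ N = ⊤

theorem cong_finiteIndex (q : ℕ) (hq : q ≠ 0) : (Cong ι q).FiniteIndex := by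
  haveI : NeZero q := ⟨hq⟩
  unfold Cong
  infer_instance

theorem eval_cast (q : ℕ) (P : MvPolynomial (ι × ι) ℤ) (x y : ι × ι → ℤ)
    (h : ∀ i, ((x i : ℤ) : ZMod q) = ((y i : ℤ) : ZMod q)) :
    ((MvPolynomial.eval x P : ℤ) : ZMod q) = ((MvPolynomial.eval y P : ℤ) : ZMod q) := by
  induction P using MvPolynomial.induction_on with
  | C c => simp
  | add p r hp hr => simp only [map_add, Int.cast_add, hp, hr]
  | mul_X p i hp => simp only [map_mul, MvPolynomial.eval_X, Int.cast_mul, hp, h i]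

theorem ProfDense.zdense {H : Subgroup (SpecialLinearGroup ι ℤ)} (hH : ProfDense H) : ZDense H := by
  intro P hP g
  by_contra hne
  set v : ℤ := MvPolynomial.eval (fun x : ι × ι => (g : Matrix ι ι ℤ) x.1 x.2) P with hv
  obtain ⟨q, hqd⟩ : ∃ q : ℕ, q = v.natAbs + 1 := ⟨_, rfl⟩
  have hq : q ≠ 0 := by omega
  have hnorm : (Cong ι q).Normal := by unfold Cong; infer_instance
  have hsup := hH (Cong ι q) hnorm (cong_finiteIndex _ hq)
  have hg : g ∈ H ⊔ Cong ι q := by rw [hsup]; exact Subgroup.mem_top _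
  obtain ⟨h, hh, k, hk, hhk⟩ := Subgroup.mem_sup_of_normal_right.mp hg
  have hred : ∀ i : ι × ι, (((g : Matrix ι ι ℤ) i.1 i.2 : ℤ) : ZMod q)
      = (((h : Matrix ι ι ℤ) i.1 i.2 : ℤ) : ZMod q) := by
    intro i
    obtain ⟨B, hB⟩ := mem_Cong.mp hk
    rw [← hhk, Matrix.SpecialLinearGroup.coe_mul, hB, Matrix.mul_add, Matrix.mul_one,
      Matrix.mul_smul, Matrix.add_apply, Matrix.smul_apply, smul_eq_mul]
    push_cast
    rw [ZMod.natCast_self, zero_mul, add_zero]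
  have h1 := eval_cast q P _ _ hred
  rw [hP h hh, Int.cast_zero, ← hv, ZMod.intCast_zmod_eq_zero_iff_dvd] at h1
  have h2 := Int.natAbs_dvd_natAbs.mpr h1
  rw [Int.natAbs_natCast] at h2
  have h3 := Nat.le_of_dvd (Int.natAbs_pos.mpr hne) h2
  omega

theorem ProfDense.eq_top {H : Subgroup (SpecialLinearGroup ι ℤ)} (hH : ProfDense H)
    (hfi : H.FiniteIndex) : H = ⊤ := by
  have h1 := hH H.normalCore inferInstance inferInstance
  rwa [sup_eq_left.mpr (Subgroup.normalCore_le H)] at h1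

/-- from Zariski density to both conclusions -/
theorem both {H : Subgroup (SpecialLinearGroup ι ℤ)} (h : ZDense H → H.FiniteIndex) :
    (ZDense H → H.FiniteIndex) ∧ (ProfDense H → H = ⊤) :=
  ⟨h, fun hP => hP.eq_top (h hP.zdense)⟩

theorem tv_data {e φ : ι → ℤ} {z : SpecialLinearGroup ι ℤ} (hz1 : z ≠ 1)
    (hze : (z : Matrix ι ι ℤ) = 1 + vecMulVec e φ) :
    e ≠ 0 ∧ φ ≠ 0 ∧ φ ⬝ᵥ e = 0 ∧ z = tv e φ := by
  have he : e ≠ 0 := by
    rintro rfl
    apply hz1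
    apply SL_ext
    rw [hze]; ext i j; simp
  have hφ : φ ≠ 0 := by
    rintro rfl
    apply hz1
    apply SL_ext
    rw [hze]; ext i j; simp
  have h0 : φ ⬝ᵥ e = 0 := by
    have h1 := det_one_add_vecMulVec e φ
    rw [← hze, Matrix.SpecialLinearGroup.det_coe] at h1
    linarith
  exact ⟨he, hφ, h0, SL_ext (by rw [hze, tv_coe h0])⟩

theorem final_coef (hcard : 3 ≤ Fintype.card ι) (H : Subgroup (SpecialLinearGroup ι ℤ))
    (e φ : ι → ℤ) (z g : SpecialLinearGroup ι ℤ) (hz : z ∈ H) (hg : g ∈ H) (hz1 : z ≠ 1)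
    (hze : (z : Matrix ι ι ℤ) = 1 + vecMulVec e φ)
    (hsmall : |φ ⬝ᵥ ((g : Matrix ι ι ℤ) *ᵥ e)| ≤ 2)
    (hg2 : (g * z * g⁻¹ ≠ z ∧ g * z * g⁻¹ ≠ z⁻¹) ∨ ∀ k : ℕ, 1 ≤ k → ∀ m : ℤ, g ^ k ≠ z ^ m) :
    (ZDense H → H.FiniteIndex) ∧ (ProfDense H → H = ⊤) := by
  obtain ⟨he, hφ, h0, hzt⟩ := tv_data hz1 hze
  apply both
  intro hD
  by_contra hfi
  rw [hzt] at hz hg2
  obtain ⟨h1, k, hk, m, hkm⟩ := coef_case hcard hD he hφ h0 hz hfi hg hsmall
  rcases hg2 with h2 | h2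
  · rcases h1 with h1 | h1
    · exact h2.1 h1
    · exact h2.2 h1
  · exact h2 k hk m hkm

theorem tv_zpow_eq_of_not_indep {e φ e' φ' : ι → ℤ} (h0 : φ ⬝ᵥ e = 0) (h0' : φ' ⬝ᵥ e' = 0)
    {a b a' b' : ℤ} (hab : a • e = b • e') (hab' : a' • φ = b' • φ') :
    (tv e φ) ^ (a * a') = (tv e' φ') ^ (b * b') := by
  rw [← tv_zsmul_right h0, ← tv_zsmul_right h0', mul_smul, mul_smul,
    ← tv_smul_comm (by rw [smul_dotProduct, h0, smul_zero]), hab, hab',
    tv_smul_comm (by rw [smul_dotProduct, h0', smul_zero])]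

theorem final_pairs (hcard : 3 ≤ Fintype.card ι) (H : Subgroup (SpecialLinearGroup ι ℤ))
    (e φ e' φ' : ι → ℤ) (z z' : SpecialLinearGroup ι ℤ) (hz : z ∈ H) (hz' : z' ∈ H)
    (hz1 : z ≠ 1) (hz1' : z' ≠ 1)
    (hze : (z : Matrix ι ι ℤ) = 1 + vecMulVec e φ) (hze' : (z' : Matrix ι ι ℤ) = 1 + vecMulVec e' φ')
    (hsmall : |((z * z' : SpecialLinearGroup ι ℤ) : Matrix ι ι ℤ).trace - Fintype.card ι| ≤ 4)
    (hpow : ∀ a b : ℤ, a ≠ 0 → b ≠ 0 → z ^ a ≠ z' ^ b) :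
    (ZDense H → H.FiniteIndex) ∧ (ProfDense H → H = ⊤) := by
  obtain ⟨he, hφ, h0, hzt⟩ := tv_data hz1 hze
  obtain ⟨he', hφ', h0', hzt'⟩ := tv_data hz1' hze'
  apply both
  intro hD
  have htr : ((z * z' : SpecialLinearGroup ι ℤ) : Matrix ι ι ℤ).trace - Fintype.card ι
      = (φ ⬝ᵥ e') * (φ' ⬝ᵥ e) := by
    rw [Matrix.SpecialLinearGroup.coe_mul, hze, hze', Matrix.add_mul, Matrix.mul_add, Matrix.mul_add,
      vecMulVec_mul_vecMulVec, Matrix.one_mul, Matrix.one_mul, Matrix.mul_one, Matrix.trace_add,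
      Matrix.trace_add, Matrix.trace_add, Matrix.trace_one, Matrix.trace_vecMulVec,
      Matrix.trace_vecMulVec, Matrix.trace_vecMulVec, dotProduct_smul, dotProduct_comm e φ, h0,
      dotProduct_comm e' φ', h0', dotProduct_comm e φ']
    simp
  rw [htr] at hsmall
  rw [hzt] at hz hpow
  rw [hzt'] at hz' hpow
  refine small_pair hcard hD he hφ he' hφ' h0 h0' hz hz' hsmall ?_
  by_contra hcon
  push Not at hcon
  obtain ⟨a, b, ha, hab⟩ := not_indep he' hcon.1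
  obtain ⟨a', b', ha', hab'⟩ := not_indep hφ' hcon.2
  have hb : b ≠ 0 := by
    rintro rfl
    rw [zero_smul] at hab
    exact (smul_ne_zero ha he) hab
  have hb' : b' ≠ 0 := by
    rintro rfl
    rw [zero_smul] at hab'
    exact (smul_ne_zero ha' hφ) hab'
  exact hpow _ _ (mul_ne_zero ha ha') (mul_ne_zero hb hb') (tv_zpow_eq_of_not_indep h0 h0' hab hab')

section corner

/-- clearing denominators of a rational vector -/
theorem clear_denom (v : ι → ℚ) : ∃ (N : ℤ) (w : ι → ℤ), N ≠ 0 ∧ castV w = (N : ℚ) • v := by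
  classical
  set N : ℤ := ∏ i, ((v i).den : ℤ) with hN
  have hN0 : N ≠ 0 := by
    rw [hN, Finset.prod_ne_zero_iff]
    intro i _
    exact_mod_cast (v i).den_ne_zero
  have h1 : ∀ i, ∃ w : ℤ, (w : ℚ) = N * v i := by
    intro i
    obtain ⟨m, hm⟩ : ((v i).den : ℤ) ∣ N := Finset.dvd_prod_of_mem _ (Finset.mem_univ i)
    refine ⟨m * (v i).num, ?_⟩
    rw [hm]
    push_cast
    have h3 : ((v i).num : ℚ) = v i * (v i).den := (Rat.mul_den_eq_num (v i)).symm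
    rw [h3]; ring
  choose w hw using h1
  exact ⟨N, w, hN0, funext fun i => by simp [castV, hw i]⟩

theorem castV_dot (φ e : ι → ℤ) : castV φ ⬝ᵥ castV e = ((φ ⬝ᵥ e : ℤ) : ℚ) := by
  simp only [dotProduct, castV]
  push_cast
  rfl

end corner

/-- `γ ∈ SL(n, ℤ)` lies in the `g`-conjugate of the upper left `SL₂` corner. -/
def InCorner {n : ℕ} (g : GL (Fin n) ℚ) (γ : SpecialLinearGroup (Fin n) ℤ) : Prop :=
  ∀ i j : Fin n, (2 ≤ (i : ℕ) ∨ 2 ≤ (j : ℕ)) →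
    ((((g⁻¹ : GL (Fin n) ℚ) : Matrix (Fin n) (Fin n) ℚ) *
      (γ : Matrix (Fin n) (Fin n) ℤ).map (Int.cast : ℤ → ℚ) *
      (g : Matrix (Fin n) (Fin n) ℚ)) i j = (1 : Matrix (Fin n) (Fin n) ℚ) i j)

theorem final_corner {n : ℕ} (hn : 3 ≤ n) (H : Subgroup (SpecialLinearGroup (Fin n) ℤ))
    (g : GL (Fin n) ℚ)
    (hC : ∀ γ : SpecialLinearGroup (Fin n) ℤ, InCorner g γ →
      ((γ : Matrix (Fin n) (Fin n) ℤ) - 1) ^ 2 = 0 → ∃ k : ℕ, 1 ≤ k ∧ γ ^ k ∈ H) :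
    (ZDense H → H.FiniteIndex) ∧ (ProfDense H → H = ⊤) := by
  apply both
  intro hD
  set G : Matrix (Fin n) (Fin n) ℚ := (g : Matrix (Fin n) (Fin n) ℚ) with hG
  set G' : Matrix (Fin n) (Fin n) ℚ := ((g⁻¹ : GL (Fin n) ℚ) : Matrix (Fin n) (Fin n) ℚ) with hG'
  have hGG : G' * G = 1 := by
    rw [hG, hG', ← Units.val_mul, inv_mul_cancel, Units.val_one]
  set i0 : Fin n := ⟨0, by omega⟩ with hi0
  set i1 : Fin n := ⟨1, by omega⟩ with hi1
  have h01 : i0 ≠ i1 := by rw [hi0, hi1]; simp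
  obtain ⟨N0, e, hN0, he⟩ := clear_denom (G *ᵥ (Pi.single i0 1))
  obtain ⟨N1, e', hN1, he'⟩ := clear_denom (G *ᵥ (Pi.single i1 1))
  obtain ⟨M0, φ', hM0, hφ'⟩ := clear_denom ((Pi.single i0 1 : Fin n → ℚ) ᵥ* G')
  obtain ⟨M1, φ, hM1, hφ⟩ := clear_denom ((Pi.single i1 1 : Fin n → ℚ) ᵥ* G')
  have hpair : ∀ i j : Fin n, ((Pi.single i 1 : Fin n → ℚ) ᵥ* G') ⬝ᵥ (G *ᵥ (Pi.single j 1))
      = if i = j then 1 else 0 := by
    intro i j
    rw [← dotProduct_mulVec, mulVec_mulVec, hGG, one_mulVec]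
    by_cases hij : i = j
    · subst hij; simp
    · simp [hij]
  have h0 : φ ⬝ᵥ e = 0 := by
    have h1 := castV_dot φ e
    rw [hφ, he, smul_dotProduct, dotProduct_smul, hpair, if_neg h01.symm] at h1
    simp only [smul_zero] at h1
    exact_mod_cast h1.symm
  have h0' : φ' ⬝ᵥ e' = 0 := by
    have h1 := castV_dot φ' e'
    rw [hφ', he', smul_dotProduct, dotProduct_smul, hpair, if_neg h01] at h1
    simp only [smul_zero] at h1
    exact_mod_cast h1.symm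
  have hα : φ ⬝ᵥ e' ≠ 0 := by
    intro h
    have h1 := castV_dot φ e'
    rw [hφ, he', smul_dotProduct, dotProduct_smul, hpair, if_pos rfl, h, Int.cast_zero] at h1
    simp only [smul_eq_mul, mul_one] at h1
    rcases mul_eq_zero.mp h1 with h2 | h2
    · exact hM1 (by exact_mod_cast h2)
    · exact hN1 (by exact_mod_cast h2)
  have hβ : φ' ⬝ᵥ e ≠ 0 := by
    intro h
    have h1 := castV_dot φ' e
    rw [hφ', he, smul_dotProduct, dotProduct_smul, hpair, if_pos rfl, h, Int.cast_zero] at h1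
    simp only [smul_eq_mul, mul_one] at h1
    rcases mul_eq_zero.mp h1 with h2 | h2
    · exact hM0 (by exact_mod_cast h2)
    · exact hN0 (by exact_mod_cast h2)
  have hcard : 3 ≤ Fintype.card (Fin n) := by simpa using hn
  refine cusp_case hcard hD h0 h0' hα hβ (fun x y => ?_)
  set w : Fin n → ℤ := x • e + y • e' with hw
  set ω : Fin n → ℤ := (φ' ⬝ᵥ e * x) • φ - (φ ⬝ᵥ e' * y) • φ' with hω
  have hωw : ω ⬝ᵥ w = 0 := omega_w h0 h0' x y
  obtain ⟨k, hk, hkH⟩ := hC (tv w ω) (by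
    intro i j hij
    have hmap : ((tv w ω : SpecialLinearGroup (Fin n) ℤ) : Matrix (Fin n) (Fin n) ℤ).map
        (Int.cast : ℤ → ℚ) = 1 + vecMulVec (castV w) (castV ω) := by
      rw [tv_coe hωw]
      ext a b
      rw [Matrix.map_apply, Matrix.add_apply, Matrix.add_apply, vecMulVec_apply, vecMulVec_apply]
      push_cast
      congr 1
      by_cases hab : a = b
      · subst hab; simp
      · simp [hab]
    rw [hmap, Matrix.mul_add, Matrix.mul_one, Matrix.add_mul, hGG, mul_vecMulVec, vecMulVec_mul,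
      Matrix.add_apply, vecMulVec_apply]
    have hwq : castV w = (x : ℚ) • castV e + (y : ℚ) • castV e' := by
      ext a; simp [castV, hw]
    have hωq : castV ω = ((φ' ⬝ᵥ e * x : ℤ) : ℚ) • castV φ - ((φ ⬝ᵥ e' * y : ℤ) : ℚ) • castV φ' := by
      ext a; simp [castV, hω]
    have hz : (G' *ᵥ castV w) i * (castV ω ᵥ* G) j = 0 := by
      rcases hij with hi | hj
      · have : (G' *ᵥ castV w) i = 0 := by
          rw [hwq, he, he', mulVec_add, mulVec_smul, mulVec_smul, mulVec_smul, mulVec_smul,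
            mulVec_mulVec, mulVec_mulVec, hGG, one_mulVec, one_mulVec]
          have n0 : i ≠ i0 := by
            intro h; rw [h, hi0] at hi; simp at hi
          have n1 : i ≠ i1 := by
            intro h; rw [h, hi1] at hi; simp at hi
          simp [n0, n1]
        rw [this, zero_mul]
      · have : (castV ω ᵥ* G) j = 0 := by
          have hGG' : ∀ v : Fin n → ℚ, (v ᵥ* G') ᵥ* G = v := by
            intro v; rw [vecMul_vecMul, hGG, vecMul_one]
          rw [hωq, hφ, hφ', sub_vecMul, smul_vecMul, smul_vecMul, smul_vecMul, smul_vecMul,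
            hGG', hGG']
          have n0 : j ≠ i0 := by
            intro h; rw [h, hi0] at hj; simp at hj
          have n1 : j ≠ i1 := by
            intro h; rw [h, hi1] at hj; simp at hj
          simp [n0, n1]
        rw [this, mul_zero]
    rw [hz, add_zero]) (by
    rw [tv_coe hωw, add_sub_cancel_left, sq, vecMulVec_mul_vecMulVec, hωw, zero_smul,
      vecMulVec_zero])
  refine ⟨k, by exact_mod_cast (by omega : k ≠ 0), ?_⟩
  rw [← hw, ← hω, tv_nsmul_right hωw]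
  exact hkH

/-- every line of a plane is the centre of a transvection of `H` -/
theorem pencil_case (hcard : 3 ≤ Fintype.card ι) {H : Subgroup (SpecialLinearGroup ι ℤ)}
    (hD : ZDense H) {e1 e2 : ι → ℤ} (hI : Indep e1 e2)
    (hE : ∀ a b : ℤ, (a ≠ 0 ∨ b ≠ 0) → ∃ ω : ι → ℤ, ω ≠ 0 ∧ ω ⬝ᵥ (a • e1 + b • e2) = 0 ∧
      tv (a • e1 + b • e2) ω ∈ H) : H.FiniteIndex := by
  obtain ⟨α1, hα1, hα1'⟩ := exists_sep hI
  obtain ⟨α2, hα2, hα2'⟩ := exists_sep hI.symm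
  obtain ⟨χ, hχ0, hχ1, hχ2⟩ := exists_chi hcard hα2' hα1' hα2 hα1
  obtain ⟨ω0, hω0, hω0e, t0⟩ := hE 1 0 (Or.inl one_ne_zero)
  rw [one_smul, zero_smul, add_zero] at hω0e t0
  obtain ⟨h, hh, hne⟩ := (NZ.dot hχ0 hI.ne_left).dense hD
  set v : ι → ℤ := (h : Matrix ι ι ℤ) *ᵥ e1 with hv
  set ξ : ι → ℤ := ω0 ᵥ* ((h⁻¹ : SpecialLinearGroup ι ℤ) : Matrix ι ι ℤ) with hξ
  have tv' : tv v ξ ∈ H := conj_mem hω0e t0 hh
  have hξv : ξ ⬝ᵥ v = 0 := by rw [hξ, hv, vecMul_inv_dot, hω0e]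
  obtain ⟨a, b, hab, hξab⟩ : ∃ a b : ℤ, (a ≠ 0 ∨ b ≠ 0) ∧ ξ ⬝ᵥ (a • e1 + b • e2) = 0 := by
    by_cases h1 : ξ ⬝ᵥ e1 = 0
    · exact ⟨1, 0, Or.inl one_ne_zero, by
        rw [dotProduct_add, dotProduct_smul, dotProduct_smul, h1]; simp⟩
    · refine ⟨ξ ⬝ᵥ e2, -(ξ ⬝ᵥ e1), Or.inr (neg_ne_zero.mpr h1), ?_⟩
      rw [dotProduct_add, dotProduct_smul, dotProduct_smul]
      simp only [smul_eq_mul]; ring
  obtain ⟨ω, hω, hωw, tω⟩ := hE a b hab
  have hw0 : a • e1 + b • e2 ≠ 0 := by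
    intro h1
    obtain ⟨h2, h3⟩ := hI a b h1
    rcases hab with h4 | h4
    · exact h4 h2
    · exact h4 h3
  have hχw : χ ⬝ᵥ (a • e1 + b • e2) = 0 := by
    rw [dotProduct_add, dotProduct_smul, dotProduct_smul, hχ1, hχ2]; simp
  exact pair_zero hcard hD hξv hωw tv' tω (mulVec_ne_zero _ hI.ne_left) (vecMul_ne_zero _ hω0)
    hw0 hω hξab (Or.inl (indep_of_dot hne hχw hw0))

theorem final_pencil (hcard : 3 ≤ Fintype.card ι) (H : Subgroup (SpecialLinearGroup ι ℤ))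
    (e1 e2 : ι → ℤ) (hI : ∀ a b : ℤ, a • e1 + b • e2 = 0 → a = 0 ∧ b = 0)
    (hE : ∀ a b : ℤ, (a ≠ 0 ∨ b ≠ 0) → ∃ t ∈ H, t ≠ 1 ∧ ∃ ω : ι → ℤ,
      (t : Matrix ι ι ℤ) = 1 + vecMulVec (a • e1 + b • e2) ω) :
    (ZDense H → H.FiniteIndex) ∧ (ProfDense H → H = ⊤) := by
  apply both
  intro hD
  refine pencil_case hcard hD hI (fun a b hab => ?_)
  obtain ⟨t, htH, ht1, ω, hω⟩ := hE a b hab
  obtain ⟨_, h2, h3, h4⟩ := tv_data ht1 hω
  exact ⟨ω, h2, h3, by rw [← h4]; exact htH⟩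

end Pool.Agent.H48SL
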