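import Pool.Agent.helper48.SLn.Gen

/-!
The normal subgroup of `SL(ι, ℤ)` generated by the transvections congruent to `1` modulo `q` has
finite index (`3 ≤ card ι`, `q ≠ 0`).
-/

namespace Pool.Agent.H48SL

open Matrix

variable {ι : Type*} [Fintype ι] [DecidableEq ι]

/-- the subgroup generated by all transvections `1 + q x ⊗ φ` -/
def NQ (ι : Type*) [Fintype ι] [DecidableEq ι] (q : ℤ) : Subgroup (SpecialLinearGroup ι ℤ) :=
  Subgroup.closure {g | ∃ x φ : ι → ℤ, φ ⬝ᵥ x = 0 ∧ g = tv x (q • φ)}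

theorem tv_mem_NQ (q : ℤ) {x φ : ι → ℤ} (h : φ ⬝ᵥ x = 0) : tv x (q • φ) ∈ NQ ι q :=
  Subgroup.subset_closure ⟨x, φ, h, rfl⟩

instance NQ_normal (q : ℤ) : (NQ ι q).Normal := by
  refine ⟨fun n hn g => ?_⟩
  induction hn using Subgroup.closure_induction with
  | mem a ha =>
    obtain ⟨x, φ, h, rfl⟩ := ha
    rw [tv_conj (by rw [smul_dotProduct, h, smul_zero]), smul_vecMul]
    exact tv_mem_NQ q (by rw [vecMul_inv_dot, h])
  | one => rw [mul_one, mul_inv_cancel]; exact Subgroup.one_mem _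
  | mul a b _ _ iha ihb =>
    have : g * (a * b) * g⁻¹ = (g * a * g⁻¹) * (g * b * g⁻¹) := by group
    rw [this]; exact Subgroup.mul_mem _ iha ihb
  | inv a _ iha =>
    have : g * a⁻¹ * g⁻¹ = (g * a * g⁻¹)⁻¹ := by group
    rw [this]; exact Subgroup.inv_mem _ iha

theorem bezout_finset (J : Finset ι) (z : ι → ℤ)
    (h : ∀ d : ℤ, (∀ i ∈ J, d ∣ z i) → IsUnit d) : ∃ w : ι → ℤ, ∑ i ∈ J, w i * z i = 1 := by
  have hp : (Ideal.span (z '' J)).IsPrincipal := IsPrincipalIdealRing.principal _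
  obtain ⟨d, hd⟩ := hp
  have hd' : Ideal.span (z '' J) = Ideal.span {d} := hd
  have h1 : IsUnit d := by
    apply h
    intro i hi
    rw [← Ideal.mem_span_singleton, ← hd']
    exact Ideal.subset_span ⟨i, hi, rfl⟩
  have h2 : (1 : ℤ) ∈ Ideal.span (z '' (J : Set ι)) := by
    rw [hd', Ideal.mem_span_singleton]
    exact h1.dvd
  have h3 := (Submodule.mem_span_image_finset_iff_exists_fun' (R := ℤ) (v := z) (s := J) (x := (1 : ℤ))).mp h2
  obtain ⟨w, hw⟩ := h3
  exact ⟨w, by simpa [smul_eq_mul] using hw⟩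

theorem coprime_shift (y g A : ℤ) (hg : g ≠ 0)
    (h : ∀ d : ℤ, d ∣ y → d ∣ g → d ∣ A → IsUnit d) : ∃ s : ℤ, IsCoprime (y + s * A) g := by
  classical
  set P : Finset ℕ := (g.natAbs.primeFactors).filter (fun p => ¬ (p : ℤ) ∣ y) with hP
  refine ⟨∏ p ∈ P, (p : ℤ), ?_⟩
  apply isCoprime_of_prime_dvd
  · rintro ⟨_, h2⟩; exact hg h2
  intro z hz hz1 hz2
  set p : ℕ := z.natAbs with hp
  have hpp : p.Prime := Int.prime_iff_natAbs_prime.mp hz
  have hpz : ∀ x : ℤ, z ∣ x ↔ (p : ℤ) ∣ x := fun x => by rw [hp, Int.natAbs_dvd]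
  rw [hpz] at hz1 hz2
  have hpprime : _root_.Prime (p : ℤ) := Nat.prime_iff_prime_int.mp hpp
  have hmemF : p ∈ g.natAbs.primeFactors := by
    rw [Nat.mem_primeFactors]
    exact ⟨hpp, Int.natCast_dvd.mp hz2, by simpa using hg⟩
  by_cases hy : (p : ℤ) ∣ y
  · have h1 : (p : ℤ) ∣ (∏ p ∈ P, (p : ℤ)) * A := by
      have := dvd_sub hz1 hy
      simpa using this
    rcases hpprime.dvd_or_dvd h1 with h2 | h2
    · obtain ⟨r, hr, hpr⟩ := hpprime.exists_mem_finset_dvd h2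
      have hr' := Finset.mem_filter.mp hr
      have hrp : r.Prime := (Nat.mem_primeFactors.mp hr'.1).1
      have : p = r := (Nat.prime_dvd_prime_iff_eq hpp hrp).mp (Int.natCast_dvd_natCast.mp hpr)
      exact hr'.2 (this ▸ hy)
    · exact hpprime.not_isUnit (h _ hy hz2 h2)
  · have hmem : p ∈ P := Finset.mem_filter.mpr ⟨hmemF, hy⟩
    have h1 : (p : ℤ) ∣ (∏ p ∈ P, (p : ℤ)) * A :=
      Dvd.dvd.mul_right (Finset.dvd_prod_of_mem _ hmem) _
    have := dvd_sub hz1 h1
    exact hy (by simpa using this)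

theorem shift_unimod (J : Finset ι) (hJ : 2 ≤ J.card) (y : ι → ℤ) (A : ℤ)
    (h : ∀ d : ℤ, (∀ i ∈ J, d ∣ y i) → d ∣ A → IsUnit d) :
    ∃ s w : ι → ℤ, ∑ i ∈ J, w i * (y i + s i * A) = 1 := by
  obtain ⟨j0, hj0, j1, hj1, hne⟩ := Finset.one_lt_card.mp (by omega : 1 < J.card)
  by_cases hall : ∀ i ∈ J, i ≠ j0 → y i = 0
  · -- use s_{j1} = 1
    set s : ι → ℤ := fun i => if i = j1 then 1 else 0 with hs
    refine ⟨s, ?_⟩
    apply bezout_finset J (fun i => y i + s i * A)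
    intro d hd
    have h0 := hd j0 hj0
    have h1 := hd j1 hj1
    simp only [hs, hne, if_false, zero_mul, add_zero, if_true, one_mul] at h0 h1
    rw [hall j1 hj1 hne.symm, zero_add] at h1
    apply h d _ h1
    intro i hi
    by_cases hi0 : i = j0
    · rw [hi0]; exact h0
    · rw [hall i hi hi0]; exact dvd_zero _
  · push Not at hall
    obtain ⟨j2, hj2, hj20, hyj2⟩ := hall
    -- the gcd of the others
    have hp : (Ideal.span (y '' (J.erase j0 : Finset ι))).IsPrincipal :=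
      IsPrincipalIdealRing.principal _
    obtain ⟨g, hg⟩ := hp
    have hg' : Ideal.span (y '' ((J.erase j0 : Finset ι) : Set ι)) = Ideal.span {g} := hg
    have hgdvd : ∀ i ∈ J, i ≠ j0 → g ∣ y i := by
      intro i hi hi0
      rw [← Ideal.mem_span_singleton, ← hg']
      exact Ideal.subset_span ⟨i, Finset.mem_coe.mpr (Finset.mem_erase.mpr ⟨hi0, hi⟩), rfl⟩
    have hg0 : g ≠ 0 := by
      rintro rfl
      exact hyj2 (zero_dvd_iff.mp (hgdvd j2 hj2 hj20))
    have hdg : ∀ d : ℤ, (∀ i ∈ J, i ≠ j0 → d ∣ y i) → d ∣ g := by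
      intro d hd
      have : Ideal.span {g} ≤ Ideal.span {d} := by
        rw [← hg', Ideal.span_le]
        rintro _ ⟨i, hi, rfl⟩
        simp only [Finset.coe_erase, Set.mem_sdiff, Finset.mem_coe, Set.mem_singleton_iff] at hi
        exact Ideal.mem_span_singleton.mpr (hd i hi.1 hi.2)
      exact Ideal.span_singleton_le_span_singleton.mp this
    obtain ⟨t, ht⟩ := coprime_shift (y j0) g A hg0 (by
      intro d h1 h2 h3
      apply h d _ h3
      intro i hi
      by_cases hi0 : i = j0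
      · rw [hi0]; exact h1
      · exact h2.trans (hgdvd i hi hi0))
    set s : ι → ℤ := fun i => if i = j0 then t else 0 with hs
    refine ⟨s, ?_⟩
    apply bezout_finset J (fun i => y i + s i * A)
    intro d hd
    have h0 := hd j0 hj0
    simp only [hs, if_true] at h0
    apply ht.isUnit_of_dvd' h0
    apply hdg
    intro i hi hi0
    have := hd i hi
    simpa [hs, hi0] using this

theorem column_reduce (q : ℤ) (l : ι) (hcard : 3 ≤ Fintype.card ι) (v y : ι → ℤ)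
    (hprim : ∀ d : ℤ, (∀ i, d ∣ v i) → IsUnit d) (hv : v = Pi.single l 1 + q • y) :
    ∃ a ∈ NQ ι q, (a : Matrix ι ι ℤ) *ᵥ v = Pi.single l 1 := by
  set J : Finset ι := Finset.univ.erase l with hJ
  have hJc : 2 ≤ J.card := by
    rw [hJ, Finset.card_erase_of_mem (Finset.mem_univ _), Finset.card_univ]; omega
  set A : ℤ := v l with hA
  obtain ⟨s, w, hsw⟩ := shift_unimod J hJc y A (by
    intro d hd hdA
    apply hprim
    intro i
    by_cases hi : i = l
    · rw [hi]; exact hdA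
    · have h1 := hd i (by rw [hJ]; simpa using hi)
      rw [hv]
      simp only [Pi.add_apply, Pi.smul_apply, smul_eq_mul, Pi.single_eq_of_ne hi, zero_add]
      exact Dvd.dvd.mul_left h1 _)
  set x : ι → ℤ := fun i => if i = l then 0 else s i with hx
  have hxl : (Pi.single l 1 : ι → ℤ) ⬝ᵥ x = 0 := by simp [hx]
  set y' : ι → ℤ := y + A • x with hy'
  have hy'l : y' l = y l := by simp [hy', hx]
  have hy'i : ∀ i, i ≠ l → y' i = y i + s i * A := by
    intro i hi; simp [hy', hx, hi, mul_comm]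
  have hstep1 : ((tv x (q • Pi.single l 1) : SpecialLinearGroup ι ℤ) : Matrix ι ι ℤ) *ᵥ v
      = Pi.single l 1 + q • y' := by
    rw [tv_mulVec (by rw [smul_dotProduct, hxl, smul_zero]), smul_dotProduct, single_one_dotProduct,
      ← hA]
    conv_lhs => rw [hv]
    rw [hy', smul_add, smul_smul, smul_eq_mul]
    abel
  set ψ : ι → ℤ := fun i => if i = l then -1 else y l * w i with hψ
  have hψy : ψ ⬝ᵥ y' = 0 := by
    unfold dotProduct
    rw [← Finset.add_sum_erase _ _ (Finset.mem_univ l)]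
    have h1 : ∑ i ∈ Finset.univ.erase l, ψ i * y' i = y l * ∑ i ∈ J, w i * (y i + s i * A) := by
      rw [Finset.mul_sum]
      apply Finset.sum_congr rfl
      intro i hi
      have hil : i ≠ l := (Finset.mem_erase.mp hi).1
      rw [hy'i i hil]
      simp only [hψ, hil, if_false]
      ring
    rw [h1, hsw, hy'l]
    simp [hψ]
  refine ⟨tv y' (q • ψ) * tv x (q • Pi.single l 1), Subgroup.mul_mem _ (tv_mem_NQ q hψy)
    (tv_mem_NQ q hxl), ?_⟩
  rw [Matrix.SpecialLinearGroup.coe_mul, ← mulVec_mulVec, hstep1,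
    tv_mulVec (by rw [smul_dotProduct, hψy, smul_zero]), smul_dotProduct, dotProduct_add,
    dotProduct_smul, hψy, smul_zero, add_zero, dotProduct_single]
  simp only [hψ, if_true]
  ext i
  simp

/-- principal congruence subgroup -/
def Cong (ι : Type*) [Fintype ι] [DecidableEq ι] (q : ℕ) : Subgroup (SpecialLinearGroup ι ℤ) :=
  (Matrix.SpecialLinearGroup.map (n := ι) (Int.castRingHom (ZMod q))).ker

theorem mem_Cong {q : ℕ} {γ : SpecialLinearGroup ι ℤ} :
    γ ∈ Cong ι q ↔ ∃ B : Matrix ι ι ℤ, (γ : Matrix ι ι ℤ) = 1 + (q : ℤ) • B := by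
  unfold Cong
  rw [MonoidHom.mem_ker]
  constructor
  · intro h
    have h1 : ∀ i j, (q : ℤ) ∣ (γ : Matrix ι ι ℤ) i j - (1 : Matrix ι ι ℤ) i j := by
      intro i j
      have h2 : ((Matrix.SpecialLinearGroup.map (n := ι) (Int.castRingHom (ZMod q)) γ :
        SpecialLinearGroup ι (ZMod q)) : Matrix ι ι (ZMod q)) i j = (1 : Matrix ι ι (ZMod q)) i j := by
        rw [h]; rfl
      rw [← ZMod.intCast_zmod_eq_zero_iff_dvd]
      push_cast
      have h3 : (((γ : Matrix ι ι ℤ) i j : ℤ) : ZMod q) = (1 : Matrix ι ι (ZMod q)) i j := h2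
      rw [h3]
      by_cases hij : i = j
      · subst hij; simp
      · simp [hij]
    choose B hB using h1
    refine ⟨Matrix.of B, ?_⟩
    ext i j
    have := hB i j
    simp only [Matrix.add_apply, Matrix.smul_apply, Matrix.of_apply, smul_eq_mul]
    linarith
  · rintro ⟨B, hB⟩
    apply Subtype.ext
    ext i j
    have h3 : (((γ : Matrix ι ι ℤ) i j : ℤ) : ZMod q) = (1 : Matrix ι ι (ZMod q)) i j := by
      rw [hB]
      simp only [Matrix.add_apply, Matrix.smul_apply, smul_eq_mul]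
      push_cast
      rw [ZMod.natCast_self, zero_mul, add_zero]
      by_cases hij : i = j
      · subst hij; simp
      · simp [hij]
    exact h3

theorem tv_mem_Cong {q : ℕ} {x φ : ι → ℤ} (h : φ ⬝ᵥ x = 0) : tv x ((q : ℤ) • φ) ∈ Cong ι q := by
  rw [mem_Cong]
  refine ⟨vecMulVec x φ, ?_⟩
  rw [tv_coe (by rw [smul_dotProduct, h, smul_zero]), vecMulVec_smul]

theorem NQ_le_Cong (q : ℕ) : NQ ι (q : ℤ) ≤ Cong ι q := by
  unfold NQ
  rw [Subgroup.closure_le]
  rintro g ⟨x, φ, h, rfl⟩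
  exact tv_mem_Cong h

theorem stab_reduce (q : ℕ) (hq : q ≠ 0) (l : ι) (hcard : 3 ≤ Fintype.card ι)
    (γ : SpecialLinearGroup ι ℤ) (hγ : γ ∈ Cong ι q) :
    ∃ a ∈ NQ ι (q : ℤ), ∃ b ∈ NQ ι (q : ℤ),
      (((a * γ * b : SpecialLinearGroup ι ℤ)) : Matrix ι ι ℤ) *ᵥ (Pi.single l 1) = Pi.single l 1 ∧
      (Pi.single l 1 : ι → ℤ) ᵥ* ((a * γ * b : SpecialLinearGroup ι ℤ) : Matrix ι ι ℤ)
        = Pi.single l 1 := by
  obtain ⟨B, hB⟩ := mem_Cong.mp hγ
  set v : ι → ℤ := (γ : Matrix ι ι ℤ) *ᵥ (Pi.single l 1) with hv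
  have hv' : v = Pi.single l 1 + (q : ℤ) • (B *ᵥ (Pi.single l 1)) := by
    rw [hv, hB, add_mulVec, one_mulVec, smul_mulVec]
  have hprim : ∀ d : ℤ, (∀ i, d ∣ v i) → IsUnit d := by
    intro d hd
    have h1 : ((Pi.single l 1 : ι → ℤ) ᵥ* ((γ⁻¹ : SpecialLinearGroup ι ℤ) : Matrix ι ι ℤ)) ⬝ᵥ v = 1 := by
      rw [hv, vecMul_inv_dot]; simp
    apply isUnit_of_dvd_one
    rw [← h1]
    unfold dotProduct
    apply Finset.dvd_sum
    intro i _
    exact Dvd.dvd.mul_left (hd i) _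
  obtain ⟨a, ha, hav⟩ := column_reduce (q : ℤ) l hcard v _ hprim hv'
  have haγ : a * γ ∈ Cong ι q := Subgroup.mul_mem _ (NQ_le_Cong q ha) hγ
  obtain ⟨C, hC⟩ := mem_Cong.mp haγ
  have h1 : ((a * γ : SpecialLinearGroup ι ℤ) : Matrix ι ι ℤ) *ᵥ (Pi.single l 1) = Pi.single l 1 := by
    rw [Matrix.SpecialLinearGroup.coe_mul, ← mulVec_mulVec]; exact hav
  set β : ι → ℤ := (Pi.single l 1 : ι → ℤ) ᵥ* C with hβ
  have hrow : (Pi.single l 1 : ι → ℤ) ᵥ* ((a * γ : SpecialLinearGroup ι ℤ) : Matrix ι ι ℤ)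
      = Pi.single l 1 + (q : ℤ) • β := by
    rw [hC, vecMul_add, vecMul_one, vecMul_smul]
  have hβl : β l = 0 := by
    have h2 := congrFun h1 l
    rw [hC, add_mulVec, one_mulVec, smul_mulVec] at h2
    simp only [Pi.add_apply, Pi.single_eq_same, Pi.smul_apply, smul_eq_mul] at h2
    have h3 : (q : ℤ) * (C *ᵥ Pi.single l 1) l = 0 := by linarith
    have h4 : (C *ᵥ Pi.single l 1) l = 0 := by
      rcases mul_eq_zero.mp h3 with h | h
      · exact absurd (Int.natCast_eq_zero.mp h) hq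
      · exact h
    have h5 : (C *ᵥ Pi.single l 1) l = C l l := by rw [mulVec_single_one]; rfl
    have h6 : β l = C l l := by rw [hβ, single_one_vecMul]; rfl
    rw [h6, ← h5, h4]
  have hβd : (-β) ⬝ᵥ (Pi.single l 1) = 0 := by simp [hβl]
  refine ⟨a, ha, tv (Pi.single l 1) ((q : ℤ) • (-β)), tv_mem_NQ _ hβd, ?_, ?_⟩
  · rw [Matrix.SpecialLinearGroup.coe_mul, ← mulVec_mulVec,
      tv_mulVec (by rw [smul_dotProduct, hβd, smul_zero]), smul_dotProduct, hβd, smul_zero,
      zero_smul, add_zero, h1]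
  · rw [Matrix.SpecialLinearGroup.coe_mul, ← vecMul_vecMul, hrow,
      tv_vecMul (by rw [smul_dotProduct, hβd, smul_zero]), add_dotProduct, smul_dotProduct]
    have h7 : β ⬝ᵥ (Pi.single l 1) = 0 := by simp [hβl]
    rw [h7]
    simp

theorem single_eq_smul (l : ι) (c : ℤ) : (Pi.single l c : ι → ℤ) = c • Pi.single l 1 := by
  ext i
  by_cases h : i = l
  · subst h; simp
  · simp [h]

theorem central_aux (q : ℕ) (hq : q ≠ 0) (l : ι) (γ : SpecialLinearGroup ι ℤ) (hγ : γ ∈ Cong ι q)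
    (h1 : (γ : Matrix ι ι ℤ) *ᵥ (Pi.single l 1) = Pi.single l 1)
    (h2 : (Pi.single l 1 : ι → ℤ) ᵥ* (γ : Matrix ι ι ℤ) = Pi.single l 1)
    (i : ι) (hi : i ≠ l) (c : ℤ) :
    γ * xe i l c * γ⁻¹ * (xe i l c)⁻¹ ∈ NQ ι (q : ℤ) ∧
    γ * xe l i c * γ⁻¹ * (xe l i c)⁻¹ ∈ NQ ι (q : ℤ) := by
  obtain ⟨B, hB⟩ := mem_Cong.mp hγ
  have hγi : γ⁻¹ ∈ Cong ι q := Subgroup.inv_mem _ hγ
  obtain ⟨C, hC⟩ := mem_Cong.mp hγi
  have h1' : ((γ⁻¹ : SpecialLinearGroup ι ℤ) : Matrix ι ι ℤ) *ᵥ (Pi.single l 1) = Pi.single l 1 := by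
    conv_lhs => rw [← h1]
    rw [mulVec_mulVec, ← Matrix.SpecialLinearGroup.coe_mul, inv_mul_cancel,
      Matrix.SpecialLinearGroup.coe_one, one_mulVec]
  have h2' : (Pi.single l 1 : ι → ℤ) ᵥ* ((γ⁻¹ : SpecialLinearGroup ι ℤ) : Matrix ι ι ℤ)
      = Pi.single l 1 := by
    conv_lhs => rw [← h2]
    rw [vecMul_vecMul, ← Matrix.SpecialLinearGroup.coe_mul, mul_inv_cancel,
      Matrix.SpecialLinearGroup.coe_one, vecMul_one]
  have hq' : (q : ℤ) ≠ 0 := by exact_mod_cast hq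
  constructor
  · set z : ι → ℤ := B *ᵥ (Pi.single i 1) with hz
    have hzl : z l = 0 := by
      have h3 := congrFun h2 i
      rw [hB, vecMul_add, vecMul_one, vecMul_smul] at h3
      simp only [Pi.add_apply, Pi.single_eq_of_ne hi, Pi.smul_apply, smul_eq_mul, zero_add] at h3
      have h4 : ((Pi.single l 1 : ι → ℤ) ᵥ* B) i = 0 := by
        rcases mul_eq_zero.mp h3 with h | h
        · exact absurd h hq'
        · exact h
      have h5 : ((Pi.single l 1 : ι → ℤ) ᵥ* B) i = B l i := by rw [single_one_vecMul]; rfl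
      have h6 : z l = B l i := by rw [hz, mulVec_single_one]; rfl
      rw [h6, ← h5, h4]
    have hcol : (γ : Matrix ι ι ℤ) *ᵥ (Pi.single i 1) = Pi.single i 1 + (q : ℤ) • z := by
      rw [hB, add_mulVec, one_mulVec, smul_mulVec]
    have hd1 : (Pi.single l c : ι → ℤ) ⬝ᵥ z = 0 := by simp [hzl]
    unfold xe
    rw [tv_conj (single_dot hi c), hcol]
    have hrow : (Pi.single l c : ι → ℤ) ᵥ* ((γ⁻¹ : SpecialLinearGroup ι ℤ) : Matrix ι ι ℤ)
        = Pi.single l c := by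
      rw [single_eq_smul, smul_vecMul, h2']
    rw [hrow, tv_add_left (single_dot hi c) (by rw [dotProduct_smul, hd1, smul_zero]),
      tv_smul_comm hd1]
    exact (NQ_normal (ι := ι) (q : ℤ)).conj_mem _ (tv_mem_NQ _ hd1) _
  · set z : ι → ℤ := (Pi.single i c : ι → ℤ) ᵥ* C with hz
    have hzl : z l = 0 := by
      have h3 := congrFun h1' i
      rw [hC, add_mulVec, one_mulVec, smul_mulVec] at h3
      simp only [Pi.add_apply, Pi.single_eq_of_ne hi, Pi.smul_apply, smul_eq_mul, zero_add] at h3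
      have h4 : (C *ᵥ (Pi.single l 1 : ι → ℤ)) i = 0 := by
        rcases mul_eq_zero.mp h3 with h | h
        · exact absurd h hq'
        · exact h
      have h5 : (C *ᵥ (Pi.single l 1 : ι → ℤ)) i = C i l := by rw [mulVec_single_one]; rfl
      have h6 : z l = c * C i l := by
        rw [hz, single_eq_smul, smul_vecMul, single_one_vecMul]; rfl
      rw [h6, ← h5, h4, mul_zero]
    have hrow : (Pi.single i c : ι → ℤ) ᵥ* ((γ⁻¹ : SpecialLinearGroup ι ℤ) : Matrix ι ι ℤ)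
        = Pi.single i c + (q : ℤ) • z := by
      rw [hC, vecMul_add, vecMul_one, vecMul_smul]
    have hd1 : z ⬝ᵥ (Pi.single l 1 : ι → ℤ) = 0 := by simp [hzl]
    unfold xe
    rw [tv_conj (single_dot hi.symm c), h1, hrow,
      tv_add_right (single_dot hi.symm c) (by rw [smul_dotProduct, hd1, smul_zero])]
    exact (NQ_normal (ι := ι) (q : ℤ)).conj_mem _ (tv_mem_NQ _ hd1) _

theorem xe_commutator {i l j : ι} (hil : i ≠ l) (hlj : l ≠ j) (hij : i ≠ j) (c : ℤ) :
    xe i l c * xe l j 1 * (xe i l c)⁻¹ * (xe l j 1)⁻¹ = xe i j c := by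
  unfold xe
  rw [tv_commutator (single_dot hil c) (single_dot hlj 1) (single_dot hij 1)]
  congr 1
  rw [single_dotProduct, Pi.single_eq_same, mul_one, ← single_eq_smul]

/-- The image of the congruence subgroup in `SL / NQ` is central. -/
theorem Cong_central (q : ℕ) (hq : q ≠ 0) (hcard : 3 ≤ Fintype.card ι)
    (γ : SpecialLinearGroup ι ℤ) (hγ : γ ∈ Cong ι q) :
    (QuotientGroup.mk' (NQ ι (q : ℤ))) γ ∈
      Subgroup.center (SpecialLinearGroup ι ℤ ⧸ NQ ι (q : ℤ)) := by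
  classical
  obtain ⟨l⟩ : Nonempty ι := by
    rw [← Fintype.card_pos_iff]; omega
  obtain ⟨a, ha, b, hb, h1, h2⟩ := stab_reduce q hq l hcard γ hγ
  set π := QuotientGroup.mk' (NQ ι (q : ℤ)) with hπ
  set δ := a * γ * b with hδ
  have hπδ : π δ = π γ := by
    rw [hδ, map_mul, map_mul]
    have ha' : π a = 1 := (QuotientGroup.eq_one_iff a).mpr ha
    have hb' : π b = 1 := (QuotientGroup.eq_one_iff b).mpr hb
    rw [ha', hb', one_mul, mul_one]
  have hδC : δ ∈ Cong ι q :=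
    Subgroup.mul_mem _ (Subgroup.mul_mem _ (NQ_le_Cong q ha) hγ) (NQ_le_Cong q hb)
  -- the set of g commuting with π δ
  set K : Subgroup (SpecialLinearGroup ι ℤ) := (Subgroup.centralizer {π δ}).comap π with hK
  have hmemK : ∀ g, g ∈ K ↔ π δ * π g = π g * π δ := by
    intro g
    rw [hK, Subgroup.mem_comap, Subgroup.mem_centralizer_singleton_iff]
    exact eq_comm
  have hcomm : ∀ g, δ * g * δ⁻¹ * g⁻¹ ∈ NQ ι (q : ℤ) → g ∈ K := by
    intro g hg
    rw [hmemK]
    have h3 : π (δ * g * δ⁻¹ * g⁻¹) = 1 := (QuotientGroup.eq_one_iff _).mpr hg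
    rw [map_mul, map_mul, map_mul, map_inv, map_inv] at h3
    rw [mul_inv_eq_one, mul_inv_eq_iff_eq_mul] at h3
    exact h3
  have hl : ∀ i, i ≠ l → ∀ c, xe i l c ∈ K ∧ xe l i c ∈ K := by
    intro i hi c
    obtain ⟨h3, h4⟩ := central_aux q hq l δ hδC h1 h2 i hi c
    exact ⟨hcomm _ h3, hcomm _ h4⟩
  have hall : ES (Finset.univ : Finset ι) ≤ K := by
    unfold ES
    rw [Subgroup.closure_le]
    rintro g ⟨i, _, j, _, hij, c, rfl⟩
    by_cases hi : i = l
    · subst hi; exact (hl j hij.symm c).2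
    · by_cases hj : j = l
      · subst hj; exact (hl i hij c).1
      · rw [← xe_commutator (l := l) hi (Ne.symm hj) hij c]
        exact Subgroup.mul_mem _ (Subgroup.mul_mem _ (Subgroup.mul_mem _ (hl i hi c).1 (hl j hj 1).2)
          (Subgroup.inv_mem _ (hl i hi c).1)) (Subgroup.inv_mem _ (hl j hj 1).2)
  rw [ES_univ, top_le_iff] at hall
  rw [← hπδ, Subgroup.mem_center_iff]
  intro x
  obtain ⟨g, rfl⟩ := QuotientGroup.mk'_surjective _ x
  have : g ∈ K := by rw [hall]; exact Subgroup.mem_top _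
  exact ((hmemK g).mp this).symm

/-- Schur: a perfect group whose centre has finite index is finite. -/
theorem finite_of_perfect {Q : Type*} [Group Q] (hperf : commutator Q = ⊤)
    (hc : (Subgroup.center Q).FiniteIndex) : Finite Q := by
  classical
  have hfin : Finite (Q ⧸ Subgroup.center Q) := Subgroup.finite_quotient_of_finiteIndex
  have h1 : Finite (commutatorSet Q) := by
    apply Set.Finite.subset (Set.finite_range
      (fun p : (Q ⧸ Subgroup.center Q) × (Q ⧸ Subgroup.center Q) =>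
        p.1.out * p.2.out * (p.1.out)⁻¹ * (p.2.out)⁻¹))
    rintro _ ⟨g1, g2, rfl⟩
    refine ⟨((g1 : Q ⧸ Subgroup.center Q), (g2 : Q ⧸ Subgroup.center Q)), ?_⟩
    simp only
    obtain ⟨z1, hz1⟩ := QuotientGroup.mk_out_eq_mul (Subgroup.center Q) g1
    obtain ⟨z2, hz2⟩ := QuotientGroup.mk_out_eq_mul (Subgroup.center Q) g2
    rw [hz1, hz2]
    have c1 := Subgroup.mem_center_iff.mp z1.2
    have c2 := Subgroup.mem_center_iff.mp z2.2
    have c1' : ∀ g : Q, Commute (z1 : Q) g := fun g => (c1 g).symm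
    have c2' : ∀ g : Q, Commute (z2 : Q) g := fun g => (c2 g).symm
    rw [commutatorElement_def]
    have e1 : (g1 * (z1 : Q)) = (z1 : Q) * g1 := c1 g1
    have e2 : (g2 * (z2 : Q)) = (z2 : Q) * g2 := c2 g2
    rw [e1, e2, _root_.mul_inv_rev, _root_.mul_inv_rev]
    calc (z1 : Q) * g1 * (z2 * g2) * (g1⁻¹ * (z1 : Q)⁻¹) * (g2⁻¹ * (z2 : Q)⁻¹)
        = (z1 : Q) * (g1 * z2) * g2 * g1⁻¹ * ((z1 : Q)⁻¹ * g2⁻¹) * (z2 : Q)⁻¹ := by group
      _ = (z1 : Q) * (z2 * g1) * g2 * g1⁻¹ * (g2⁻¹ * (z1 : Q)⁻¹) * (z2 : Q)⁻¹ := by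
          rw [c2 g1, ((c1' g2⁻¹).inv_left).eq]
      _ = (z1 : Q) * z2 * (g1 * g2 * g1⁻¹ * g2⁻¹) * ((z1 : Q)⁻¹ * (z2 : Q)⁻¹) := by group
      _ = (z1 : Q) * z2 * ((z1 : Q)⁻¹ * (z2 : Q)⁻¹ * (g1 * g2 * g1⁻¹ * g2⁻¹)) := by
          rw [(((c1' (g1 * g2 * g1⁻¹ * g2⁻¹)).inv_left).mul_left
            ((c2' (g1 * g2 * g1⁻¹ * g2⁻¹)).inv_left)).eq, mul_assoc ((z1 : Q) * z2)]
      _ = g1 * g2 * g1⁻¹ * g2⁻¹ := by
          have e3 : (z1 : Q) * z2 = z2 * z1 := (c1' z2).eq
          rw [e3]; group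
  have h2 : Finite (commutator Q) := inferInstance
  rw [hperf] at h2
  exact Finite.of_equiv _ (Subgroup.topEquiv (G := Q)).toEquiv

theorem NQ_finiteIndex (q : ℕ) (hq : q ≠ 0) (hcard : 3 ≤ Fintype.card ι) :
    (NQ ι (q : ℤ)).FiniteIndex := by
  classical
  set π := QuotientGroup.mk' (NQ ι (q : ℤ)) with hπ
  have : NeZero q := ⟨hq⟩
  have hsurj : Function.Surjective π := QuotientGroup.mk'_surjective _
  -- perfectness
  have hperf : commutator (SpecialLinearGroup ι ℤ ⧸ NQ ι (q : ℤ)) = ⊤ := by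
    have h0 : commutator (SpecialLinearGroup ι ℤ) = ⊤ := by
      rw [eq_top_iff, ← ES_univ]
      unfold ES
      rw [Subgroup.closure_le]
      rintro g ⟨i, _, j, _, hij, c, rfl⟩
      obtain ⟨l, hl⟩ : ∃ l : ι, l ∉ ({i, j} : Finset ι) := by
        by_contra hcon
        push Not at hcon
        have : Fintype.card ι ≤ ({i, j} : Finset ι).card := by
          rw [← Finset.card_univ]
          exact Finset.card_le_card (fun x _ => hcon x)
        have := this.trans (Finset.card_le_two)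
        omega
      simp only [Finset.mem_insert, Finset.mem_singleton, not_or] at hl
      rw [← xe_commutator (l := l) (Ne.symm hl.1) hl.2 hij c]
      exact Subgroup.commutator_mem_commutator (Subgroup.mem_top _) (Subgroup.mem_top _)
    have h1 : (commutator (SpecialLinearGroup ι ℤ)).map π = commutator _ := by
      unfold commutator
      rw [Subgroup.map_commutator, Subgroup.map_top_of_surjective _ hsurj]
    rw [← h1, h0, Subgroup.map_top_of_surjective _ hsurj]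
  have hc : (Subgroup.center (SpecialLinearGroup ι ℤ ⧸ NQ ι (q : ℤ))).FiniteIndex := by
    have h1 : Cong ι q ≤ (Subgroup.center (SpecialLinearGroup ι ℤ ⧸ NQ ι (q : ℤ))).comap π := by
      intro γ hγ
      exact Cong_central q hq hcard γ hγ
    have h2 : (Cong ι q).FiniteIndex := Subgroup.finiteIndex_ker _
    have h3 := Subgroup.finiteIndex_of_le h1
    refine ⟨?_⟩
    rw [← Subgroup.index_comap_of_surjective _ hsurj]
    exact h3.index_ne_zero
  have := finite_of_perfect hperf hc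
  exact Subgroup.finiteIndex_of_finite_quotient

end Pool.Agent.H48SL
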