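import Pool.Agent.helper48.SLn.Index

/-!
A subgroup containing `1 + m f_i ⊗ φ` for all `φ` killing `f_i`, where the `f_i` are linearly
independent, contains `NQ q` for some `q ≠ 0`.
-/

namespace Pool.Agent.H48SL

open Matrix

variable {ι : Type*} [Fintype ι] [DecidableEq ι]

theorem tv_fsum_left {κ : Type*} [DecidableEq κ] (s : Finset κ) (u : κ → ι → ℤ) (φ : ι → ℤ)
    (K : Subgroup (SpecialLinearGroup ι ℤ))
    (hK : ∀ l ∈ s, φ ⬝ᵥ (u l) = 0 ∧ tv (u l) φ ∈ K) :
    φ ⬝ᵥ (∑ l ∈ s, u l) = 0 ∧ tv (∑ l ∈ s, u l) φ ∈ K := by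
  induction s using Finset.induction_on with
  | empty => simp [tv_zero_left]
  | insert a s ha ih =>
    rw [Finset.sum_insert ha]
    obtain ⟨h1, h2⟩ := ih (fun i hi => hK i (Finset.mem_insert_of_mem hi))
    obtain ⟨h3, h4⟩ := hK a (Finset.mem_insert_self _ _)
    refine ⟨by rw [dotProduct_add, h1, h3, add_zero], ?_⟩
    rw [tv_add_left h3 h1]
    exact Subgroup.mul_mem _ h4 h2

theorem tv_fsum_right {κ : Type*} [DecidableEq κ] (s : Finset κ) (x : ι → ℤ) (u : κ → ι → ℤ)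
    (K : Subgroup (SpecialLinearGroup ι ℤ))
    (hK : ∀ l ∈ s, (u l) ⬝ᵥ x = 0 ∧ tv x (u l) ∈ K) :
    (∑ l ∈ s, u l) ⬝ᵥ x = 0 ∧ tv x (∑ l ∈ s, u l) ∈ K := by
  induction s using Finset.induction_on with
  | empty => simp [tv_zero_right]
  | insert a s ha ih =>
    rw [Finset.sum_insert ha]
    obtain ⟨h1, h2⟩ := ih (fun i hi => hK i (Finset.mem_insert_of_mem hi))
    obtain ⟨h3, h4⟩ := hK a (Finset.mem_insert_self _ _)
    refine ⟨by rw [add_dotProduct, h1, h3, add_zero], ?_⟩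
    rw [tv_add_right h3 h1]
    exact Subgroup.mul_mem _ h4 h2

theorem tv_smul_mem {K : Subgroup (SpecialLinearGroup ι ℤ)} {x φ : ι → ℤ} (h : φ ⬝ᵥ x = 0)
    (hK : tv x φ ∈ K) (c : ℤ) : tv x (c • φ) ∈ K := by
  rw [tv_zsmul_right h]
  exact Subgroup.zpow_mem _ hK c

section
variable (F : Matrix ι ι ℤ)

theorem adj_dot_col (i j : ι) : (F.adjugate i) ⬝ᵥ (fun k => F k j) = if i = j then F.det else 0 := by
  have h := congrFun (congrFun (adjugate_mul F) i) j
  rw [Matrix.mul_apply] at h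
  unfold dotProduct
  rw [h]
  simp [Matrix.one_apply]

theorem sum_adj_col (x : ι → ℤ) :
    ∑ k, (F.adjugate *ᵥ x) k • (fun j => F j k) = F.det • x := by
  have h : F *ᵥ (F.adjugate *ᵥ x) = F.det • x := by
    rw [mulVec_mulVec, mul_adjugate, smul_mulVec, one_mulVec]
  rw [← h]
  ext i
  simp only [Finset.sum_apply, Pi.smul_apply, smul_eq_mul, mulVec, dotProduct]
  apply Finset.sum_congr rfl
  intro k _
  ring

theorem sum_dot_adj (φ : ι → ℤ) :
    ∑ j, (φ ⬝ᵥ (fun k => F k j)) • (F.adjugate j) = F.det • φ := by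
  have h : (φ ᵥ* F) ᵥ* F.adjugate = F.det • φ := by
    rw [vecMul_vecMul, mul_adjugate, vecMul_smul, vecMul_one]
  rw [← h]
  ext i
  simp only [Finset.sum_apply, Pi.smul_apply, smul_eq_mul, vecMul, dotProduct]

theorem basis_psi (hcard : 3 ≤ Fintype.card ι) (H : Subgroup (SpecialLinearGroup ι ℤ)) (m : ℤ)
    (hF : ∀ (i : ι) (φ : ι → ℤ), φ ⬝ᵥ (fun k => F k i) = 0 → tv (fun k => F k i) (m • φ) ∈ H)
    (x : ι → ℤ) (i j : ι) :
    ((F.adjugate *ᵥ x) i • F.adjugate j - (F.adjugate *ᵥ x) j • F.adjugate i) ⬝ᵥ x = 0 ∧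
    tv x ((m ^ 2 * F.det ^ 2) • ((F.adjugate *ᵥ x) i • F.adjugate j
      - (F.adjugate *ᵥ x) j • F.adjugate i)) ∈ H := by
  set c : ι → ℤ := F.adjugate *ᵥ x with hc
  set d : ℤ := F.det with hd
  set g : ι → ι → ℤ := fun i => F.adjugate i with hg
  set f : ι → ι → ℤ := fun j k => F k j with hf
  have hcx : ∀ i, g i ⬝ᵥ x = c i := fun i => rfl
  have hgf : ∀ i j, g i ⬝ᵥ f j = if i = j then d else 0 := fun i j => adj_dot_col F i j
  set ψ : ι → ℤ := c i • g j - c j • g i with hψ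
  have hψx : ψ ⬝ᵥ x = 0 := by
    rw [hψ, sub_dotProduct, smul_dotProduct, smul_dotProduct, hcx, hcx]
    simp only [smul_eq_mul]; ring
  refine ⟨hψx, ?_⟩
  by_cases hij : i = j
  · have : ψ = 0 := by rw [hψ, hij, sub_self]
    rw [this, smul_zero, tv_zero_right]
    exact Subgroup.one_mem _
  obtain ⟨k, hk⟩ : ∃ k : ι, k ∉ ({i, j} : Finset ι) := by
    by_contra hcon
    push Not at hcon
    have : Fintype.card ι ≤ ({i, j} : Finset ι).card := by
      rw [← Finset.card_univ]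
      exact Finset.card_le_card (fun x _ => hcon x)
    have := this.trans (Finset.card_le_two)
    omega
  simp only [Finset.mem_insert, Finset.mem_singleton, not_or] at hk
  have hψf : ∀ l, l ≠ i → l ≠ j → ψ ⬝ᵥ f l = 0 := by
    intro l hli hlj
    rw [hψ, sub_dotProduct, smul_dotProduct, smul_dotProduct, hgf, hgf, if_neg (Ne.symm hlj),
      if_neg (Ne.symm hli)]
    simp
  set e' : ι → ℤ := c i • f i + c j • f j with he'
  have hψe' : ψ ⬝ᵥ e' = 0 := by
    rw [hψ, he']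
    simp only [sub_dotProduct, smul_dotProduct, dotProduct_add, dotProduct_smul, hgf, if_true,
      if_neg hij, if_neg (Ne.symm hij), smul_eq_mul]
    ring
  -- rewrite the element
  have e1 : (m ^ 2 * d ^ 2) • ψ = d • ((m ^ 2 * d) • ψ) := by
    rw [smul_smul]; congr 1; ring
  rw [e1, ← tv_smul_comm (by rw [smul_dotProduct, hψx, smul_zero]), ← sum_adj_col F x]
  have e2 : ∑ k, (F.adjugate *ᵥ x) k • (fun j => F j k)
      = e' + ∑ l ∈ (Finset.univ.erase i).erase j, c l • f l := by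
    rw [← Finset.add_sum_erase _ _ (Finset.mem_univ i),
      ← Finset.add_sum_erase _ _ (Finset.mem_erase.mpr ⟨Ne.symm hij, Finset.mem_univ j⟩), he',
      add_assoc]
  rw [e2]
  have hright := tv_fsum_left ((Finset.univ.erase i).erase j) (fun l => c l • f l)
    ((m ^ 2 * d) • ψ) H (by
      intro l hl
      rw [Finset.mem_erase, Finset.mem_erase] at hl
      have h1 := hψf l hl.2.1 hl.1
      refine ⟨by rw [smul_dotProduct, dotProduct_smul, h1]; simp, ?_⟩
      rw [tv_smul_comm (by rw [smul_dotProduct, h1, smul_zero])]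
      have e3 : c l • ((m ^ 2 * d) • ψ) = m • ((m * d * c l) • ψ) := by
        rw [smul_smul, smul_smul]; congr 1; ring
      rw [e3]
      exact hF l _ (by rw [smul_dotProduct]; simp only [hf] at h1; rw [h1, smul_zero]))
  rw [tv_add_left (by rw [smul_dotProduct, hψe', smul_zero]) hright.1]
  apply Subgroup.mul_mem _ _ hright.2
  -- the commutator
  have hα : (m • g k) ⬝ᵥ e' = 0 := by
    rw [he']
    simp only [smul_dotProduct, dotProduct_add, dotProduct_smul, hgf, if_neg hk.1, if_neg hk.2,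
      smul_eq_mul, mul_zero, add_zero]
  have hβ : (m • ψ) ⬝ᵥ f k = 0 := by rw [smul_dotProduct, hψf k hk.1 hk.2, smul_zero]
  have hβ' : (m • ψ) ⬝ᵥ e' = 0 := by rw [smul_dotProduct, hψe', smul_zero]
  have hcomm := tv_commutator hα hβ hβ'
  have e4 : ((m • g k) ⬝ᵥ f k) • (m • ψ) = (m ^ 2 * d) • ψ := by
    rw [smul_dotProduct, hgf, if_pos rfl, smul_smul]; congr 1; simp only [smul_eq_mul]; ring
  rw [← e4, ← hcomm]
  have hA : tv e' (m • g k) ∈ H := by
    have h1 : (m • g k) ⬝ᵥ (c i • f i) = 0 := by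
      simp only [smul_dotProduct, dotProduct_smul, hgf, if_neg hk.1, smul_eq_mul, mul_zero]
    have h2 : (m • g k) ⬝ᵥ (c j • f j) = 0 := by
      simp only [smul_dotProduct, dotProduct_smul, hgf, if_neg hk.2, smul_eq_mul, mul_zero]
    have h1' : (m • g k) ⬝ᵥ (f i) = 0 := by
      simp only [smul_dotProduct, hgf, if_neg hk.1, smul_eq_mul, mul_zero]
    have h2' : (m • g k) ⬝ᵥ (f j) = 0 := by
      simp only [smul_dotProduct, hgf, if_neg hk.2, smul_eq_mul, mul_zero]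
    rw [he', tv_add_left h1 h2, tv_smul_comm h1', tv_smul_comm h2']
    apply Subgroup.mul_mem
    · apply tv_smul_mem h1'
      exact hF i _ (by have := hgf k i; rw [if_neg hk.1] at this; exact this)
    · apply tv_smul_mem h2'
      exact hF j _ (by have := hgf k j; rw [if_neg hk.2] at this; exact this)
  have hB : tv (f k) (m • ψ) ∈ H := hF k ψ (hψf k hk.1 hk.2)
  exact Subgroup.mul_mem _ (Subgroup.mul_mem _ (Subgroup.mul_mem _ hA hB) (Subgroup.inv_mem _ hA))
    (Subgroup.inv_mem _ hB)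

theorem primitive_part (x : ι → ℤ) (hx : x ≠ 0) :
    ∃ (k : ℤ) (x0 u : ι → ℤ), k ≠ 0 ∧ x = k • x0 ∧ u ⬝ᵥ x0 = 1 := by
  obtain ⟨k, hk⟩ : (Ideal.span (Set.range x)).IsPrincipal := IsPrincipalIdealRing.principal _
  have hk' : Ideal.span (Set.range x) = Ideal.span {k} := hk
  have h1 : ∀ i, k ∣ x i := by
    intro i
    rw [← Ideal.mem_span_singleton, ← hk']
    exact Ideal.subset_span ⟨i, rfl⟩
  have hk0 : k ≠ 0 := by
    rintro rfl
    apply hx
    ext i
    exact zero_dvd_iff.mp (h1 i)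
  choose x0 hx0 using h1
  have h2 : k ∈ Ideal.span (Set.range x) := by rw [hk']; exact Ideal.mem_span_singleton_self k
  obtain ⟨u, hu⟩ := Ideal.mem_span_range_iff_exists_fun.mp h2
  refine ⟨k, x0, u, hk0, ?_, ?_⟩
  · ext i; simp [hx0 i]
  · have h3 : k * (u ⬝ᵥ x0) = k * 1 := by
      rw [mul_one]
      conv_rhs => rw [← hu]
      unfold dotProduct
      rw [Finset.mul_sum]
      apply Finset.sum_congr rfl
      intro i _
      rw [hx0 i]; ring
    exact mul_left_cancel₀ hk0 h3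

omit [DecidableEq ι] in
theorem sum_identity (K : ℤ) (A C : ι → ℤ) (B D : ι → ι → ℤ) :
    ∑ i, ∑ j, K • (A i • B j - C j • D i)
      = K • ((∑ i, A i) • (∑ j, B j) - (∑ j, C j) • ∑ i, D i) := by
  simp_rw [smul_sub, Finset.sum_sub_distrib]
  congr 1
  · rw [Finset.sum_smul, Finset.smul_sum]
    apply Finset.sum_congr rfl
    intro i _
    rw [Finset.smul_sum, Finset.smul_sum]
  · rw [Finset.sum_comm, Finset.sum_smul, Finset.smul_sum]
    apply Finset.sum_congr rfl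
    intro i _
    rw [Finset.smul_sum, Finset.smul_sum]

theorem NQ_le_of_basis (hcard : 3 ≤ Fintype.card ι) (H : Subgroup (SpecialLinearGroup ι ℤ)) (m : ℤ)
    (hF : ∀ (i : ι) (φ : ι → ℤ), φ ⬝ᵥ (fun k => F k i) = 0 → tv (fun k => F k i) (m • φ) ∈ H) :
    NQ ι (m ^ 2 * F.det ^ 4) ≤ H := by
  unfold NQ
  rw [Subgroup.closure_le]
  rintro g ⟨y, φ, hφ, rfl⟩
  show tv y ((m ^ 2 * F.det ^ 4) • φ) ∈ H
  by_cases hy : y = 0
  · rw [hy, tv_zero_left]; exact Subgroup.one_mem _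
  obtain ⟨k, x, u, hk0, rfl, hux⟩ := primitive_part y hy
  have hφx : φ ⬝ᵥ x = 0 := by
    rw [dotProduct_smul, smul_eq_mul] at hφ
    rcases mul_eq_zero.mp hφ with h | h
    · exact absurd h hk0
    · exact h
  rw [tv_smul_comm (by rw [smul_dotProduct, hφx, smul_zero])]
  apply tv_smul_mem (by rw [smul_dotProduct, hφx, smul_zero])
  set d : ℤ := F.det with hd
  set c : ι → ℤ := F.adjugate *ᵥ x with hc
  -- identity
  have key : ∑ p : ι × ι, ((u ⬝ᵥ (fun k => F k p.1)) * (φ ⬝ᵥ (fun k => F k p.2))) •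
      ((m ^ 2 * d ^ 2) • (c p.1 • F.adjugate p.2 - c p.2 • F.adjugate p.1))
      = (m ^ 2 * d ^ 4) • φ := by
    have hc1 : ∀ θ : ι → ℤ, ∑ i, (θ ⬝ᵥ (fun k => F k i)) * c i = d * (θ ⬝ᵥ x) := by
      intro θ
      have h := congrArg (fun w => θ ⬝ᵥ w) (sum_adj_col F x)
      simp only [dotProduct_sum, dotProduct_smul, smul_eq_mul] at h
      rw [← h]
      apply Finset.sum_congr rfl
      intro i _; ring
    have h1 := sum_dot_adj F φ
    have h2 := sum_dot_adj F u
    rw [Fintype.sum_prod_type]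
    have h3 : ∀ i j : ι, ((u ⬝ᵥ (fun k => F k i)) * (φ ⬝ᵥ (fun k => F k j))) •
      ((m ^ 2 * d ^ 2) • (c i • F.adjugate j - c j • F.adjugate i))
      = (m ^ 2 * d ^ 2) • (((u ⬝ᵥ (fun k => F k i)) * c i) • ((φ ⬝ᵥ (fun k => F k j)) • F.adjugate j)
        - ((φ ⬝ᵥ (fun k => F k j)) * c j) • ((u ⬝ᵥ (fun k => F k i)) • F.adjugate i)) := by
      intro i j
      ext l
      simp only [Pi.smul_apply, Pi.sub_apply, smul_eq_mul]
      ring
    simp_rw [h3]
    rw [sum_identity (m ^ 2 * d ^ 2) (fun i => (u ⬝ᵥ (fun k => F k i)) * c i)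
      (fun j => (φ ⬝ᵥ (fun k => F k j)) * c j)
      (fun j => (φ ⬝ᵥ (fun k => F k j)) • F.adjugate j)
      (fun i => (u ⬝ᵥ (fun k => F k i)) • F.adjugate i), h1, hc1 u, hux, hc1 φ, hφx]
    simp only [mul_one, mul_zero, zero_smul, sub_zero]
    rw [smul_smul, smul_smul]
    congr 1
    ring
  rw [← key]
  refine (tv_fsum_right Finset.univ x _ H ?_).2
  intro p _
  obtain ⟨h1, h2⟩ := basis_psi F hcard H m hF x p.1 p.2
  have h1' : ((m ^ 2 * d ^ 2) • (c p.1 • F.adjugate p.2 - c p.2 • F.adjugate p.1)) ⬝ᵥ x = 0 := by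
    rw [smul_dotProduct, h1, smul_zero]
  exact ⟨by rw [smul_dotProduct, h1', smul_zero], tv_smul_mem h1' h2 _⟩

end

end Pool.Agent.H48SL
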