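import Pool.Agent.helper48.SLn.Basic

/-!
`SL(ι, ℤ)` is generated by elementary transvections.
-/

namespace Pool.Agent.H48SL

open Matrix

variable {ι : Type*} [Fintype ι] [DecidableEq ι]

/-- elementary transvection -/
noncomputable def xe (i j : ι) (c : ℤ) : SpecialLinearGroup ι ℤ := tv (Pi.single i 1) (Pi.single j c)

theorem single_dot {i j : ι} (h : i ≠ j) (c : ℤ) :
    (Pi.single j c : ι → ℤ) ⬝ᵥ (Pi.single i 1) = 0 := by
  simp [h]

theorem xe_mulVec {i j : ι} (h : i ≠ j) (c : ℤ) (v : ι → ℤ) :
    ((xe i j c : SpecialLinearGroup ι ℤ) : Matrix ι ι ℤ) *ᵥ v = v + (c * v j) • Pi.single i 1 := by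
  unfold xe
  rw [tv_mulVec (single_dot h c)]
  simp

/-- subgroup generated by elementary transvections with indices in `S` -/
def ES (S : Finset ι) : Subgroup (SpecialLinearGroup ι ℤ) :=
  Subgroup.closure {g | ∃ i ∈ S, ∃ j ∈ S, i ≠ j ∧ ∃ c : ℤ, g = xe i j c}

theorem xe_mem_ES {S : Finset ι} {i j : ι} (hi : i ∈ S) (hj : j ∈ S) (h : i ≠ j) (c : ℤ) :
    xe i j c ∈ ES S := Subgroup.subset_closure ⟨i, hi, j, hj, h, c, rfl⟩

theorem ES_fix {S : Finset ι} {a : SpecialLinearGroup ι ℤ} (ha : a ∈ ES S) {j : ι} (hj : j ∉ S) :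
    (a : Matrix ι ι ℤ) *ᵥ (Pi.single j 1) = Pi.single j 1 := by
  induction ha using Subgroup.closure_induction with
  | mem g hg =>
    obtain ⟨i, hi, k, hk, hik, c, rfl⟩ := hg
    rw [xe_mulVec hik]
    have : k ≠ j := fun h => hj (h ▸ hk)
    simp [this]
  | one => rw [Matrix.SpecialLinearGroup.coe_one, one_mulVec]
  | mul a b _ _ iha ihb =>
    rw [Matrix.SpecialLinearGroup.coe_mul, ← mulVec_mulVec, ihb, iha]
  | inv a _ iha =>
    have h := congrArg (fun w => ((a⁻¹ : SpecialLinearGroup ι ℤ) : Matrix ι ι ℤ) *ᵥ w) iha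
    simp only at h
    rw [mulVec_mulVec, ← Matrix.SpecialLinearGroup.coe_mul, inv_mul_cancel,
      Matrix.SpecialLinearGroup.coe_one, one_mulVec] at h
    exact h.symm

theorem euclid (S : Finset ι) (k : ι) (hk : k ∈ S) (hS : 2 ≤ S.card) :
    ∀ (m : ℕ) (v : ι → ℤ), ∑ i ∈ S, (v i).natAbs = m → (∀ d : ℤ, (∀ i ∈ S, d ∣ v i) → IsUnit d) →
    ∃ a ∈ ES S, ∀ i ∈ S, ((a : Matrix ι ι ℤ) *ᵥ v) i = if i = k then 1 else 0 := by
  intro m
  induction m using Nat.strong_induction_on with
  | _ m IH =>
    intro v hm hv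
    by_cases hex : ∃ i ∈ S, ∃ j ∈ S, i ≠ j ∧ v i ≠ 0 ∧ v j ≠ 0 ∧ (v j).natAbs ≤ (v i).natAbs
    · obtain ⟨i, hi, j, hj, hij, hvi, hvj, hle⟩ := hex
      -- choose the sign
      obtain ⟨c, hc⟩ : ∃ c : ℤ, (v i + c * v j).natAbs < (v i).natAbs := by
        rcases lt_or_gt_of_ne hvi with h1 | h1 <;> rcases lt_or_gt_of_ne hvj with h2 | h2
        · exact ⟨-1, by omega⟩
        · exact ⟨1, by omega⟩
        · exact ⟨1, by omega⟩
        · exact ⟨-1, by omega⟩
      set v' : ι → ℤ := ((xe i j c : SpecialLinearGroup ι ℤ) : Matrix ι ι ℤ) *ᵥ v with hv'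
      have hv'i : v' i = v i + c * v j := by
        rw [hv', xe_mulVec hij]; simp
      have hv'l : ∀ l, l ≠ i → v' l = v l := by
        intro l hl
        rw [hv', xe_mulVec hij]; simp [hl]
      have hlt : ∑ l ∈ S, (v' l).natAbs < m := by
        rw [← hm]
        apply Finset.sum_lt_sum
        · intro l hl
          by_cases h : l = i
          · subst h; rw [hv'i]; exact hc.le
          · rw [hv'l l h]
        · exact ⟨i, hi, by rw [hv'i]; exact hc⟩
      obtain ⟨a, ha, hfin⟩ := IH _ hlt v' rfl (by
        intro d hd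
        apply hv d
        intro l hl
        by_cases h : l = i
        · subst h
          have h1 := hd l hl
          rw [hv'i] at h1
          have h2 := hd j hj
          rw [hv'l j (Ne.symm hij)] at h2
          have h3 := dvd_sub h1 (Dvd.dvd.mul_left h2 c)
          simpa using h3
        · have h1 := hd l hl
          rwa [hv'l l h] at h1)
      refine ⟨a * xe i j c, Subgroup.mul_mem _ ha (xe_mem_ES hi hj hij c), ?_⟩
      intro l hl
      rw [Matrix.SpecialLinearGroup.coe_mul, ← mulVec_mulVec]
      exact hfin l hl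
    · -- at most one nonzero entry
      have h1 : ∀ i ∈ S, ∀ j ∈ S, i ≠ j → v i = 0 ∨ v j = 0 := by
        intro i hi j hj hij
        by_contra hcon
        push Not at hcon
        rcases le_total (v j).natAbs (v i).natAbs with h | h
        · exact hex ⟨i, hi, j, hj, hij, hcon.1, hcon.2, h⟩
        · exact hex ⟨j, hj, i, hi, hij.symm, hcon.2, hcon.1, h⟩
      have h2 : ∃ i ∈ S, v i ≠ 0 := by
        by_contra hcon
        push Not at hcon
        have := hv 0 (fun i hi => by rw [hcon i hi])
        simp at this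
      obtain ⟨i, hi, hvi⟩ := h2
      have h3 : ∀ j ∈ S, j ≠ i → v j = 0 := by
        intro j hj hji
        rcases h1 j hj i hi hji with h | h
        · exact h
        · exact absurd h hvi
      have h4 : IsUnit (v i) := by
        apply hv
        intro j hj
        by_cases h : j = i
        · rw [h]
        · rw [h3 j hj h]; exact dvd_zero _
      by_cases hik : i = k
      · subst hik
        rcases Int.isUnit_iff.mp h4 with h5 | h5
        · refine ⟨1, Subgroup.one_mem _, ?_⟩
          intro l hl
          rw [Matrix.SpecialLinearGroup.coe_one, one_mulVec]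
          by_cases h : l = i
          · subst h; simp [h5]
          · simp [h, h3 l hl h]
        · obtain ⟨j, hj, hji⟩ : ∃ j ∈ S, j ≠ i := by
            have : 1 < S.card := by omega
            obtain ⟨a, ha, b, hb, hab⟩ := Finset.one_lt_card.mp this
            by_cases h : a = i
            · exact ⟨b, hb, fun hb' => hab (h.trans hb'.symm)⟩
            · exact ⟨a, ha, h⟩
          refine ⟨xe j i (-1) * (xe i j 2 * xe j i (-1)), Subgroup.mul_mem _ (xe_mem_ES hj hi hji _)
            (Subgroup.mul_mem _ (xe_mem_ES hi hj hji.symm _) (xe_mem_ES hj hi hji _)), ?_⟩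
          intro l hl
          rw [Matrix.SpecialLinearGroup.coe_mul, Matrix.SpecialLinearGroup.coe_mul, ← mulVec_mulVec,
            ← mulVec_mulVec, xe_mulVec hji, xe_mulVec hji.symm, xe_mulVec hji]
          by_cases hl1 : l = i
          · subst hl1
            simp [h5, h3 j hj hji, hji, hji.symm]
          · by_cases hl2 : l = j
            · subst hl2
              simp [h5, h3 l hj hji, hji, hji.symm]
            · simp [h5, h3 j hj hji, h3 l hl hl1, hji, hji.symm, hl1, hl2]
      · have hki : k ≠ i := fun h => hik h.symm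
        have h5 : v i * v i = 1 := by
          rcases Int.isUnit_iff.mp h4 with h5 | h5 <;> rw [h5] <;> norm_num
        refine ⟨xe i k (-(v i)) * xe k i (v i), Subgroup.mul_mem _ (xe_mem_ES hi hk hik _)
          (xe_mem_ES hk hi hki _), ?_⟩
        intro l hl
        rw [Matrix.SpecialLinearGroup.coe_mul, ← mulVec_mulVec, xe_mulVec hik, xe_mulVec hki]
        by_cases hl1 : l = i
        · subst hl1
          simp [h3 k hk hki, hki, hik, h5]
        · by_cases hl2 : l = k
          · subst hl2
            simp [h3 l hk hki, hik, h5, hl1]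
          · simp [h3 k hk hki, h3 l hl hl1, hki, hik, hl1, hl2]

theorem tv_sum_left (s : Finset ι) (x φ : ι → ℤ) (h : ∀ i ∈ s, x i * φ i = 0)
    (K : Subgroup (SpecialLinearGroup ι ℤ))
    (hK : ∀ i ∈ s, tv (Pi.single i (x i)) φ ∈ K) :
    φ ⬝ᵥ (∑ i ∈ s, Pi.single i (x i)) = 0 ∧ tv (∑ i ∈ s, Pi.single i (x i)) φ ∈ K := by
  induction s using Finset.induction_on with
  | empty => simp [tv_zero_left, Subgroup.one_mem]
  | insert a s ha ih =>
    rw [Finset.sum_insert ha]
    obtain ⟨h1, h2⟩ := ih (fun i hi => h i (Finset.mem_insert_of_mem hi))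
      (fun i hi => hK i (Finset.mem_insert_of_mem hi))
    have h3 : φ ⬝ᵥ (Pi.single a (x a)) = 0 := by
      rw [dotProduct_single, mul_comm]; exact h a (Finset.mem_insert_self _ _)
    refine ⟨by rw [dotProduct_add, h1, h3, add_zero], ?_⟩
    rw [tv_add_left h3 h1]
    exact Subgroup.mul_mem _ (hK a (Finset.mem_insert_self _ _)) h2

theorem tv_sum_right (s : Finset ι) (x φ : ι → ℤ) (h : ∀ i ∈ s, φ i * x i = 0)
    (K : Subgroup (SpecialLinearGroup ι ℤ))
    (hK : ∀ i ∈ s, tv x (Pi.single i (φ i)) ∈ K) :
    (∑ i ∈ s, Pi.single i (φ i)) ⬝ᵥ x = 0 ∧ tv x (∑ i ∈ s, Pi.single i (φ i)) ∈ K := by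
  induction s using Finset.induction_on with
  | empty => simp [tv_zero_right, Subgroup.one_mem]
  | insert a s ha ih =>
    rw [Finset.sum_insert ha]
    obtain ⟨h1, h2⟩ := ih (fun i hi => h i (Finset.mem_insert_of_mem hi))
      (fun i hi => hK i (Finset.mem_insert_of_mem hi))
    have h3 : (Pi.single a (φ a)) ⬝ᵥ x = 0 := by
      rw [single_dotProduct]; exact h a (Finset.mem_insert_self _ _)
    refine ⟨by rw [add_dotProduct, h1, h3, add_zero], ?_⟩
    rw [tv_add_right h3 h1]
    exact Subgroup.mul_mem _ (hK a (Finset.mem_insert_self _ _)) h2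

theorem tv_left_mem (x φ : ι → ℤ) (h : ∀ i, x i * φ i = 0)
    (K : Subgroup (SpecialLinearGroup ι ℤ)) (hK : ∀ i, tv (Pi.single i (x i)) φ ∈ K) :
    tv x φ ∈ K := by
  have := (tv_sum_left Finset.univ x φ (fun i _ => h i) K (fun i _ => hK i)).2
  rwa [Finset.univ_sum_single] at this

theorem tv_right_mem (x φ : ι → ℤ) (h : ∀ i, φ i * x i = 0)
    (K : Subgroup (SpecialLinearGroup ι ℤ)) (hK : ∀ i, tv x (Pi.single i (φ i)) ∈ K) :
    tv x φ ∈ K := by
  have := (tv_sum_right Finset.univ x φ (fun i _ => h i) K (fun i _ => hK i)).2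
  rwa [Finset.univ_sum_single] at this

theorem tv_single_single {i j : ι} (h : i ≠ j) (a b : ℤ) :
    tv (Pi.single i a) (Pi.single j b) = xe i j (a * b) := by
  unfold xe
  have h1 : (Pi.single i a : ι → ℤ) = a • Pi.single i 1 := by
    ext l; by_cases hl : l = i
    · subst hl; simp
    · simp [hl]
  have h2 : (Pi.single j (a * b) : ι → ℤ) = a • Pi.single j b := by
    ext l; by_cases hl : l = j
    · subst hl; simp
    · simp [hl]
  rw [h1, h2, tv_smul_comm (single_dot h b)]

theorem ES_mono {S T : Finset ι} (h : S ⊆ T) : ES S ≤ ES T := by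
  apply Subgroup.closure_mono
  rintro g ⟨i, hi, j, hj, hij, c, rfl⟩
  exact ⟨i, h hi, j, h hj, hij, c, rfl⟩

theorem gen_aux : ∀ (m : ℕ) (S : Finset ι), S.card = m → ∀ γ : SpecialLinearGroup ι ℤ,
    (∀ j, j ∉ S → (γ : Matrix ι ι ℤ) *ᵥ (Pi.single j 1) = Pi.single j 1) → γ ∈ ES (Finset.univ : Finset ι) := by
  intro m
  induction m with
  | zero =>
    intro S hS γ hγ
    rw [Finset.card_eq_zero] at hS
    subst hS
    have : γ = 1 := by
      apply SL_ext
      rw [Matrix.SpecialLinearGroup.coe_one]
      ext i j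
      have := congrFun (hγ j (by simp)) i
      rw [mulVec_single_one] at this
      simpa [Matrix.one_apply, Pi.single_apply] using this
    rw [this]; exact Subgroup.one_mem _
  | succ m ih =>
    intro S hS γ hγ
    obtain ⟨k, hk⟩ : S.Nonempty := by
      rw [← Finset.card_pos]; omega
    set v : ι → ℤ := (γ : Matrix ι ι ℤ) *ᵥ (Pi.single k 1) with hv
    -- finish: from an element fixing e_j (j ∉ S) with column k being e_k on S
    have fin : ∀ δ : SpecialLinearGroup ι ℤ,
        (∀ j, j ∉ S → (δ : Matrix ι ι ℤ) *ᵥ (Pi.single j 1) = Pi.single j 1) →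
        (∀ i ∈ S, ((δ : Matrix ι ι ℤ) *ᵥ (Pi.single k 1)) i = if i = k then 1 else 0) →
        δ ∈ ES (Finset.univ : Finset ι) := by
      intro δ hδ hδk
      set w : ι → ℤ := (δ : Matrix ι ι ℤ) *ᵥ (Pi.single k 1) with hw
      have hwk : w k = 1 := by have := hδk k hk; simpa using this
      set x : ι → ℤ := w - Pi.single k 1 with hx
      have hxk : x k = 0 := by simp [hx, hwk]
      have hxd : (Pi.single k (-1) : ι → ℤ) ⬝ᵥ x = 0 := by simp [hxk]
      have hmem : tv x (Pi.single k (-1)) ∈ ES (Finset.univ : Finset ι) := by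
        apply tv_left_mem
        · intro i
          by_cases hi : i = k
          · subst hi; simp [hxk]
          · simp [hi]
        · intro i
          by_cases hi : i = k
          · subst hi; rw [hxk]; simp [tv_zero_left, Subgroup.one_mem]
          · rw [tv_single_single hi]
            exact xe_mem_ES (Finset.mem_univ _) (Finset.mem_univ _) hi _
      have h1 : tv x (Pi.single k (-1)) * δ ∈ ES (Finset.univ : Finset ι) := by
        apply ih (S.erase k) (by rw [Finset.card_erase_of_mem hk, hS]; rfl)
        intro j hj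
        rw [Matrix.SpecialLinearGroup.coe_mul, ← mulVec_mulVec]
        by_cases hjk : j = k
        · subst hjk
          rw [← hw, tv_mulVec hxd]
          ext l
          simp [hwk, hx]
        · have hjS : j ∉ S := fun h => hj (Finset.mem_erase.mpr ⟨hjk, h⟩)
          rw [hδ j hjS, tv_mulVec hxd]
          have : (Pi.single k (-1) : ι → ℤ) ⬝ᵥ Pi.single j 1 = 0 := by
            simp [Ne.symm hjk, hjk]
          rw [this]; simp
      have := Subgroup.mul_mem _ (Subgroup.inv_mem _ hmem) h1
      rwa [inv_mul_cancel_left] at this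
    by_cases hcard : 2 ≤ S.card
    · -- unimodularity
      have hun : ∀ d : ℤ, (∀ i ∈ S, d ∣ v i) → IsUnit d := by
        intro d hd
        set ρ : ι → ℤ := (Pi.single k 1) ᵥ* ((γ⁻¹ : SpecialLinearGroup ι ℤ) : Matrix ι ι ℤ) with hρ
        have h1 : ρ ⬝ᵥ v = 1 := by
          rw [hρ, hv, vecMul_inv_dot]; simp
        have h2 : ∀ j, j ∉ S → ρ j = 0 := by
          intro j hj
          have h3 : ρ ⬝ᵥ (Pi.single j 1) = 0 := by
            have hjk : j ≠ k := fun h => hj (h ▸ hk)
            rw [← hγ j hj, hρ, vecMul_inv_dot]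
            simp [hjk, Ne.symm hjk]
          simpa using h3
        apply isUnit_of_dvd_one
        rw [← h1]
        unfold dotProduct
        apply Finset.dvd_sum
        intro i _
        by_cases hi : i ∈ S
        · exact Dvd.dvd.mul_left (hd i hi) _
        · rw [h2 i hi]; simp
      obtain ⟨a, ha, hfin⟩ := euclid S k hk hcard _ v rfl hun
      have h1 : a * γ ∈ ES (Finset.univ : Finset ι) := by
        apply fin
        · intro j hj
          rw [Matrix.SpecialLinearGroup.coe_mul, ← mulVec_mulVec, hγ j hj, ES_fix ha hj]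
        · intro i hi
          rw [Matrix.SpecialLinearGroup.coe_mul, ← mulVec_mulVec]
          exact hfin i hi
      have ha' : a ∈ ES (Finset.univ : Finset ι) := ES_mono (Finset.subset_univ S) ha
      have := Subgroup.mul_mem _ (Subgroup.inv_mem _ ha') h1
      rwa [inv_mul_cancel_left] at this
    · -- S = {k}
      have hS1 : S = {k} := by
        have : S.card = 1 := by
          have := Finset.card_pos.mpr ⟨k, hk⟩
          omega
        obtain ⟨a, rfl⟩ := Finset.card_eq_one.mp this
        simp at hk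
        rw [hk]
      have hmat : (γ : Matrix ι ι ℤ) = 1 + vecMulVec (v - Pi.single k 1) (Pi.single k 1) := by
        ext i j
        by_cases hj : j = k
        · subst hj
          have : v i = (γ : Matrix ι ι ℤ) i j := by rw [hv, mulVec_single_one]; rfl
          simp [vecMulVec_apply, ← this, Matrix.one_apply, Pi.single_apply]
        · have := congrFun (hγ j (by rw [hS1]; simpa using hj)) i
          rw [mulVec_single_one] at this
          simp only [col_apply] at this
          rw [this]
          simp [vecMulVec_apply, Matrix.one_apply, Pi.single_apply, hj]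
      have hdet := γ.2
      rw [hmat, det_one_add_vecMulVec] at hdet
      have hvk : v k = 1 := by
        simp at hdet
        linarith
      apply fin γ hγ
      intro i hi
      rw [hS1] at hi
      simp at hi
      subst hi
      rw [← hv, hvk]; simp

theorem ES_univ : ES (Finset.univ : Finset ι) = ⊤ := by
  rw [eq_top_iff]
  intro γ _
  exact gen_aux _ Finset.univ rfl γ (fun j hj => absurd (Finset.mem_univ j) hj)

end Pool.Agent.H48SL
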