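import Pool.Agent.helper48.SLn.Basis

/-!
Zariski dense subgroups of `SL(ι, ℤ)`.
-/

namespace Pool.Agent.H48SL

open Matrix

variable {ι : Type*} [Fintype ι] [DecidableEq ι]

/-- `H` is Zariski dense in `SL(ι)`: every integer polynomial in the matrix entries which vanishes
on `H` vanishes on `SL(ι, ℤ)`. -/
def ZDense (H : Subgroup (SpecialLinearGroup ι ℤ)) : Prop :=
  ∀ P : MvPolynomial (ι × ι) ℤ,
    (∀ h ∈ H, MvPolynomial.eval (fun x : ι × ι => (h : Matrix ι ι ℤ) x.1 x.2) P = 0) →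
    ∀ g : SpecialLinearGroup ι ℤ, MvPolynomial.eval (fun x : ι × ι => (g : Matrix ι ι ℤ) x.1 x.2) P = 0

/-- `F` is a polynomial function on `SL(ι, ℤ)`. -/
def IsPoly (F : SpecialLinearGroup ι ℤ → ℤ) : Prop :=
  ∃ P : MvPolynomial (ι × ι) ℤ,
    ∀ g, F g = MvPolynomial.eval (fun x : ι × ι => (g : Matrix ι ι ℤ) x.1 x.2) P

theorem IsPoly.const (c : ℤ) : IsPoly (fun _ : SpecialLinearGroup ι ℤ => c) :=
  ⟨MvPolynomial.C c, fun g => by simp⟩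

theorem IsPoly.add {F G : SpecialLinearGroup ι ℤ → ℤ} (hF : IsPoly F) (hG : IsPoly G) :
    IsPoly (fun g => F g + G g) := by
  obtain ⟨P, hP⟩ := hF
  obtain ⟨Q, hQ⟩ := hG
  exact ⟨P + Q, fun g => by beta_reduce; rw [hP, hQ, map_add]⟩

theorem IsPoly.mul {F G : SpecialLinearGroup ι ℤ → ℤ} (hF : IsPoly F) (hG : IsPoly G) :
    IsPoly (fun g => F g * G g) := by
  obtain ⟨P, hP⟩ := hF
  obtain ⟨Q, hQ⟩ := hG
  exact ⟨P * Q, fun g => by beta_reduce; rw [hP, hQ, map_mul]⟩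

theorem IsPoly.sum {κ : Type*} (s : Finset κ) (F : κ → SpecialLinearGroup ι ℤ → ℤ)
    (hF : ∀ k ∈ s, IsPoly (F k)) : IsPoly (fun g => ∑ k ∈ s, F k g) := by
  classical
  induction s using Finset.induction_on with
  | empty => simpa using IsPoly.const 0
  | insert a s ha ih =>
    have h1 := (hF a (Finset.mem_insert_self a s)).add (ih fun k hk => hF k (Finset.mem_insert_of_mem hk))
    simpa [Finset.sum_insert ha] using h1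

theorem IsPoly.smul {F : SpecialLinearGroup ι ℤ → ℤ} (hF : IsPoly F) (c : ℤ) :
    IsPoly (fun g => c * F g) := (IsPoly.const c).mul hF

theorem IsPoly.neg {F : SpecialLinearGroup ι ℤ → ℤ} (hF : IsPoly F) :
    IsPoly (fun g => - F g) := by
  have := hF.smul (-1)
  simpa using this

theorem IsPoly.sub {F G : SpecialLinearGroup ι ℤ → ℤ} (hF : IsPoly F) (hG : IsPoly G) :
    IsPoly (fun g => F g - G g) := by
  have := hF.add hG.neg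
  simpa [sub_eq_add_neg] using this

theorem IsPoly.entry (i j : ι) : IsPoly (fun g : SpecialLinearGroup ι ℤ => (g : Matrix ι ι ℤ) i j) :=
  ⟨MvPolynomial.X (i, j), fun g => by simp⟩

theorem IsPoly.entry_inv (i j : ι) :
    IsPoly (fun g : SpecialLinearGroup ι ℤ => ((g⁻¹ : SpecialLinearGroup ι ℤ) : Matrix ι ι ℤ) i j) := by
  refine ⟨(Matrix.mvPolynomialX ι ι ℤ).adjugate i j, fun g => ?_⟩
  beta_reduce
  rw [Matrix.SpecialLinearGroup.coe_inv]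
  have h1 : ((MvPolynomial.eval (fun x : ι × ι => (g : Matrix ι ι ℤ) x.1 x.2)).mapMatrix
      (Matrix.mvPolynomialX ι ι ℤ)) = (g : Matrix ι ι ℤ) := by
    ext a b
    simp [Matrix.mvPolynomialX]
  have h2 := RingHom.map_adjugate (MvPolynomial.eval (fun x : ι × ι => (g : Matrix ι ι ℤ) x.1 x.2))
    (Matrix.mvPolynomialX ι ι ℤ)
  rw [h1] at h2
  rw [← h2]
  rfl

theorem IsPoly.dot (ψ e : ι → ℤ) :
    IsPoly (fun g : SpecialLinearGroup ι ℤ => ψ ⬝ᵥ ((g : Matrix ι ι ℤ) *ᵥ e)) := by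
  simp only [dotProduct, mulVec]
  refine IsPoly.sum _ _ fun i _ => IsPoly.smul (IsPoly.sum _ _ fun j _ => ?_) _
  exact (IsPoly.entry i j).mul (IsPoly.const _)

theorem IsPoly.dot_inv (ψ e : ι → ℤ) :
    IsPoly (fun g : SpecialLinearGroup ι ℤ => ψ ⬝ᵥ (((g⁻¹ : SpecialLinearGroup ι ℤ) : Matrix ι ι ℤ) *ᵥ e)) := by
  simp only [dotProduct, mulVec]
  refine IsPoly.sum _ _ fun i _ => IsPoly.smul (IsPoly.sum _ _ fun j _ => ?_) _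
  exact (IsPoly.entry_inv i j).mul (IsPoly.const _)

theorem dense_exists {H : Subgroup (SpecialLinearGroup ι ℤ)} (hD : ZDense H)
    (F : SpecialLinearGroup ι ℤ → ℤ) (hF : IsPoly F)
    (g : SpecialLinearGroup ι ℤ) (hg : F g ≠ 0) : ∃ h ∈ H, F h ≠ 0 := by
  obtain ⟨P, hP⟩ := hF
  by_contra hcon
  push Not at hcon
  apply hg
  rw [hP]
  apply hD
  intro h hh
  rw [← hP]
  exact hcon h hh

theorem exists_ne_of_dot_zero {ψ e : ι → ℤ} (hψ : ψ ≠ 0) (he : e ≠ 0) (h0 : ψ ⬝ᵥ e = 0) :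
    ∃ i j : ι, i ≠ j ∧ ψ i ≠ 0 ∧ e j ≠ 0 := by
  obtain ⟨i, hi⟩ := Function.ne_iff.mp hψ
  by_contra hcon
  push Not at hcon
  have h1 : ∀ j, j ≠ i → e j = 0 := fun j hj => hcon i j (Ne.symm hj) hi
  have h2 : ψ ⬝ᵥ e = ψ i * e i := by
    unfold dotProduct
    rw [Finset.sum_eq_single i]
    · intro j _ hj; rw [h1 j hj, mul_zero]
    · intro h; exact absurd (Finset.mem_univ i) h
  rw [h2] at h0
  have h3 : e i = 0 := by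
    rcases mul_eq_zero.mp h0 with h | h
    · exact absurd h hi
    · exact h
  apply he
  ext j
  by_cases hj : j = i
  · rw [hj, h3]; rfl
  · rw [h1 j hj]; rfl

theorem exists_SL_dot {ψ e : ι → ℤ} (hψ : ψ ≠ 0) (he : e ≠ 0) :
    ∃ g : SpecialLinearGroup ι ℤ, ψ ⬝ᵥ ((g : Matrix ι ι ℤ) *ᵥ e) ≠ 0 := by
  by_cases h0 : ψ ⬝ᵥ e = 0
  · obtain ⟨i, j, hij, hi, hj⟩ := exists_ne_of_dot_zero hψ he h0
    refine ⟨xe i j 1, ?_⟩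
    rw [xe_mulVec hij, dotProduct_add, h0, zero_add, dotProduct_smul, dotProduct_single]
    simp [hi, hj]
  · exact ⟨1, by rw [Matrix.SpecialLinearGroup.coe_one, one_mulVec]; exact h0⟩

theorem mulVec_ne_zero (g : SpecialLinearGroup ι ℤ) {e : ι → ℤ} (he : e ≠ 0) :
    (g : Matrix ι ι ℤ) *ᵥ e ≠ 0 := by
  intro h
  apply he
  have h1 := congrArg (fun w => ((g⁻¹ : SpecialLinearGroup ι ℤ) : Matrix ι ι ℤ) *ᵥ w) h
  simp only [mulVec_zero] at h1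
  rwa [mulVec_mulVec, ← Matrix.SpecialLinearGroup.coe_mul, inv_mul_cancel,
    Matrix.SpecialLinearGroup.coe_one, one_mulVec] at h1

theorem vecMul_ne_zero (g : SpecialLinearGroup ι ℤ) {φ : ι → ℤ} (hφ : φ ≠ 0) :
    φ ᵥ* (g : Matrix ι ι ℤ) ≠ 0 := by
  intro h
  apply hφ
  have h1 := congrArg (fun w => w ᵥ* ((g⁻¹ : SpecialLinearGroup ι ℤ) : Matrix ι ι ℤ)) h
  simp only [zero_vecMul] at h1
  rwa [vecMul_vecMul, ← Matrix.SpecialLinearGroup.coe_mul, mul_inv_cancel,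
    Matrix.SpecialLinearGroup.coe_one, vecMul_one] at h1

theorem xe_inv {i j : ι} (hij : i ≠ j) (c : ℤ) : (xe i j c)⁻¹ = xe i j (-c) := by
  unfold xe
  rw [← tv_neg_right (single_dot hij c)]
  congr 1
  ext k
  by_cases hk : k = j
  · subst hk; simp
  · simp [hk]

theorem exists_SL_dot2 {ψ φ e u : ι → ℤ} (hψ : ψ ≠ 0) (hφ : φ ≠ 0) (he : e ≠ 0) (hu : u ≠ 0) :
    ∃ g : SpecialLinearGroup ι ℤ, ψ ⬝ᵥ ((g : Matrix ι ι ℤ) *ᵥ e) ≠ 0 ∧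
      φ ⬝ᵥ (((g⁻¹ : SpecialLinearGroup ι ℤ) : Matrix ι ι ℤ) *ᵥ u) ≠ 0 := by
  obtain ⟨g1, hg1⟩ := exists_SL_dot hψ he
  by_cases h0 : φ ⬝ᵥ (((g1⁻¹ : SpecialLinearGroup ι ℤ) : Matrix ι ι ℤ) *ᵥ u) = 0
  · set φ' : ι → ℤ := φ ᵥ* ((g1⁻¹ : SpecialLinearGroup ι ℤ) : Matrix ι ι ℤ) with hφ'
    have hφ'0 : φ' ≠ 0 := vecMul_ne_zero _ hφ
    have h0' : φ' ⬝ᵥ u = 0 := by rw [hφ', ← dotProduct_mulVec]; exact h0
    obtain ⟨i, j, hij, hi, hj⟩ := exists_ne_of_dot_zero hφ'0 hu h0'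
    set e' : ι → ℤ := (g1 : Matrix ι ι ℤ) *ᵥ e with he'
    obtain ⟨t, ht0, ht⟩ : ∃ t : ℤ, t ≠ 0 ∧ ψ ⬝ᵥ e' + t * (e' j * ψ i) ≠ 0 := by
      by_cases h1 : ψ ⬝ᵥ e' + 1 * (e' j * ψ i) = 0
      · refine ⟨2, by norm_num, fun h2 => hg1 ?_⟩
        linarith
      · exact ⟨1, one_ne_zero, h1⟩
    refine ⟨xe i j t * g1, ?_, ?_⟩
    · rw [Matrix.SpecialLinearGroup.coe_mul, ← mulVec_mulVec, ← he', xe_mulVec hij, dotProduct_add,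
        dotProduct_smul, dotProduct_single]
      simpa [mul_assoc] using ht
    · have h1 : (xe i j t * g1)⁻¹ = g1⁻¹ * xe i j (-t) := by
        rw [← xe_inv hij]; group
      rw [h1, Matrix.SpecialLinearGroup.coe_mul, ← mulVec_mulVec, dotProduct_mulVec, ← hφ',
        xe_mulVec hij, dotProduct_add, h0', zero_add, dotProduct_smul, dotProduct_single]
      simp [ht0, hi, hj]
  · exact ⟨g1, hg1, h0⟩

theorem exists_H_dot2 {H : Subgroup (SpecialLinearGroup ι ℤ)} (hD : ZDense H)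
    {ψ φ e u : ι → ℤ} (hψ : ψ ≠ 0) (hφ : φ ≠ 0) (he : e ≠ 0) (hu : u ≠ 0) :
    ∃ g ∈ H, ψ ⬝ᵥ ((g : Matrix ι ι ℤ) *ᵥ e) ≠ 0 ∧
      φ ⬝ᵥ (((g⁻¹ : SpecialLinearGroup ι ℤ) : Matrix ι ι ℤ) *ᵥ u) ≠ 0 := by
  obtain ⟨g, h1, h2⟩ := exists_SL_dot2 hψ hφ he hu
  obtain ⟨h, hh, hne⟩ := dense_exists hD
    (fun g => (ψ ⬝ᵥ ((g : Matrix ι ι ℤ) *ᵥ e)) *
      (φ ⬝ᵥ (((g⁻¹ : SpecialLinearGroup ι ℤ) : Matrix ι ι ℤ) *ᵥ u)))
    ((IsPoly.dot ψ e).mul (IsPoly.dot_inv φ u))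
    g (mul_ne_zero h1 h2)
  exact ⟨h, hh, left_ne_zero_of_mul hne, right_ne_zero_of_mul hne⟩

theorem conj_mem {H : Subgroup (SpecialLinearGroup ι ℤ)} {e φ : ι → ℤ} (h0 : φ ⬝ᵥ e = 0)
    (ht : tv e φ ∈ H) {g : SpecialLinearGroup ι ℤ} (hg : g ∈ H) :
    tv ((g : Matrix ι ι ℤ) *ᵥ e) (φ ᵥ* ((g⁻¹ : SpecialLinearGroup ι ℤ) : Matrix ι ι ℤ)) ∈ H := by
  rw [← tv_conj h0]
  exact Subgroup.mul_mem _ (Subgroup.mul_mem _ hg ht) (Subgroup.inv_mem _ hg)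

theorem comm_mem {H : Subgroup (SpecialLinearGroup ι ℤ)} {x α y β : ι → ℤ} (h1 : α ⬝ᵥ x = 0)
    (h2 : β ⬝ᵥ y = 0) (h3 : β ⬝ᵥ x = 0) (ha : tv x α ∈ H) (hb : tv y β ∈ H) :
    tv x ((α ⬝ᵥ y) • β) ∈ H := by
  rw [← tv_commutator h1 h2 h3]
  exact Subgroup.mul_mem _ (Subgroup.mul_mem _ (Subgroup.mul_mem _ ha hb) (Subgroup.inv_mem _ ha))
    (Subgroup.inv_mem _ hb)

theorem exists_functional {H : Subgroup (SpecialLinearGroup ι ℤ)} (hD : ZDense H)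
    {e φ1 φ2 : ι → ℤ} (he : e ≠ 0) (h1 : φ1 ⬝ᵥ e = 0) (h2 : φ2 ⬝ᵥ e = 0)
    (hind : ∀ a b : ℤ, a • φ1 + b • φ2 = 0 → a = 0 ∧ b = 0)
    (t1 : tv e φ1 ∈ H) (t2 : tv e φ2 ∈ H) (v : ι → ℤ)
    (hv : ∀ a b : ℤ, a • v + b • e = 0 → a = 0 ∧ b = 0) :
    ∃ φ : ι → ℤ, φ ⬝ᵥ e = 0 ∧ tv e φ ∈ H ∧ φ ⬝ᵥ v ≠ 0 := by
  by_cases hv1 : φ1 ⬝ᵥ v = 0
  swap
  · exact ⟨φ1, h1, t1, hv1⟩
  by_cases hv2 : φ2 ⬝ᵥ v = 0
  swap
  · exact ⟨φ2, h2, t2, hv2⟩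
  have hφ1 : φ1 ≠ 0 := by
    rintro rfl
    have := (hind 1 0 (by simp)).1
    norm_num at this
  obtain ⟨g1, hg1, hpx, hae⟩ := exists_H_dot2 hD hφ1 hφ1 he he
  set x : ι → ℤ := (g1 : Matrix ι ι ℤ) *ᵥ e with hx
  set α : ι → ℤ := φ1 ᵥ* ((g1⁻¹ : SpecialLinearGroup ι ℤ) : Matrix ι ι ℤ) with hα
  have hαx : α ⬝ᵥ x = 0 := by rw [hα, hx, vecMul_inv_dot, h1]
  have hTx : tv x α ∈ H := conj_mem h1 t1 hg1
  rw [dotProduct_mulVec, ← hα] at hae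
  set ψ : ι → ℤ := (-(φ2 ⬝ᵥ x)) • φ1 + (φ1 ⬝ᵥ x) • φ2 with hψ
  have hψ0 : ψ ≠ 0 := fun h => hpx (hind _ _ h).2
  set u : ι → ℤ := (α ⬝ᵥ e) • v + (-(α ⬝ᵥ v)) • e with hu
  have hu0 : u ≠ 0 := fun h => hae (hv _ _ h).1
  obtain ⟨g2, hg2, hψy, hbu⟩ := exists_H_dot2 hD hψ0 hφ1 he hu0
  set y : ι → ℤ := (g2 : Matrix ι ι ℤ) *ᵥ e with hy
  set β : ι → ℤ := φ1 ᵥ* ((g2⁻¹ : SpecialLinearGroup ι ℤ) : Matrix ι ι ℤ) with hβ
  have hβy : β ⬝ᵥ y = 0 := by rw [hβ, hy, vecMul_inv_dot, h1]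
  have hTy : tv y β ∈ H := conj_mem h1 t1 hg2
  rw [dotProduct_mulVec, ← hβ, hu, dotProduct_add, dotProduct_smul, dotProduct_smul, smul_eq_mul,
    smul_eq_mul] at hbu
  rw [hψ, add_dotProduct, smul_dotProduct, smul_dotProduct, smul_eq_mul, smul_eq_mul] at hψy
  -- choose k l
  obtain ⟨k, l, hk, hl, hkl⟩ : ∃ k l : ℤ, k ≠ 0 ∧ l ≠ 0 ∧
      -(k * ((α ⬝ᵥ e) * (φ1 ⬝ᵥ x))) - l * (((β ⬝ᵥ e) - k * (α ⬝ᵥ e) * (β ⬝ᵥ x)) * (φ1 ⬝ᵥ y)) ≠ 0 := by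
    have hA : (α ⬝ᵥ e) * (φ1 ⬝ᵥ x) ≠ 0 := mul_ne_zero hae hpx
    set A := (α ⬝ᵥ e) * (φ1 ⬝ᵥ x)
    set B := (β ⬝ᵥ e) * (φ1 ⬝ᵥ y) with hB
    set C := (α ⬝ᵥ e) * (β ⬝ᵥ x) * (φ1 ⬝ᵥ y) with hC
    have hform : ∀ k l : ℤ, -(k * A) - l * (((β ⬝ᵥ e) - k * (α ⬝ᵥ e) * (β ⬝ᵥ x)) * (φ1 ⬝ᵥ y))
        = k * (-A + l * C) - l * B := by
      intro k l; rw [hB, hC]; ring
    obtain ⟨l, hl, hl2⟩ : ∃ l : ℤ, l ≠ 0 ∧ -A + l * C ≠ 0 := by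
      by_cases h : -A + 1 * C = 0
      · refine ⟨2, by norm_num, fun h' => hA ?_⟩
        linarith
      · exact ⟨1, one_ne_zero, h⟩
    by_cases h : 1 * (-A + l * C) - l * B = 0
    · refine ⟨2, l, by norm_num, hl, ?_⟩
      rw [hform]
      intro h'
      apply hl2
      linarith
    · refine ⟨1, l, one_ne_zero, hl, ?_⟩
      rw [hform]; exact h
  have hkα : (k • α) ⬝ᵥ x = 0 := by rw [smul_dotProduct, hαx, smul_zero]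
  have hlβ : (l • β) ⬝ᵥ y = 0 := by rw [smul_dotProduct, hβy, smul_zero]
  set h : SpecialLinearGroup ι ℤ := tv x (k • α) * tv y (l • β) with hh
  have hhH : h ∈ H := Subgroup.mul_mem _ (tv_smul_mem hαx hTx k) (tv_smul_mem hβy hTy l)
  have hact : ∀ w : ι → ℤ, (h : Matrix ι ι ℤ) *ᵥ w
      = w + (l * (β ⬝ᵥ w)) • y + (k * (α ⬝ᵥ w + l * (β ⬝ᵥ w) * (α ⬝ᵥ y))) • x := by
    intro w
    rw [hh, Matrix.SpecialLinearGroup.coe_mul, ← mulVec_mulVec, tv_mulVec hlβ, tv_mulVec hkα]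
    have e1 : (l • β) ⬝ᵥ w = l * (β ⬝ᵥ w) := by rw [smul_dotProduct, smul_eq_mul]
    have e2 : (k • α) ⬝ᵥ (w + (l * (β ⬝ᵥ w)) • y) = k * (α ⬝ᵥ w + l * (β ⬝ᵥ w) * (α ⬝ᵥ y)) := by
      rw [smul_dotProduct, dotProduct_add, dotProduct_smul, smul_eq_mul, smul_eq_mul]
    rw [e1, e2]
  have hinv : ((h⁻¹ : SpecialLinearGroup ι ℤ) : Matrix ι ι ℤ) *ᵥ e
      = e + (-(k * (α ⬝ᵥ e))) • x + (-(l * ((β ⬝ᵥ e) - k * (α ⬝ᵥ e) * (β ⬝ᵥ x)))) • y := by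
    have h3 : h⁻¹ = tv y (-(l • β)) * tv x (-(k • α)) := by
      rw [tv_neg_right hlβ, tv_neg_right hkα, hh]; group
    have hnx : (-(k • α)) ⬝ᵥ x = 0 := by rw [neg_dotProduct, hkα, neg_zero]
    have hny : (-(l • β)) ⬝ᵥ y = 0 := by rw [neg_dotProduct, hlβ, neg_zero]
    rw [h3, Matrix.SpecialLinearGroup.coe_mul, ← mulVec_mulVec, tv_mulVec hnx, tv_mulVec hny]
    have e1 : (-(k • α)) ⬝ᵥ e = -(k * (α ⬝ᵥ e)) := by
      rw [neg_dotProduct, smul_dotProduct, smul_eq_mul]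
    have e2 : (-(l • β)) ⬝ᵥ (e + (-(k * (α ⬝ᵥ e))) • x)
        = -(l * ((β ⬝ᵥ e) - k * (α ⬝ᵥ e) * (β ⬝ᵥ x))) := by
      rw [neg_dotProduct, smul_dotProduct, dotProduct_add, dotProduct_smul, smul_eq_mul, smul_eq_mul]
      ring
    rw [e1, e2]
  set he' : ι → ℤ := (h : Matrix ι ι ℤ) *ᵥ e with hhe'
  set φh : ι → ℤ := (-(φ2 ⬝ᵥ he')) • φ1 + (φ1 ⬝ᵥ he') • φ2 with hφh
  have hφhe : φh ⬝ᵥ e = 0 := by
    rw [hφh, add_dotProduct, smul_dotProduct, smul_dotProduct, h1, h2]; simp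
  have hφhhe : φh ⬝ᵥ he' = 0 := by
    rw [hφh, add_dotProduct, smul_dotProduct, smul_dotProduct]
    simp only [smul_eq_mul]; ring
  have hTφh : tv e φh ∈ H := by
    rw [hφh, tv_add_right (by rw [smul_dotProduct, h1, smul_zero])
      (by rw [smul_dotProduct, h2, smul_zero])]
    exact Subgroup.mul_mem _ (tv_smul_mem h1 t1 _) (tv_smul_mem h2 t2 _)
  set α' : ι → ℤ := φ1 ᵥ* ((h⁻¹ : SpecialLinearGroup ι ℤ) : Matrix ι ι ℤ) with hα'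
  have hα'he : α' ⬝ᵥ he' = 0 := by rw [hα', hhe', vecMul_inv_dot, h1]
  have hTh : tv he' α' ∈ H := conj_mem h1 t1 hhH
  have hc := comm_mem hα'he hφhe hφhhe hTh hTφh
  set c : ℤ := α' ⬝ᵥ e with hcdef
  have hc0 : c ≠ 0 := by
    rw [hcdef, hα', ← dotProduct_mulVec, hinv, dotProduct_add, dotProduct_add, dotProduct_smul,
      dotProduct_smul, h1]
    simp only [smul_eq_mul, zero_add]
    intro hz
    apply hkl
    linarith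
  -- conjugate back
  have hcd : (c • φh) ⬝ᵥ he' = 0 := by rw [smul_dotProduct, hφhhe, smul_zero]
  have hback := conj_mem hcd hc (Subgroup.inv_mem _ hhH)
  rw [inv_inv] at hback
  have hhe_back : ((h⁻¹ : SpecialLinearGroup ι ℤ) : Matrix ι ι ℤ) *ᵥ he' = e := by
    rw [hhe', mulVec_mulVec, ← Matrix.SpecialLinearGroup.coe_mul, inv_mul_cancel,
      Matrix.SpecialLinearGroup.coe_one, one_mulVec]
  rw [hhe_back] at hback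
  refine ⟨_, ?_, hback, ?_⟩
  · rw [← dotProduct_mulVec]; exact hcd
  · rw [← dotProduct_mulVec, smul_dotProduct]
    apply mul_ne_zero hc0
    rw [hφh, hhe', hact e, hact v]
    simp only [add_dotProduct, smul_dotProduct, dotProduct_add, dotProduct_smul, h1, h2, hv1, hv2,
      smul_eq_mul, zero_add]
    have hfin : k * l * ((-(φ2 ⬝ᵥ x) * (φ1 ⬝ᵥ y) + (φ1 ⬝ᵥ x) * (φ2 ⬝ᵥ y)) *
        ((α ⬝ᵥ e) * (β ⬝ᵥ v) + -(α ⬝ᵥ v) * (β ⬝ᵥ e))) ≠ 0 :=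
      mul_ne_zero (mul_ne_zero hk hl) (mul_ne_zero hψy hbu)
    intro hz
    apply hfin
    rw [← hz]
    ring

end Pool.Agent.H48SL
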