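import Pool.Agent.helper48.SLn.Hyp

/-!
# Abelian subgroups of rank two with a reducible element in Zariski dense subgroups of `SL(3, ℤ)`
-/

namespace Pool.Agent.H48SL

open Matrix Polynomial

theorem aeval_three {M : Matrix (Fin 3) (Fin 3) ℤ} (hdet : M.det = 1) (h1 : (M - 1).det = 0)
    {t : ℤ} (ht : M.trace = t) (q : ℤ[X]) :
    aeval M (q * (X ^ 3 - C t * X ^ 2 + C t * X - 1)) = 0 := by
  have h := ch_three hdet h1
  rw [ht] at h
  have hp : aeval M (X ^ 3 - C t * X ^ 2 + C t * X - 1 : ℤ[X]) = 0 := by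
    rw [← h]
    simp only [map_sub, map_add, map_mul, map_pow, aeval_X, aeval_C, map_one]
    rw [pow_succ, sq, Algebra.smul_def, Algebra.smul_def]
  rw [map_mul, hp, mul_zero]

theorem abel_three {H : Subgroup (SpecialLinearGroup (Fin 3) ℤ)} (hD : ZDense H)
    {w u : SpecialLinearGroup (Fin 3) ℤ} (hw : w ∈ H) (hu : u ∈ H)
    (hinf : ∀ k : ℕ, 1 ≤ k → w ^ k ≠ 1)
    (hred : ¬ Irreducible (w : Matrix (Fin 3) (Fin 3) ℤ).charpoly) (hwu : w * u = u * w)
    (hind : ∀ k : ℕ, 1 ≤ k → ∀ m : ℤ, u ^ k ≠ w ^ m) : H.FiniteIndex := by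
  have hsq := sq_eig hred
  have hcomm : ∀ n : ℕ, w ^ n * u = u * w ^ n := fun n => (Commute.pow_left hwu n : Commute (w ^ n) u)
  have hind' : ∀ n : ℕ, ∀ k : ℕ, 1 ≤ k → ∀ m : ℤ, u ^ k ≠ (w ^ n) ^ m := by
    intro n k hk m h
    apply hind k hk (n * m)
    rw [h, ← zpow_natCast, _root_.zpow_mul]
  obtain ⟨M, hM⟩ : ∃ M : Matrix (Fin 3) (Fin 3) ℤ,
      M = ((w ^ 2 : SpecialLinearGroup (Fin 3) ℤ) : Matrix (Fin 3) (Fin 3) ℤ) := ⟨_, rfl⟩
  have hdet : M.det = 1 := by rw [hM]; exact Matrix.SpecialLinearGroup.det_coe _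
  have h1 : (M - 1).det = 0 := by rw [hM]; exact hsq
  have hpow : ∀ n : ℕ, (((w ^ 2) ^ n : SpecialLinearGroup (Fin 3) ℤ) : Matrix (Fin 3) (Fin 3) ℤ) =
      M ^ n := by
    intro n
    rw [Matrix.SpecialLinearGroup.coe_pow, hM]
  have hfin : ∀ n : ℕ, 1 ≤ n → M ^ n ≠ 1 := by
    intro n hn h
    apply hinf (2 * n) (by omega)
    rw [pow_mul]
    apply SL_ext
    rw [hpow, h]
    rfl
  rcases lt_or_ge (|M.trace - 1|) 3 with hlt | hge
  · have hle : |M.trace - 1| ≤ 2 := by omega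
    rw [abs_le] at hle
    have hcases : M.trace = -1 ∨ M.trace = 0 ∨ M.trace = 1 ∨ M.trace = 2 ∨ M.trace = 3 := by omega
    rcases hcases with ht | ht | ht | ht | ht
    · -- `(M - 1) (M + 1)² = 0`
      have hq := aeval_three hdet h1 ht ((X - 1) ^ 2 * (X + 1))
      have hq2 : ((X - 1) ^ 2 * (X + 1) * (X ^ 3 - C (-1) * X ^ 2 + C (-1) * X - 1) : ℤ[X]) =
          (X ^ 2 - 1) ^ 3 := by
        rw [map_neg, C_1]; ring
      rw [hq2] at hq
      simp only [map_sub, map_pow, aeval_X, map_one] at hq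
      refine unip_three hD (w := (w ^ 2) ^ 2) (u := u) (H.pow_mem (H.pow_mem hw 2) 2) hu ?_ ?_ ?_ ?_
      · rw [← pow_mul]; exact hinf _ (by norm_num)
      · rw [hpow]; exact hq
      · rw [← pow_mul]; exact hcomm _
      · rw [← pow_mul]; exact hind' _
    · exfalso
      have hq := aeval_three hdet h1 ht 1
      have hq2 : (1 * (X ^ 3 - C 0 * X ^ 2 + C 0 * X - 1) : ℤ[X]) = X ^ 3 - 1 := by
        rw [C_0]; ring
      rw [hq2] at hq
      simp only [map_sub, map_pow, aeval_X, map_one] at hq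
      exact hfin 3 (by norm_num) (sub_eq_zero.mp hq)
    · exfalso
      have hq := aeval_three hdet h1 ht (X + 1)
      have hq2 : ((X + 1) * (X ^ 3 - C 1 * X ^ 2 + C 1 * X - 1) : ℤ[X]) = X ^ 4 - 1 := by
        rw [C_1]; ring
      rw [hq2] at hq
      simp only [map_sub, map_pow, aeval_X, map_one] at hq
      exact hfin 4 (by norm_num) (sub_eq_zero.mp hq)
    · exfalso
      have hq := aeval_three hdet h1 ht ((X + 1) * (X ^ 2 + X + 1))
      have hq2 : ((X + 1) * (X ^ 2 + X + 1) * (X ^ 3 - C 2 * X ^ 2 + C 2 * X - 1) : ℤ[X]) =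
          X ^ 6 - 1 := by
        have : (C 2 : ℤ[X]) = 2 := rfl
        rw [this]; ring
      rw [hq2] at hq
      simp only [map_sub, map_pow, aeval_X, map_one] at hq
      exact hfin 6 (by norm_num) (sub_eq_zero.mp hq)
    · have hq := aeval_three hdet h1 ht 1
      have hq2 : (1 * (X ^ 3 - C 3 * X ^ 2 + C 3 * X - 1) : ℤ[X]) = (X - 1) ^ 3 := by
        have : (C 3 : ℤ[X]) = 3 := rfl
        rw [this]; ring
      rw [hq2] at hq
      simp only [map_sub, map_pow, aeval_X, map_one] at hq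
      refine unip_three hD (w := w ^ 2) (u := u) (H.pow_mem hw 2) hu ?_ ?_ ?_ ?_
      · exact hinf _ (by norm_num)
      · rw [← hM]; exact hq
      · exact hcomm _
      · exact hind' _
  · exfalso
    obtain ⟨k, hk, m, hkm⟩ := hyp_case (w := w ^ 2) (u := u) (hcomm 2) hsq (by rw [← hM]; exact hge)
    exact hind' 2 k hk m hkm

end Pool.Agent.H48SL
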