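import Pool.Agent.helper48.SLn.Nil

/-!
A transvection together with an element stabilising its centre (or its axis) in a Zariski dense
subgroup of `SL(ι, ℤ)`.
-/

namespace Pool.Agent.H48SL

open Matrix

variable {ι : Type*} [Fintype ι] [DecidableEq ι]

theorem seq_stab {V : Type*} [AddCommGroup V] [Module ℚ V] [FiniteDimensional ℚ V] (f : ℕ → V) :
    ∃ k : ℕ, 1 ≤ k ∧ ∀ j : ℕ, 1 ≤ j →
      f k ∈ Submodule.span ℚ (Set.range fun i : ℕ => f (i * (j * k))) := by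
  classical
  set W : ℕ → Submodule ℚ V := fun k => Submodule.span ℚ (Set.range fun i : ℕ => f (i * k)) with hW
  have hex : ∃ n : ℕ, ∃ k : ℕ, 1 ≤ k ∧ Module.finrank ℚ (W k) = n := ⟨_, 1, le_refl _, rfl⟩
  obtain ⟨k, hk, hkn⟩ := Nat.find_spec hex
  refine ⟨k, hk, fun j hj => ?_⟩
  have hle : W (j * k) ≤ W k := by
    apply Submodule.span_mono
    rintro _ ⟨i, rfl⟩
    exact ⟨i * j, by beta_reduce; rw [mul_assoc]⟩
  have hjk : 1 ≤ j * k := Nat.mul_pos hj hk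
  have hmin : Nat.find hex ≤ Module.finrank ℚ (W (j * k)) := Nat.find_min' hex ⟨j * k, hjk, rfl⟩
  have heq : W (j * k) = W k := Submodule.eq_of_le_of_finrank_le hle (by rw [hkn]; exact hmin)
  have h1 : f k ∈ W k := Submodule.subset_span ⟨1, by simp⟩
  rw [← heq] at h1
  exact h1

theorem isPoly_conj (φ e : ι → ℤ) (M : Matrix ι ι ℤ) :
    IsPoly (fun g : SpecialLinearGroup ι ℤ =>
      (φ ᵥ* ((g⁻¹ : SpecialLinearGroup ι ℤ) : Matrix ι ι ℤ)) ⬝ᵥ (M *ᵥ ((g : Matrix ι ι ℤ) *ᵥ e))) := by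
  simp only [dotProduct, mulVec, vecMul]
  refine IsPoly.sum _ _ fun i _ => IsPoly.mul (IsPoly.sum _ _ fun j _ => ?_)
    (IsPoly.sum _ _ fun j _ => IsPoly.smul (IsPoly.sum _ _ fun l _ => ?_) _)
  · exact (IsPoly.const _).mul (IsPoly.entry_inv j i)
  · exact (IsPoly.entry j l).mul (IsPoly.const _)

/-- the function `g ↦ φ g⁻¹ M g e` is not identically zero -/
theorem NZ.conj {e φ : ι → ℤ} (he : e ≠ 0) (hφ : φ ≠ 0) (h0 : φ ⬝ᵥ e = 0) {M : Matrix ι ι ℤ}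
    (hM : M ≠ 0) (hMe : M *ᵥ e = 0) (hφM : φ ᵥ* M = 0) :
    NZ (fun g : SpecialLinearGroup ι ℤ =>
      (φ ᵥ* ((g⁻¹ : SpecialLinearGroup ι ℤ) : Matrix ι ι ℤ)) ⬝ᵥ (M *ᵥ ((g : Matrix ι ι ℤ) *ᵥ e))) := by
  refine ⟨isPoly_conj φ e M, ?_⟩
  obtain ⟨i, hi⟩ : ∃ i, M i ≠ 0 := by
    by_contra hcon
    push Not at hcon
    exact hM (funext hcon)
  obtain ⟨y0, hy1, hy2⟩ := exists_dot_ne hφ hi
  -- choose y with M y and y independent
  obtain ⟨y, hφy, hMy⟩ : ∃ y : ι → ℤ, φ ⬝ᵥ y ≠ 0 ∧ Indep (M *ᵥ y) y := by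
    have hMy0 : M *ᵥ y0 ≠ 0 := fun h => hy2 (congrFun h i)
    by_cases hI : Indep (M *ᵥ y0) y0
    · exact ⟨y0, hy1, hI⟩
    · have hy00 : y0 ≠ 0 := by rintro rfl; simp at hy1
      obtain ⟨a, b, ha, hab⟩ := not_indep hy00 hI
      have hb : b ≠ 0 := by
        rintro rfl
        rw [zero_smul] at hab
        rcases smul_eq_zero.mp hab with h | h
        · exact ha h
        · exact hMy0 h
      refine ⟨y0 + e, by rw [dotProduct_add, h0, add_zero]; exact hy1, ?_⟩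
      have hMye : M *ᵥ (y0 + e) = M *ᵥ y0 := by rw [mulVec_add, hMe, add_zero]
      rw [hMye]
      intro c d hcd
      -- c M y0 + d y0 + d e = 0
      have h1 : (c * b + a * d) • y0 + (a * d) • e = 0 := by
        have h2 := congrArg (fun w => a • w) hcd
        simp only [smul_add, smul_zero] at h2
        rw [smul_comm a c, hab] at h2
        rw [← h2]
        ext l
        simp only [Pi.add_apply, Pi.smul_apply, smul_eq_mul]
        ring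
      have h3 := congrArg (fun w => φ ⬝ᵥ w) h1
      simp only [dotProduct_add, dotProduct_smul, h0, smul_eq_mul, mul_zero, add_zero,
        dotProduct_zero] at h3
      have h4 : c * b + a * d = 0 := (mul_eq_zero.mp h3).resolve_right hy1
      rw [h4, zero_smul, zero_add] at h1
      have h5 : a * d = 0 := (smul_eq_zero.mp h1).resolve_right he
      have hd : d = 0 := (mul_eq_zero.mp h5).resolve_left ha
      rw [h5, add_zero] at h4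
      exact ⟨(mul_eq_zero.mp h4).resolve_right hb, hd⟩
  obtain ⟨α1, hα1, hα1y⟩ := exists_sep hMy
  have hey : Indep y e := indep_of_dot hφy h0 he
  obtain ⟨α2, hα2, hα2y⟩ := exists_sep hey.symm
  obtain ⟨α, hαy, hαM, hαe⟩ : ∃ α : ι → ℤ, α ⬝ᵥ y = 0 ∧ α ⬝ᵥ (M *ᵥ y) ≠ 0 ∧ α ⬝ᵥ e ≠ 0 := by
    by_cases h1 : α1 ⬝ᵥ e = 0
    · by_cases h2 : α2 ⬝ᵥ (M *ᵥ y) = 0
      · refine ⟨α1 + α2, ?_, ?_, ?_⟩
        · rw [add_dotProduct, hα1y, hα2y, add_zero]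
        · rw [add_dotProduct, h2, add_zero]; exact hα1
        · rw [add_dotProduct, h1, zero_add]; exact hα2
      · exact ⟨α2, hα2y, h2, hα2⟩
    · exact ⟨α1, hα1y, hα1, h1⟩
  have hαy' : (-α) ⬝ᵥ y = 0 := by rw [neg_dotProduct, hαy, neg_zero]
  refine ⟨tv y α, ?_⟩
  beta_reduce
  rw [← tv_neg_right hαy, tv_mulVec hαy, tv_vecMul hαy', mulVec_add, hMe, zero_add, mulVec_smul,
    dotProduct_smul, add_dotProduct, dotProduct_mulVec, hφM, zero_dotProduct, zero_add,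
    smul_dotProduct, neg_dotProduct]
  simp only [smul_eq_mul]
  exact mul_ne_zero hαe (mul_ne_zero hφy (neg_ne_zero.mpr hαM))

/-- the linear form `X ↦ φ X e` on rational matrices vanishes on a span if it does on generators -/
theorem form_span {φ e : ι → ℤ} {S : Set (Matrix ι ι ℚ)}
    (hS : ∀ X ∈ S, castV φ ⬝ᵥ (X *ᵥ castV e) = 0) {Y : Matrix ι ι ℚ}
    (hY : Y ∈ Submodule.span ℚ S) : castV φ ⬝ᵥ (Y *ᵥ castV e) = 0 := by
  induction hY using Submodule.span_induction with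
  | mem x hx => exact hS x hx
  | zero => simp
  | add x y _ _ hx hy => rw [add_mulVec, dotProduct_add, hx, hy, add_zero]
  | smul r x _ hx => rw [smul_mulVec, dotProduct_smul, hx, smul_zero]

theorem form_cast (φ e : ι → ℤ) (X : Matrix ι ι ℤ) :
    castV φ ⬝ᵥ ((X.map (Int.cast : ℤ → ℚ)) *ᵥ castV e) = ((φ ⬝ᵥ (X *ᵥ e) : ℤ) : ℚ) := by
  simp only [dotProduct, mulVec, castV, Matrix.map_apply]
  push_cast
  rfl

theorem inv_fix {u : SpecialLinearGroup ι ℤ} {e : ι → ℤ} (h : (u : Matrix ι ι ℤ) *ᵥ e = e) :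
    ((u⁻¹ : SpecialLinearGroup ι ℤ) : Matrix ι ι ℤ) *ᵥ e = e := by
  conv_lhs => rw [← h]
  rw [mulVec_mulVec, ← Matrix.SpecialLinearGroup.coe_mul, inv_mul_cancel,
    Matrix.SpecialLinearGroup.coe_one, one_mulVec]

theorem inv_fix' {u : SpecialLinearGroup ι ℤ} {φ : ι → ℤ} (h : φ ᵥ* (u : Matrix ι ι ℤ) = φ) :
    φ ᵥ* ((u⁻¹ : SpecialLinearGroup ι ℤ) : Matrix ι ι ℤ) = φ := by
  conv_lhs => rw [← h]
  rw [vecMul_vecMul, ← Matrix.SpecialLinearGroup.coe_mul, mul_inv_cancel,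
    Matrix.SpecialLinearGroup.coe_one, vecMul_one]

theorem pow_fix {u : SpecialLinearGroup ι ℤ} {e : ι → ℤ} (h : (u : Matrix ι ι ℤ) *ᵥ e = e) (k : ℕ) :
    ((u ^ k : SpecialLinearGroup ι ℤ) : Matrix ι ι ℤ) *ᵥ e = e := by
  induction k with
  | zero => simp
  | succ k ih => rw [pow_succ, Matrix.SpecialLinearGroup.coe_mul, ← mulVec_mulVec, h, ih]

theorem pow_fix' {u : SpecialLinearGroup ι ℤ} {φ : ι → ℤ} (h : φ ᵥ* (u : Matrix ι ι ℤ) = φ) (k : ℕ) :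
    φ ᵥ* ((u ^ k : SpecialLinearGroup ι ℤ) : Matrix ι ι ℤ) = φ := by
  induction k with
  | zero => simp
  | succ k ih => rw [pow_succ, Matrix.SpecialLinearGroup.coe_mul, ← vecMul_vecMul, ih, h]

theorem exists_pow_cong (u : SpecialLinearGroup ι ℤ) (q : ℕ) (hq : q ≠ 0) :
    ∃ k : ℕ, 1 ≤ k ∧ u ^ k ∈ Cong ι q := by
  haveI : NeZero q := ⟨hq⟩
  have h1 : IsOfFinOrder (Matrix.SpecialLinearGroup.map (n := ι) (Int.castRingHom (ZMod q)) u) :=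
    isOfFinOrder_of_finite _
  obtain ⟨k, hk, hk1⟩ := isOfFinOrder_iff_pow_eq_one.mp h1
  refine ⟨k, hk, ?_⟩
  unfold Cong
  rw [MonoidHom.mem_ker, map_pow, hk1]

theorem comm_case (hcard : 3 ≤ Fintype.card ι) {H : Subgroup (SpecialLinearGroup ι ℤ)}
    (hD : ZDense H) {e φ : ι → ℤ} (he : e ≠ 0) (hφ : φ ≠ 0) (h0 : φ ⬝ᵥ e = 0) (t : tv e φ ∈ H)
    {u : SpecialLinearGroup ι ℤ} (hu : u ∈ H) (hue : (u : Matrix ι ι ℤ) *ᵥ e = e)
    (hφu : φ ᵥ* (u : Matrix ι ι ℤ) = φ)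
    (hind : ∀ k : ℕ, 1 ≤ k → ∀ m : ℤ, u ^ k ≠ (tv e φ) ^ m) : H.FiniteIndex := by
  obtain ⟨k, hk, hspan⟩ := seq_stab (fun n : ℕ =>
    (((u ^ n : SpecialLinearGroup ι ℤ) : Matrix ι ι ℤ) +
      (((u ^ n)⁻¹ : SpecialLinearGroup ι ℤ) : Matrix ι ι ℤ)).map (Int.cast : ℤ → ℚ))
  set w : SpecialLinearGroup ι ℤ := u ^ k with hw
  have hwH : w ∈ H := Subgroup.pow_mem _ hu _
  have hwe : (w : Matrix ι ι ℤ) *ᵥ e = e := pow_fix hue k
  have hφw : φ ᵥ* (w : Matrix ι ι ℤ) = φ := pow_fix' hφu k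
  have hindw : ∀ j : ℕ, 1 ≤ j → ∀ m : ℤ, w ^ j ≠ (tv e φ) ^ m := by
    intro j hj m
    rw [hw, ← pow_mul]
    exact hind _ (Nat.mul_pos hk hj) m
  set M : Matrix ι ι ℤ := (w : Matrix ι ι ℤ) + ((w⁻¹ : SpecialLinearGroup ι ℤ) : Matrix ι ι ℤ) - 2 with hM
  have hMe : M *ᵥ e = 0 := by
    rw [hM, sub_mulVec, add_mulVec, hwe, inv_fix hwe]
    have : (2 : Matrix ι ι ℤ) *ᵥ e = e + e := by
      rw [← one_add_one_eq_two, add_mulVec, one_mulVec]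
    rw [this, sub_self]
  have hφM : φ ᵥ* M = 0 := by
    rw [hM, vecMul_sub, vecMul_add, hφw, inv_fix' hφw]
    have : φ ᵥ* (2 : Matrix ι ι ℤ) = φ + φ := by
      rw [← one_add_one_eq_two, vecMul_add, vecMul_one]
    rw [this, sub_self]
  by_cases hMz : M = 0
  · -- square-zero unipotent
    refine nil_case hcard hD he hφ h0 t hwH (N := (w : Matrix ι ι ℤ) - 1) (by abel) ?_ ?_ ?_ hindw
    · have h1 : (w : Matrix ι ι ℤ) * M = ((w : Matrix ι ι ℤ) - 1) * ((w : Matrix ι ι ℤ) - 1) := by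
        rw [hM, Matrix.mul_sub, Matrix.mul_add, ← Matrix.SpecialLinearGroup.coe_mul w w⁻¹,
          mul_inv_cancel, Matrix.SpecialLinearGroup.coe_one]
        noncomm_ring
      rw [← h1, hMz, Matrix.mul_zero]
    · rw [sub_mulVec, hwe, one_mulVec, sub_self]
    · rw [vecMul_sub, hφw, vecMul_one, sub_self]
  · have NZ1 := ((NZ.dot hφ he).mul (NZ.dot_inv hφ he)).mul (NZ.conj he hφ h0 hMz hMe hφM)
    obtain ⟨h, hh, hne⟩ := NZ1.dense hD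
    set e3 : ι → ℤ := (h : Matrix ι ι ℤ) *ᵥ e with he3
    set φ3 : ι → ℤ := φ ᵥ* ((h⁻¹ : SpecialLinearGroup ι ℤ) : Matrix ι ι ℤ) with hφ3
    have hb : φ ⬝ᵥ (((h⁻¹ : SpecialLinearGroup ι ℤ) : Matrix ι ι ℤ) *ᵥ e) = φ3 ⬝ᵥ e := by
      rw [dotProduct_mulVec]
    set a : ℤ := φ ⬝ᵥ e3 with ha
    set b : ℤ := φ3 ⬝ᵥ e with hbdef
    have hne' : a * b * (φ3 ⬝ᵥ (M *ᵥ e3)) ≠ 0 := by rw [← hb]; exact hne
    have ha0 : a ≠ 0 := left_ne_zero_of_mul (left_ne_zero_of_mul hne')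
    have hb0 : b ≠ 0 := right_ne_zero_of_mul (left_ne_zero_of_mul hne')
    have hF0 : φ3 ⬝ᵥ (M *ᵥ e3) ≠ 0 := right_ne_zero_of_mul hne'
    have h33 : φ3 ⬝ᵥ e3 = 0 := by rw [hφ3, he3, vecMul_inv_dot, h0]
    have t3 : tv e3 φ3 ∈ H := conj_mem h0 t hh
    obtain ⟨j0, hj0, hcong⟩ := exists_pow_cong w (a * b).natAbs
      (Int.natAbs_ne_zero.mpr (mul_ne_zero ha0 hb0))
    -- some power of `w ^ j0` is good
    obtain ⟨i, hi⟩ : ∃ i : ℕ, φ3 ⬝ᵥ ((((w ^ j0) ^ i : SpecialLinearGroup ι ℤ) : Matrix ι ι ℤ) *ᵥ e3) +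
        φ3 ⬝ᵥ (((((w ^ j0) ^ i)⁻¹ : SpecialLinearGroup ι ℤ) : Matrix ι ι ℤ) *ᵥ e3) ≠ 0 := by
      by_contra hcon
      push Not at hcon
      apply hF0
      have h1 := hspan j0 hj0
      have h2 := form_span (φ := φ3) (e := e3) (by
        rintro _ ⟨i, rfl⟩
        beta_reduce
        rw [form_cast, add_mulVec, dotProduct_add]
        have h3 := hcon i
        have h4 : u ^ (i * (j0 * k)) = (w ^ j0) ^ i := by
          rw [hw, ← pow_mul, ← pow_mul]; congr 1; ring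
        rw [h4, h3, Int.cast_zero]) h1
      rw [form_cast, add_mulVec, dotProduct_add] at h2
      have h5 : φ3 ⬝ᵥ ((w : Matrix ι ι ℤ) *ᵥ e3) +
        φ3 ⬝ᵥ (((w⁻¹ : SpecialLinearGroup ι ℤ) : Matrix ι ι ℤ) *ᵥ e3) = 0 := by exact_mod_cast h2
      rw [hM, sub_mulVec, add_mulVec, dotProduct_sub, dotProduct_add, h5]
      have : (2 : Matrix ι ι ℤ) *ᵥ e3 = e3 + e3 := by
        rw [← one_add_one_eq_two, add_mulVec, one_mulVec]
      rw [this, dotProduct_add, h33]; simp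
    set Y : SpecialLinearGroup ι ℤ := (w ^ j0) ^ i with hY
    have hYH : Y ∈ H := Subgroup.pow_mem _ (Subgroup.pow_mem _ hwH _) _
    have hYe : (Y : Matrix ι ι ℤ) *ᵥ e = e := pow_fix (pow_fix hwe _) _
    have hφY : φ ᵥ* (Y : Matrix ι ι ℤ) = φ := pow_fix' (pow_fix' hφw _) _
    have hYC : Y ∈ Cong ι (a * b).natAbs := Subgroup.pow_mem _ hcong _
    obtain ⟨B, hB⟩ := mem_Cong.mp hYC
    obtain ⟨m', hm'⟩ : ∃ m' : ℤ, φ3 ⬝ᵥ ((Y : Matrix ι ι ℤ) *ᵥ e3) = (a * b) * m' := by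
      have h1 : φ3 ⬝ᵥ ((Y : Matrix ι ι ℤ) *ᵥ e3) = ((a * b).natAbs : ℤ) * (φ3 ⬝ᵥ (B *ᵥ e3)) := by
        rw [hB, add_mulVec, one_mulVec, dotProduct_add, h33, zero_add, smul_mulVec, dotProduct_smul,
          smul_eq_mul]
      have h2 : (a * b) ∣ ((a * b).natAbs : ℤ) := by rw [Int.dvd_natAbs]
      obtain ⟨c, hc⟩ := h2
      exact ⟨c * (φ3 ⬝ᵥ (B *ᵥ e3)), by rw [h1, hc]; ring⟩
    set g : SpecialLinearGroup ι ℤ := Y * (tv e φ) ^ (-m') with hg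
    have hgH : g ∈ H := Subgroup.mul_mem _ hYH (Subgroup.zpow_mem _ t _)
    have hge : (g : Matrix ι ι ℤ) *ᵥ e3 = (Y : Matrix ι ι ℤ) *ᵥ e3 + (-m' * a) • e := by
      rw [hg, Matrix.SpecialLinearGroup.coe_mul, ← mulVec_mulVec, ← tv_zsmul_right h0,
        tv_mulVec (by rw [smul_dotProduct, h0, smul_zero]), mulVec_add, mulVec_smul, hYe,
        smul_dotProduct, ← ha, smul_eq_mul]
    have hge2 : ((g⁻¹ : SpecialLinearGroup ι ℤ) : Matrix ι ι ℤ) *ᵥ e3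
        = ((Y⁻¹ : SpecialLinearGroup ι ℤ) : Matrix ι ι ℤ) *ᵥ e3 + (m' * a) • e := by
      have h1 : g⁻¹ = (tv e φ) ^ m' * Y⁻¹ := by rw [hg, _root_.mul_inv_rev, ← _root_.zpow_neg, neg_neg]
      rw [h1, Matrix.SpecialLinearGroup.coe_mul, ← mulVec_mulVec, ← tv_zsmul_right h0,
        tv_mulVec (by rw [smul_dotProduct, h0, smul_zero]), smul_dotProduct, dotProduct_mulVec,
        inv_fix' hφY, ← ha, smul_eq_mul]
    have t4 := conj_mem h33 t3 hgH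
    have p1 : φ3 ⬝ᵥ ((g : Matrix ι ι ℤ) *ᵥ e3) = 0 := by
      rw [hge, dotProduct_add, dotProduct_smul, hm', ← hbdef, smul_eq_mul]; ring
    have p2 : (φ3 ᵥ* ((g⁻¹ : SpecialLinearGroup ι ℤ) : Matrix ι ι ℤ)) ⬝ᵥ e3 ≠ 0 := by
      rw [← dotProduct_mulVec, hge2, dotProduct_add, dotProduct_smul, ← hbdef, smul_eq_mul]
      intro h1
      apply hi
      rw [hm']
      linarith
    exact heis_case hcard hD h33 (by rw [vecMul_inv_dot, h33]) t3 t4 (vecMul_ne_zero _ hφ)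
      (mulVec_ne_zero _ (mulVec_ne_zero _ he)) p1 p2

theorem eig_pm {w : SpecialLinearGroup ι ℤ} {e : ι → ℤ} (he : e ≠ 0) {a b : ℤ} (ha : a ≠ 0)
    (h : a • ((w : Matrix ι ι ℤ) *ᵥ e) = b • e) :
    (w : Matrix ι ι ℤ) *ᵥ e = e ∨ (w : Matrix ι ι ℤ) *ᵥ e = -e := by
  obtain ⟨k, x0, ψ, hk, hx, hψ⟩ := primitive_part e he
  have h1 : a • ((w : Matrix ι ι ℤ) *ᵥ x0) = b • x0 := by
    rw [hx, mulVec_smul, smul_comm a k, smul_comm b k] at h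
    exact smul_right_injective _ hk h
  set c : ℤ := ψ ⬝ᵥ ((w : Matrix ι ι ℤ) *ᵥ x0) with hc
  have h2 : a * c = b := by
    have := congrArg (fun y => ψ ⬝ᵥ y) h1
    beta_reduce at this
    rw [dotProduct_smul, dotProduct_smul, ← hc, hψ, smul_eq_mul, smul_eq_mul, mul_one] at this
    exact this
  have h3 : (w : Matrix ι ι ℤ) *ᵥ x0 = c • x0 := by
    rw [← h2, ← smul_smul] at h1
    exact smul_right_injective _ ha h1
  set c' : ℤ := ψ ⬝ᵥ (((w⁻¹ : SpecialLinearGroup ι ℤ) : Matrix ι ι ℤ) *ᵥ x0) with hc'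
  have h4 : x0 = c • (((w⁻¹ : SpecialLinearGroup ι ℤ) : Matrix ι ι ℤ) *ᵥ x0) := by
    rw [← mulVec_smul, ← h3, mulVec_mulVec, ← Matrix.SpecialLinearGroup.coe_mul, inv_mul_cancel,
      Matrix.SpecialLinearGroup.coe_one, one_mulVec]
  have h5 : c * c' = 1 := by
    have := congrArg (fun y => ψ ⬝ᵥ y) h4
    rw [dotProduct_smul, ← hc', hψ, smul_eq_mul] at this
    exact this.symm
  rcases Int.isUnit_iff.mp (IsUnit.of_mul_eq_one _ h5) with h6 | h6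
  · left
    rw [hx, mulVec_smul, h3, h6, one_smul]
  · right
    rw [hx, mulVec_smul, h3, h6, neg_smul, one_smul, smul_neg]

theorem eig_pm' {w : SpecialLinearGroup ι ℤ} {φ : ι → ℤ} (hφ : φ ≠ 0) {a b : ℤ} (ha : a ≠ 0)
    (h : a • (φ ᵥ* (w : Matrix ι ι ℤ)) = b • φ) :
    φ ᵥ* (w : Matrix ι ι ℤ) = φ ∨ φ ᵥ* (w : Matrix ι ι ℤ) = -φ := by
  have h1 : ((Matrix.SpecialLinearGroup.transpose w : SpecialLinearGroup ι ℤ) : Matrix ι ι ℤ) *ᵥ φ
      = φ ᵥ* (w : Matrix ι ι ℤ) := mulVec_transpose _ _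
  have := eig_pm (w := Matrix.SpecialLinearGroup.transpose w) hφ ha (by rw [h1]; exact h)
  rwa [h1] at this

theorem sq_fix {u : SpecialLinearGroup ι ℤ} {e : ι → ℤ}
    (h : (u : Matrix ι ι ℤ) *ᵥ e = e ∨ (u : Matrix ι ι ℤ) *ᵥ e = -e) :
    ((u ^ 2 : SpecialLinearGroup ι ℤ) : Matrix ι ι ℤ) *ᵥ e = e := by
  rw [sq, Matrix.SpecialLinearGroup.coe_mul, ← mulVec_mulVec]
  rcases h with h | h
  · rw [h, h]
  · rw [h, mulVec_neg, h, neg_neg]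

theorem sq_fix' {u : SpecialLinearGroup ι ℤ} {φ : ι → ℤ}
    (h : φ ᵥ* (u : Matrix ι ι ℤ) = φ ∨ φ ᵥ* (u : Matrix ι ι ℤ) = -φ) :
    φ ᵥ* ((u ^ 2 : SpecialLinearGroup ι ℤ) : Matrix ι ι ℤ) = φ := by
  rw [sq, Matrix.SpecialLinearGroup.coe_mul, ← vecMul_vecMul]
  rcases h with h | h
  · rw [h, h]
  · rw [h, neg_vecMul, h, neg_neg]

/-- A Zariski dense subgroup containing a transvection `z` and an element which stabilises the
centre or the axis of `z` and has no positive power in `⟨z⟩` has finite index. -/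
theorem stab_case (hcard : 3 ≤ Fintype.card ι) {H : Subgroup (SpecialLinearGroup ι ℤ)}
    (hD : ZDense H) {e φ : ι → ℤ} (he : e ≠ 0) (hφ : φ ≠ 0) (h0 : φ ⬝ᵥ e = 0) (t : tv e φ ∈ H)
    {u : SpecialLinearGroup ι ℤ} (hu : u ∈ H)
    (hstab : (∃ c : ℤ, (u : Matrix ι ι ℤ) *ᵥ e = c • e) ∨ (∃ c : ℤ, φ ᵥ* (u : Matrix ι ι ℤ) = c • φ))
    (hind : ∀ k : ℕ, 1 ≤ k → ∀ m : ℤ, u ^ k ≠ (tv e φ) ^ m) : H.FiniteIndex := by
  set w : SpecialLinearGroup ι ℤ := u ^ 2 with hw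
  have hwH : w ∈ H := Subgroup.pow_mem _ hu _
  have hindw : ∀ k : ℕ, 1 ≤ k → ∀ m : ℤ, (w ^ 2) ^ k ≠ (tv e φ) ^ m := by
    intro k hk m
    rw [hw, ← pow_mul, ← pow_mul]
    exact hind _ (by omega) m
  have hcj := conj_mem h0 t (Subgroup.inv_mem _ hwH)
  rw [inv_inv] at hcj
  rcases hstab with ⟨c, hc⟩ | ⟨c, hc⟩
  · have h1 : (w : Matrix ι ι ℤ) *ᵥ e = e :=
      sq_fix (eig_pm he one_ne_zero (by rw [one_smul]; exact hc))
    rw [inv_fix h1] at hcj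
    have hφwe : (φ ᵥ* (w : Matrix ι ι ℤ)) ⬝ᵥ e = 0 := by rw [← dotProduct_mulVec, h1, h0]
    by_cases hI : Indep (φ ᵥ* (w : Matrix ι ι ℤ)) φ
    · exact same_centre hcard hD hφwe h0 hcj t he one_ne_zero (rfl : (1 : ℤ) • e = (1 : ℤ) • e) hI
    · obtain ⟨a, b, ha, hab⟩ := not_indep hφ hI
      exact comm_case hcard hD he hφ h0 t (Subgroup.pow_mem _ hwH 2) (pow_fix h1 2)
        (sq_fix' (eig_pm' hφ ha hab)) hindw
  · have h1 : φ ᵥ* (w : Matrix ι ι ℤ) = φ :=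
      sq_fix' (eig_pm' hφ one_ne_zero (by rw [one_smul]; exact hc))
    have hcj' := conj_mem h0 t hwH
    rw [inv_fix' h1] at hcj'
    have hφwe : φ ⬝ᵥ ((w : Matrix ι ι ℤ) *ᵥ e) = 0 := by rw [dotProduct_mulVec, h1, h0]
    by_cases hI : Indep ((w : Matrix ι ι ℤ) *ᵥ e) e
    · exact same_axis hcard hD hφwe h0 hcj' t hφ one_ne_zero (rfl : (1 : ℤ) • φ = (1 : ℤ) • φ) hI
    · obtain ⟨a, b, ha, hab⟩ := not_indep he hI
      exact comm_case hcard hD he hφ h0 t (Subgroup.pow_mem _ hwH 2)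
        (sq_fix (eig_pm he ha hab)) (pow_fix' h1 2) hindw

end Pool.Agent.H48SL
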