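import Mathlib

/-!
Transvections `1 + e ⊗ φ` in `SL(ι, ℤ)`.
-/

namespace Pool.Agent.H48SL

open Matrix

variable {ι : Type*} [Fintype ι] [DecidableEq ι]

theorem det_one_add_vecMulVec (e φ : ι → ℤ) : (1 + vecMulVec e φ).det = 1 + φ ⬝ᵥ e := by
  have h : vecMulVec e φ = replicateCol Unit e * replicateRow Unit φ := by
    ext i j
    simp [vecMulVec_apply, Matrix.mul_apply]
  rw [h, det_one_add_replicateCol_mul_replicateRow]

/-- The transvection `1 + e ⊗ φ` (when `φ ⬝ e = 0`; the junk value is `1`). -/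
noncomputable def tv (e φ : ι → ℤ) : SpecialLinearGroup ι ℤ :=
  if h : φ ⬝ᵥ e = 0 then ⟨1 + vecMulVec e φ, by rw [det_one_add_vecMulVec, h, add_zero]⟩ else 1

theorem tv_coe {e φ : ι → ℤ} (h : φ ⬝ᵥ e = 0) :
    ((tv e φ : SpecialLinearGroup ι ℤ) : Matrix ι ι ℤ) = 1 + vecMulVec e φ := by
  unfold tv
  rw [dif_pos h]

theorem tv_mulVec {e φ : ι → ℤ} (h : φ ⬝ᵥ e = 0) (x : ι → ℤ) :
    ((tv e φ : SpecialLinearGroup ι ℤ) : Matrix ι ι ℤ) *ᵥ x = x + (φ ⬝ᵥ x) • e := by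
  rw [tv_coe h, add_mulVec, one_mulVec, vecMulVec_mulVec]
  ext i
  simp [mul_comm]

theorem tv_vecMul {e φ : ι → ℤ} (h : φ ⬝ᵥ e = 0) (x : ι → ℤ) :
    x ᵥ* ((tv e φ : SpecialLinearGroup ι ℤ) : Matrix ι ι ℤ) = x + (x ⬝ᵥ e) • φ := by
  rw [tv_coe h, vecMul_add, vecMul_one, vecMul_vecMulVec]

theorem SL_ext {a b : SpecialLinearGroup ι ℤ} (h : (a : Matrix ι ι ℤ) = b) : a = b :=
  Subtype.ext h

theorem tv_zero_right (e : ι → ℤ) : tv e (0 : ι → ℤ) = 1 := by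
  apply SL_ext
  rw [tv_coe (by simp)]
  simp

theorem tv_zero_left (φ : ι → ℤ) : tv (0 : ι → ℤ) φ = 1 := by
  apply SL_ext
  rw [tv_coe (by simp)]
  ext i j
  simp [vecMulVec_apply]

theorem tv_add_right {e φ ψ : ι → ℤ} (h1 : φ ⬝ᵥ e = 0) (h2 : ψ ⬝ᵥ e = 0) :
    tv e (φ + ψ) = tv e φ * tv e ψ := by
  apply SL_ext
  rw [Matrix.SpecialLinearGroup.coe_mul, tv_coe h1, tv_coe h2, tv_coe (by rw [add_dotProduct, h1, h2, add_zero])]
  rw [Matrix.add_mul, Matrix.mul_add, Matrix.mul_add, vecMulVec_mul_vecMulVec, h1]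
  simp [vecMulVec_add]
  abel

theorem tv_add_left {e e' φ : ι → ℤ} (h1 : φ ⬝ᵥ e = 0) (h2 : φ ⬝ᵥ e' = 0) :
    tv (e + e') φ = tv e φ * tv e' φ := by
  apply SL_ext
  rw [Matrix.SpecialLinearGroup.coe_mul, tv_coe h1, tv_coe h2, tv_coe (by rw [dotProduct_add, h1, h2, add_zero])]
  rw [Matrix.add_mul, Matrix.mul_add, Matrix.mul_add, vecMulVec_mul_vecMulVec, h2]
  simp [add_vecMulVec]
  abel

theorem tv_neg_right {e φ : ι → ℤ} (h1 : φ ⬝ᵥ e = 0) : tv e (-φ) = (tv e φ)⁻¹ := by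
  rw [eq_inv_iff_mul_eq_one, ← tv_add_right (by rw [neg_dotProduct, h1, neg_zero]) h1]
  simp [tv_zero_right]

theorem tv_smul_comm {e φ : ι → ℤ} (h1 : φ ⬝ᵥ e = 0) (k : ℤ) : tv (k • e) φ = tv e (k • φ) := by
  apply SL_ext
  rw [tv_coe (by rw [dotProduct_smul, h1, smul_zero]), tv_coe (by rw [smul_dotProduct, h1, smul_zero])]
  ext i j
  simp [vecMulVec_apply]
  ring

theorem tv_nsmul_right {e φ : ι → ℤ} (h1 : φ ⬝ᵥ e = 0) (k : ℕ) :
    tv e ((k : ℤ) • φ) = (tv e φ) ^ k := by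
  induction k with
  | zero => simp [tv_zero_right]
  | succ k ih =>
    rw [pow_succ, ← ih, ← tv_add_right (by rw [smul_dotProduct, h1, smul_zero]) h1]
    congr 1
    push_cast
    rw [add_smul, one_smul]

theorem tv_zsmul_right {e φ : ι → ℤ} (h1 : φ ⬝ᵥ e = 0) (k : ℤ) :
    tv e (k • φ) = (tv e φ) ^ k := by
  rcases Int.eq_nat_or_neg k with ⟨m, rfl | rfl⟩
  · rw [tv_nsmul_right h1, zpow_natCast]
  · rw [neg_smul, tv_neg_right (by rw [smul_dotProduct, h1, smul_zero]), tv_nsmul_right h1, _root_.zpow_neg,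
      zpow_natCast]

theorem vecMul_inv_dot (g : SpecialLinearGroup ι ℤ) (φ x : ι → ℤ) :
    (φ ᵥ* ((g⁻¹ : SpecialLinearGroup ι ℤ) : Matrix ι ι ℤ)) ⬝ᵥ ((g : Matrix ι ι ℤ) *ᵥ x) = φ ⬝ᵥ x := by
  rw [← dotProduct_mulVec, mulVec_mulVec, ← Matrix.SpecialLinearGroup.coe_mul, inv_mul_cancel]
  simp

theorem tv_conj {e φ : ι → ℤ} (h1 : φ ⬝ᵥ e = 0) (g : SpecialLinearGroup ι ℤ) :
    g * tv e φ * g⁻¹ = tv ((g : Matrix ι ι ℤ) *ᵥ e)
      (φ ᵥ* ((g⁻¹ : SpecialLinearGroup ι ℤ) : Matrix ι ι ℤ)) := by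
  apply SL_ext
  rw [tv_coe (by rw [vecMul_inv_dot, h1]), Matrix.SpecialLinearGroup.coe_mul, Matrix.SpecialLinearGroup.coe_mul,
    tv_coe h1, Matrix.mul_add, Matrix.add_mul, Matrix.mul_one, ← Matrix.SpecialLinearGroup.coe_mul,
    mul_inv_cancel, Matrix.SpecialLinearGroup.coe_one, mul_vecMulVec, vecMulVec_mul]

theorem tv_commutator {x α y β : ι → ℤ} (h1 : α ⬝ᵥ x = 0) (h2 : β ⬝ᵥ y = 0) (h3 : β ⬝ᵥ x = 0) :
    tv x α * tv y β * (tv x α)⁻¹ * (tv y β)⁻¹ = tv x ((α ⬝ᵥ y) • β) := by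
  have key : tv x α * tv y β = tv x ((α ⬝ᵥ y) • β) * (tv y β * tv x α) := by
    apply SL_ext
    simp only [Matrix.SpecialLinearGroup.coe_mul]
    rw [tv_coe h1, tv_coe h2, tv_coe (by rw [smul_dotProduct, h3, smul_zero])]
    simp only [Matrix.add_mul, Matrix.mul_add, Matrix.one_mul, Matrix.mul_one,
      vecMulVec_mul_vecMulVec, smul_dotProduct, h2, h3, zero_smul, smul_zero, vecMulVec_zero,
      add_zero, Matrix.smul_mul, Matrix.mul_smul, vecMulVec_smul]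
    abel
  rw [key]
  group

end Pool.Agent.H48SL
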