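import Pool.Agent.helper48.SLn.Generic

/-!
Pairs of transvections in a Zariski dense subgroup of `SL(ι, ℤ)`: all commuting and Heisenberg
configurations force finite index.
-/

namespace Pool.Agent.H48SL

open Matrix

variable {ι : Type*} [Fintype ι] [DecidableEq ι]

theorem heis_case (hcard : 3 ≤ Fintype.card ι) {H : Subgroup (SpecialLinearGroup ι ℤ)}
    (hD : ZDense H) {e φ e' φ' : ι → ℤ} (h0 : φ ⬝ᵥ e = 0) (h0' : φ' ⬝ᵥ e' = 0)
    (t : tv e φ ∈ H) (t' : tv e' φ' ∈ H) (hφ : φ ≠ 0) (he' : e' ≠ 0)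
    (h1 : φ ⬝ᵥ e' = 0) (h2 : φ' ⬝ᵥ e ≠ 0) : H.FiniteIndex := by
  have hc := comm_mem h0' h0 h1 t' t
  refine center_lemma hcard hD he' h0' (by rw [smul_dotProduct, h1, smul_zero]) ?_ t' hc
  intro a b hab
  have h3 := congrArg (fun w => w ⬝ᵥ e) hab
  simp only [add_dotProduct, smul_dotProduct, zero_dotProduct, smul_eq_mul, h0, mul_zero,
    add_zero] at h3
  have ha : a = 0 := by
    rcases mul_eq_zero.mp h3 with h | h
    · exact h
    · exact absurd h h2
  refine ⟨ha, ?_⟩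
  rw [ha, zero_smul, zero_add, smul_smul] at hab
  rcases smul_eq_zero.mp hab with h | h
  · rcases mul_eq_zero.mp h with h | h
    · exact h
    · exact absurd h h2
  · exact absurd h hφ

/-- integral independence of two vectors -/
def Indep (v w : ι → ℤ) : Prop := ∀ a b : ℤ, a • v + b • w = 0 → a = 0 ∧ b = 0

omit [Fintype ι] [DecidableEq ι] in
theorem Indep.symm {v w : ι → ℤ} (h : Indep v w) : Indep w v := fun a b hab => by
  rw [add_comm] at hab
  exact (h b a hab).symm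

omit [Fintype ι] [DecidableEq ι] in
theorem Indep.ne_left {v w : ι → ℤ} (h : Indep v w) : v ≠ 0 := by
  rintro rfl
  have := (h 1 0 (by simp)).1
  norm_num at this

omit [Fintype ι] [DecidableEq ι] in
theorem Indep.ne_right {v w : ι → ℤ} (h : Indep v w) : w ≠ 0 := h.symm.ne_left

omit [Fintype ι] [DecidableEq ι] in
theorem Indep.smul {v w : ι → ℤ} (h : Indep v w) {a b : ℤ} (ha : a ≠ 0) (hb : b ≠ 0) :
    Indep (a • v) (b • w) := by
  intro c d hcd
  rw [smul_smul, smul_smul] at hcd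
  obtain ⟨h1, h2⟩ := h _ _ hcd
  exact ⟨(mul_eq_zero.mp h1).resolve_right ha, (mul_eq_zero.mp h2).resolve_right hb⟩

omit [Fintype ι] [DecidableEq ι] in
theorem not_indep {v w : ι → ℤ} (hw : w ≠ 0) (h : ¬ Indep v w) :
    ∃ a b : ℤ, a ≠ 0 ∧ a • v = b • w := by
  unfold Indep at h
  push Not at h
  obtain ⟨a, b, hab, h1⟩ := h
  have ha : a ≠ 0 := by
    rintro rfl
    rw [zero_smul, zero_add] at hab
    rcases smul_eq_zero.mp hab with h | h
    · exact h1 rfl h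
    · exact hw h
  exact ⟨a, -b, ha, by rw [neg_smul]; exact eq_neg_of_add_eq_zero_left hab⟩

/-- independence tested by functionals: `ψ v ≠ 0`, `ψ w = 0`, `w ≠ 0` -/
theorem indep_of_dot {v w ψ : ι → ℤ} (h1 : ψ ⬝ᵥ v ≠ 0) (h2 : ψ ⬝ᵥ w = 0) (hw : w ≠ 0) :
    Indep v w := by
  intro a b hab
  have h3 := congrArg (fun x => ψ ⬝ᵥ x) hab
  simp only [dotProduct_add, dotProduct_smul, dotProduct_zero, smul_eq_mul, h2, mul_zero,
    add_zero] at h3
  have ha : a = 0 := (mul_eq_zero.mp h3).resolve_right h1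
  rw [ha, zero_smul, zero_add] at hab
  exact ⟨ha, (smul_eq_zero.mp hab).resolve_right hw⟩

theorem same_centre (hcard : 3 ≤ Fintype.card ι) {H : Subgroup (SpecialLinearGroup ι ℤ)}
    (hD : ZDense H) {e φ e' φ' : ι → ℤ} (h0 : φ ⬝ᵥ e = 0) (h0' : φ' ⬝ᵥ e' = 0)
    (t : tv e φ ∈ H) (t' : tv e' φ' ∈ H) (he : e ≠ 0) {a b : ℤ} (ha : a ≠ 0)
    (hab : a • e = b • e') (hind : Indep φ φ') : H.FiniteIndex := by
  have hb : b ≠ 0 := by
    rintro rfl
    rw [zero_smul] at hab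
    rcases smul_eq_zero.mp hab with h | h
    · exact ha h
    · exact he h
  have h1 : tv (a • e) φ ∈ H := by rw [tv_smul_comm h0]; exact tv_smul_mem h0 t a
  have h2 : tv (a • e) φ' ∈ H := by rw [hab, tv_smul_comm h0']; exact tv_smul_mem h0' t' b
  exact center_lemma hcard hD (smul_ne_zero ha he) (by rw [dotProduct_smul, h0, smul_zero])
    (by rw [hab, dotProduct_smul, h0', smul_zero]) hind h1 h2

/-- two transvections with the same axis and independent centres -/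
theorem same_axis_aux (hcard : 3 ≤ Fintype.card ι) {H : Subgroup (SpecialLinearGroup ι ℤ)}
    (hD : ZDense H) {e e' φ : ι → ℤ} (h0 : φ ⬝ᵥ e = 0) (h0' : φ ⬝ᵥ e' = 0)
    (t : tv e φ ∈ H) (t' : tv e' φ ∈ H) (hφ : φ ≠ 0) (hind : Indep e e') : H.FiniteIndex := by
  have he := hind.ne_left
  obtain ⟨h, hh, h1, h2⟩ := exists_H_dot2 hD hφ hφ he he
  set y : ι → ℤ := (h : Matrix ι ι ℤ) *ᵥ e with hy
  set β : ι → ℤ := φ ᵥ* ((h⁻¹ : SpecialLinearGroup ι ℤ) : Matrix ι ι ℤ) with hβ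
  have hβy : β ⬝ᵥ y = 0 := by rw [hβ, hy, vecMul_inv_dot, h0]
  have hTy : tv y β ∈ H := conj_mem h0 t hh
  rw [dotProduct_mulVec, ← hβ] at h2
  set x : ι → ℤ := (β ⬝ᵥ e') • e + (-(β ⬝ᵥ e)) • e' with hx
  have hx0 : x ≠ 0 := fun h => h2 (neg_eq_zero.mp (hind _ _ h).2)
  have hφx : φ ⬝ᵥ x = 0 := by
    rw [hx, dotProduct_add, dotProduct_smul, dotProduct_smul, h0, h0']; simp
  have hβx : β ⬝ᵥ x = 0 := by
    rw [hx, dotProduct_add, dotProduct_smul, dotProduct_smul]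
    simp only [smul_eq_mul]; ring
  have hTx : tv x φ ∈ H := by
    rw [hx, tv_add_left (by rw [dotProduct_smul, h0, smul_zero])
      (by rw [dotProduct_smul, h0', smul_zero]), tv_smul_comm h0, tv_smul_comm h0']
    exact Subgroup.mul_mem _ (tv_smul_mem h0 t _) (tv_smul_mem h0' t' _)
  have hc := comm_mem hφx hβy hβx hTx hTy
  refine center_lemma hcard hD hx0 hφx (by rw [smul_dotProduct, hβx, smul_zero]) ?_ hTx hc
  intro a b hab
  have h3 := congrArg (fun w => w ⬝ᵥ y) hab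
  simp only [add_dotProduct, smul_dotProduct, zero_dotProduct, smul_eq_mul, hβy, mul_zero,
    add_zero] at h3
  have ha : a = 0 := (mul_eq_zero.mp h3).resolve_right h1
  refine ⟨ha, ?_⟩
  rw [ha, zero_smul, zero_add, smul_smul] at hab
  have hβ0 : β ≠ 0 := vecMul_ne_zero _ hφ
  exact (mul_eq_zero.mp ((smul_eq_zero.mp hab).resolve_right hβ0)).resolve_right h1

theorem same_axis (hcard : 3 ≤ Fintype.card ι) {H : Subgroup (SpecialLinearGroup ι ℤ)}
    (hD : ZDense H) {e φ e' φ' : ι → ℤ} (h0 : φ ⬝ᵥ e = 0) (h0' : φ' ⬝ᵥ e' = 0)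
    (t : tv e φ ∈ H) (t' : tv e' φ' ∈ H) (hφ : φ ≠ 0) {a b : ℤ} (ha : a ≠ 0)
    (hab : a • φ = b • φ') (hind : Indep e e') : H.FiniteIndex := by
  have h1 : tv e (a • φ) ∈ H := tv_smul_mem h0 t a
  have h2 : tv e' (a • φ) ∈ H := by rw [hab]; exact tv_smul_mem h0' t' b
  exact same_axis_aux hcard hD (by rw [smul_dotProduct, h0, smul_zero])
    (by rw [hab, smul_dotProduct, h0', smul_zero]) h1 h2 (smul_ne_zero ha hφ) hind

end Pool.Agent.H48SL
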