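import Pool.Agent.helper48.SLn.Dense

/-!
A Zariski dense subgroup of `SL(ι, ℤ)` which contains two independent
transvections with the same centre has finite index.
-/

namespace Pool.Agent.H48SL

open Matrix

variable {ι : Type*} [Fintype ι] [DecidableEq ι]

/-- integer vector as a rational vector -/
def castV (w : ι → ℤ) : ι → ℚ := fun i => (w i : ℚ)

theorem dual_int (f : (ι → ℚ) →ₗ[ℚ] ℚ) :
    ∃ N : ℤ, N ≠ 0 ∧ ∃ v : ι → ℤ, ∀ w : ι → ℤ, ((v ⬝ᵥ w : ℤ) : ℚ) = N * f (castV w) := by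
  classical
  set q : ι → ℚ := fun i => f (Pi.single i 1) with hq
  set N : ℤ := ∏ i, ((q i).den : ℤ) with hN
  have hN0 : N ≠ 0 := by
    rw [hN, Finset.prod_ne_zero_iff]
    intro i _
    exact_mod_cast (q i).den_ne_zero
  have h1 : ∀ i, ∃ v : ℤ, (v : ℚ) = N * q i := by
    intro i
    obtain ⟨m, hm⟩ : ((q i).den : ℤ) ∣ N := Finset.dvd_prod_of_mem _ (Finset.mem_univ i)
    refine ⟨m * (q i).num, ?_⟩
    rw [hm]
    push_cast
    have h2 := Rat.mul_den_eq_num (q i)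
    have h3 : ((q i).num : ℚ) = q i * (q i).den := h2.symm
    rw [h3]; ring
  choose v hv using h1
  refine ⟨N, hN0, v, ?_⟩
  intro w
  have h2 : castV w = ∑ i, (w i : ℚ) • (Pi.single i 1 : ι → ℚ) := by
    ext j
    simp [castV, Finset.sum_apply, Pi.single_apply]
  rw [h2, map_sum, Finset.mul_sum]
  unfold dotProduct
  push_cast
  apply Finset.sum_congr rfl
  intro i _
  rw [map_smul, smul_eq_mul, hv i]
  simp only [hq]
  ring

theorem exists_multiple {H : Subgroup (SpecialLinearGroup ι ℤ)} (hD : ZDense H)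
    {e φ1 φ2 : ι → ℤ} (he : e ≠ 0) (h1 : φ1 ⬝ᵥ e = 0) (h2 : φ2 ⬝ᵥ e = 0)
    (hind : ∀ a b : ℤ, a • φ1 + b • φ2 = 0 → a = 0 ∧ b = 0)
    (t1 : tv e φ1 ∈ H) (t2 : tv e φ2 ∈ H) (φ : ι → ℤ) (hφ : φ ⬝ᵥ e = 0) :
    ∃ k : ℤ, k ≠ 0 ∧ tv e (k • φ) ∈ H := by
  classical
  set W : Submodule ℚ (ι → ℚ) :=
    Submodule.span ℚ (castV '' {ℓ : ι → ℤ | ℓ ⬝ᵥ e = 0 ∧ tv e ℓ ∈ H}) with hW
  by_cases hmem : castV φ ∈ W
  · have key : ∀ w ∈ W, ∃ k : ℤ, k ≠ 0 ∧ ∃ ℓ : ι → ℤ, ℓ ⬝ᵥ e = 0 ∧ tv e ℓ ∈ H ∧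
        (k : ℚ) • w = castV ℓ := by
      intro w hw
      induction hw using Submodule.span_induction with
      | mem x hx =>
        obtain ⟨ℓ, hℓ, rfl⟩ := hx
        exact ⟨1, one_ne_zero, ℓ, hℓ.1, hℓ.2, by simp⟩
      | zero =>
        refine ⟨1, one_ne_zero, 0, by simp, ?_, ?_⟩
        · rw [tv_zero_right]; exact Subgroup.one_mem _
        · ext i; simp [castV]
      | add x y _ _ hx hy =>
        obtain ⟨k1, hk1, ℓ1, a1, b1, c1⟩ := hx
        obtain ⟨k2, hk2, ℓ2, a2, b2, c2⟩ := hy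
        refine ⟨k1 * k2, mul_ne_zero hk1 hk2, k2 • ℓ1 + k1 • ℓ2, ?_, ?_, ?_⟩
        · rw [add_dotProduct, smul_dotProduct, smul_dotProduct, a1, a2]; simp
        · rw [tv_add_right (by rw [smul_dotProduct, a1, smul_zero])
            (by rw [smul_dotProduct, a2, smul_zero])]
          exact Subgroup.mul_mem _ (tv_smul_mem a1 b1 _) (tv_smul_mem a2 b2 _)
        · ext i
          have d1 := congrFun c1 i
          have d2 := congrFun c2 i
          simp only [Pi.smul_apply, smul_eq_mul, castV] at d1 d2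
          simp only [Pi.smul_apply, Pi.add_apply, smul_eq_mul, castV]
          push_cast
          rw [← d1, ← d2]; ring
      | smul r x _ hx =>
        obtain ⟨k1, hk1, ℓ1, a1, b1, c1⟩ := hx
        refine ⟨k1 * r.den, mul_ne_zero hk1 (by exact_mod_cast r.den_ne_zero), r.num • ℓ1, ?_, ?_, ?_⟩
        · rw [smul_dotProduct, a1]; simp
        · exact tv_smul_mem a1 b1 _
        · ext i
          have d1 := congrFun c1 i
          simp only [Pi.smul_apply, smul_eq_mul, castV] at d1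
          simp only [Pi.smul_apply, smul_eq_mul, castV]
          push_cast
          rw [← d1]
          have h3 : (r.num : ℚ) = r * r.den := (Rat.mul_den_eq_num r).symm
          rw [h3]; ring
    obtain ⟨k, hk, ℓ, hℓ1, hℓ2, hℓ3⟩ := key _ hmem
    refine ⟨k, hk, ?_⟩
    have : k • φ = ℓ := by
      ext i
      have d1 := congrFun hℓ3 i
      simp only [Pi.smul_apply, smul_eq_mul, castV] at d1
      simp only [Pi.smul_apply, smul_eq_mul]
      exact_mod_cast d1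
    rw [this]; exact hℓ2
  · exfalso
    obtain ⟨f, hf1, hf2⟩ := Submodule.exists_le_ker_of_notMem hmem
    obtain ⟨N, hN, v, hv⟩ := dual_int f
    have hvφ : v ⬝ᵥ φ ≠ 0 := by
      intro h0
      have h3 := hv φ
      rw [h0, Int.cast_zero] at h3
      rcases mul_eq_zero.mp h3.symm with h | h
      · exact hN (by exact_mod_cast h)
      · exact hf1 h
    have hvL : ∀ ℓ : ι → ℤ, ℓ ⬝ᵥ e = 0 → tv e ℓ ∈ H → ℓ ⬝ᵥ v = 0 := by
      intro ℓ hℓ1 hℓ2
      have h3 : f (castV ℓ) = 0 := hf2 (Submodule.subset_span ⟨ℓ, ⟨hℓ1, hℓ2⟩, rfl⟩)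
      have h4 := hv ℓ
      rw [h3, mul_zero] at h4
      rw [dotProduct_comm]
      exact_mod_cast h4
    obtain ⟨ℓ, hℓ1, hℓ2, hℓ3⟩ := exists_functional hD he h1 h2 hind t1 t2 v (by
      intro a b hab
      have h3 := congrArg (fun w => w ⬝ᵥ φ) hab
      simp only [add_dotProduct, smul_dotProduct, zero_dotProduct, smul_eq_mul] at h3
      rw [dotProduct_comm e φ, hφ, mul_zero, add_zero] at h3
      have ha : a = 0 := by
        rcases mul_eq_zero.mp h3 with h | h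
        · exact h
        · exact absurd h hvφ
      rw [ha, zero_smul, zero_add] at hab
      refine ⟨ha, ?_⟩
      by_contra hb
      apply he
      rcases smul_eq_zero.mp hab with h | h
      · exact absurd h hb
      · exact h)
    exact hℓ3 (hvL ℓ hℓ1 hℓ2)

theorem exists_uniform {H : Subgroup (SpecialLinearGroup ι ℤ)} {e : ι → ℤ} (he : e ≠ 0)
    (hk : ∀ φ : ι → ℤ, φ ⬝ᵥ e = 0 → ∃ k : ℤ, k ≠ 0 ∧ tv e (k • φ) ∈ H) :
    ∃ m : ℤ, m ≠ 0 ∧ ∀ φ : ι → ℤ, φ ⬝ᵥ e = 0 → tv e (m • φ) ∈ H := by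
  obtain ⟨i0, hi0⟩ := Function.ne_iff.mp he
  rw [Pi.zero_apply] at hi0
  set ψ : ι → ι → ℤ := fun j => e i0 • Pi.single j 1 - e j • Pi.single i0 1 with hψ
  have hψe : ∀ j, ψ j ⬝ᵥ e = 0 := by
    intro j
    simp only [hψ, sub_dotProduct, smul_dotProduct, single_one_dotProduct, smul_eq_mul]
    ring
  choose k hk0 hkH using fun j => hk (ψ j) (hψe j)
  refine ⟨e i0 * ∏ j, k j, mul_ne_zero hi0 (Finset.prod_ne_zero_iff.mpr fun j _ => hk0 j), ?_⟩
  intro φ hφ
  have h1 : (e i0 * ∏ j, k j) • φ = ∑ j, (φ j * ∏ i ∈ Finset.univ.erase j, k i) • (k j • ψ j) := by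
    have h2 : ∀ j, (φ j * ∏ i ∈ Finset.univ.erase j, k i) • (k j • ψ j)
        = (∏ i, k i) • (φ j • ψ j) := by
      intro j
      rw [smul_smul, smul_smul, ← Finset.mul_prod_erase _ _ (Finset.mem_univ j)]
      congr 1; ring
    simp_rw [h2]
    rw [← Finset.smul_sum, mul_comm, ← smul_smul]
    congr 1
    ext l
    simp only [Finset.sum_apply, Pi.smul_apply, hψ, Pi.sub_apply, smul_eq_mul]
    have h3 : ∑ x, φ x * (e i0 * (Pi.single x 1 : ι → ℤ) l - e x * (Pi.single i0 1 : ι → ℤ) l)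
        = e i0 * φ l - (φ ⬝ᵥ e) * (Pi.single i0 1 : ι → ℤ) l := by
      simp_rw [mul_sub, Finset.sum_sub_distrib]
      congr 1
      · rw [Finset.sum_eq_single l]
        · simp; ring
        · intro b _ hb; simp [Pi.single_apply, hb.symm]
        · intro h; exact absurd (Finset.mem_univ l) h
      · unfold dotProduct
        rw [Finset.sum_mul]
        apply Finset.sum_congr rfl
        intro x _; ring
    rw [h3, hφ]; ring
  rw [h1]
  refine (tv_fsum_right Finset.univ e _ H ?_).2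
  intro j _
  have h3 : (k j • ψ j) ⬝ᵥ e = 0 := by rw [smul_dotProduct, hψe, smul_zero]
  exact ⟨by rw [smul_dotProduct, h3, smul_zero], tv_smul_mem h3 (hkH j) _⟩

theorem exists_basis {H : Subgroup (SpecialLinearGroup ι ℤ)} (hD : ZDense H) {e : ι → ℤ}
    (he : e ≠ 0) : ∃ h : ι → SpecialLinearGroup ι ℤ, (∀ i, h i ∈ H) ∧
      (Matrix.of (fun k i => ((h i : Matrix ι ι ℤ) *ᵥ e) k)).det ≠ 0 := by
  classical
  set S : Set (ι → ℚ) := castV '' {w : ι → ℤ | ∃ h ∈ H, w = (h : Matrix ι ι ℤ) *ᵥ e} with hS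
  have hspan : Submodule.span ℚ S = ⊤ := by
    by_contra hne
    obtain ⟨f, hf0, hf⟩ := Submodule.exists_le_ker_of_lt_top _ (lt_top_iff_ne_top.mpr hne)
    obtain ⟨N, hN, v, hv⟩ := dual_int f
    have hv0 : v ≠ 0 := by
      rintro rfl
      apply hf0
      apply LinearMap.pi_ext'
      intro i
      apply LinearMap.ext_ring
      have h1 := hv (Pi.single i 1)
      rw [zero_dotProduct, Int.cast_zero] at h1
      have h2 : castV (Pi.single i 1 : ι → ℤ) = (Pi.single i 1 : ι → ℚ) := by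
        ext j
        by_cases hj : j = i
        · subst hj; simp [castV]
        · simp [castV, hj]
      rw [h2] at h1
      rcases mul_eq_zero.mp h1.symm with h | h
      · exact absurd (by exact_mod_cast h) hN
      · simpa using h
    obtain ⟨g, hg, hg1, _⟩ := exists_H_dot2 hD hv0 hv0 he he
    apply hg1
    have h3 : f (castV ((g : Matrix ι ι ℤ) *ᵥ e)) = 0 :=
      hf (Submodule.subset_span ⟨_, ⟨g, hg, rfl⟩, rfl⟩)
    have h4 := hv ((g : Matrix ι ι ℤ) *ᵥ e)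
    rw [h3, mul_zero] at h4
    exact_mod_cast h4
  obtain ⟨b, hbS, hbspan, hbli⟩ := exists_linearIndependent ℚ S
  set B : Module.Basis b ℚ (ι → ℚ) := Module.Basis.mk hbli (by
    rw [Subtype.range_coe_subtype, Set.setOf_mem_eq, hbspan, hspan]) with hB
  set σ : ι ≃ b := (Pi.basisFun ℚ ι).indexEquiv B with hσ
  have h1 : ∀ i, ∃ h : SpecialLinearGroup ι ℤ, h ∈ H ∧ castV ((h : Matrix ι ι ℤ) *ᵥ e) = (σ i : ι → ℚ) := by
    intro i
    obtain ⟨w, ⟨h, hh, rfl⟩, hw⟩ := hbS (σ i).2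
    exact ⟨h, hh, hw⟩
  choose h hh hhe using h1
  refine ⟨h, hh, ?_⟩
  have hli : LinearIndependent ℚ (fun i => ((σ i : b) : ι → ℚ)) := hbli.comp σ σ.injective
  set A : Matrix ι ι ℚ := Matrix.of (fun i => ((σ i : b) : ι → ℚ)) with hA
  have hunit : IsUnit A := by
    rw [← Matrix.linearIndependent_rows_iff_isUnit]
    exact hli
  have hdetA : A.det ≠ 0 := by
    rw [Matrix.isUnit_iff_isUnit_det] at hunit
    exact hunit.ne_zero
  intro h0
  apply hdetA
  rw [← Matrix.det_transpose]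
  have h2 : Aᵀ = ((Matrix.of (fun k i => ((h i : Matrix ι ι ℤ) *ᵥ e) k)).map (Int.castRingHom ℚ)) := by
    ext k i
    rw [Matrix.transpose_apply, Matrix.map_apply]
    have := congrFun (hhe i) k
    simp only [castV] at this
    rw [hA]
    exact this.symm
  rw [h2, ← RingHom.mapMatrix_apply, ← RingHom.map_det, h0, map_zero]

theorem center_lemma (hcard : 3 ≤ Fintype.card ι) {H : Subgroup (SpecialLinearGroup ι ℤ)}
    (hD : ZDense H) {e φ1 φ2 : ι → ℤ} (he : e ≠ 0) (h1 : φ1 ⬝ᵥ e = 0) (h2 : φ2 ⬝ᵥ e = 0)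
    (hind : ∀ a b : ℤ, a • φ1 + b • φ2 = 0 → a = 0 ∧ b = 0)
    (t1 : tv e φ1 ∈ H) (t2 : tv e φ2 ∈ H) : H.FiniteIndex := by
  obtain ⟨m, hm, hmH⟩ := exists_uniform he
    (fun φ hφ => exists_multiple hD he h1 h2 hind t1 t2 φ hφ)
  obtain ⟨h, hh, hdet⟩ := exists_basis hD he
  set F : Matrix ι ι ℤ := Matrix.of (fun k i => ((h i : Matrix ι ι ℤ) *ᵥ e) k) with hF
  have hcol : ∀ i, (fun k => F k i) = (h i : Matrix ι ι ℤ) *ᵥ e := fun i => rfl
  have hle : NQ ι (m ^ 2 * F.det ^ 4) ≤ H := by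
    apply NQ_le_of_basis F hcard H m
    intro i φ hφ
    rw [hcol] at hφ ⊢
    have h3 : (φ ᵥ* (h i : Matrix ι ι ℤ)) ⬝ᵥ e = 0 := by
      rw [← dotProduct_mulVec]; exact hφ
    have h4 := conj_mem (by rw [smul_dotProduct, h3, smul_zero]) (hmH _ h3) (hh i)
    have h5 : (m • (φ ᵥ* (h i : Matrix ι ι ℤ))) ᵥ* (((h i)⁻¹ : SpecialLinearGroup ι ℤ) : Matrix ι ι ℤ)
        = m • φ := by
      rw [smul_vecMul, vecMul_vecMul, ← Matrix.SpecialLinearGroup.coe_mul, mul_inv_cancel,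
        Matrix.SpecialLinearGroup.coe_one, vecMul_one]
    rwa [h5] at h4
  have hq0 : (m ^ 2 * F.det ^ 4).natAbs ≠ 0 := by
    rw [Int.natAbs_ne_zero]
    exact mul_ne_zero (pow_ne_zero _ hm) (pow_ne_zero _ hdet)
  have hq : (((m ^ 2 * F.det ^ 4).natAbs : ℕ) : ℤ) = m ^ 2 * F.det ^ 4 := by
    rw [Int.natCast_natAbs, abs_of_nonneg (by positivity)]
  have hfi := NQ_finiteIndex (ι := ι) _ hq0 hcard
  rw [hq] at hfi
  exact Subgroup.finiteIndex_of_le hle

end Pool.Agent.H48SL
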