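import Pool.Agent.helper48.SLn.Center

/-!
Common non-vanishing of finitely many polynomial functions on a Zariski dense subgroup of
`SL(ι, ℤ)` (irreducibility of `SL(ι)`).
-/

namespace Pool.Agent.H48SL

open Matrix

variable {ι : Type*} [Fintype ι] [DecidableEq ι]

theorem IsPoly.line {F : SpecialLinearGroup ι ℤ → ℤ} (hF : IsPoly F)
    (a b : SpecialLinearGroup ι ℤ) {i j : ι} (hij : i ≠ j) :
    ∃ P : Polynomial ℤ, ∀ t : ℤ, F (a * xe i j t * b) = P.eval t := by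
  obtain ⟨P, hP⟩ := hF
  set f : ι × ι → Polynomial ℤ := fun x =>
    Polynomial.C (((a * b : SpecialLinearGroup ι ℤ) : Matrix ι ι ℤ) x.1 x.2) +
      Polynomial.X * Polynomial.C ((a : Matrix ι ι ℤ) x.1 i * (b : Matrix ι ι ℤ) j x.2) with hf
  refine ⟨MvPolynomial.aeval f P, fun t => ?_⟩
  have h1 : ∀ x : ι × ι, ((a * xe i j t * b : SpecialLinearGroup ι ℤ) : Matrix ι ι ℤ) x.1 x.2
      = Polynomial.eval t (f x) := by
    intro x
    rw [hf]
    simp only [Polynomial.eval_add, Polynomial.eval_C, Polynomial.eval_mul, Polynomial.eval_X]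
    rw [Matrix.SpecialLinearGroup.coe_mul, Matrix.SpecialLinearGroup.coe_mul, xe,
      tv_coe (single_dot hij t), Matrix.mul_add, Matrix.add_mul, Matrix.mul_one,
      Matrix.add_apply, Matrix.SpecialLinearGroup.coe_mul]
    congr 1
    rw [mul_vecMulVec, vecMulVec_mul, vecMulVec_apply]
    simp only [mulVec_single_one, single_vecMul, Pi.smul_apply, smul_eq_mul]
    simp [Matrix.col, Matrix.row]
    ring
  rw [hP]
  have h2 : (fun x : ι × ι => ((a * xe i j t * b : SpecialLinearGroup ι ℤ) : Matrix ι ι ℤ) x.1 x.2)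
      = fun x => Polynomial.eval t (f x) := funext h1
  rw [h2]
  clear h1 h2 hP
  induction P using MvPolynomial.induction_on with
  | C c => simp
  | add p q hp hq => simp only [map_add, Polynomial.eval_add] at *; rw [hp, hq]
  | mul_X p x hp => simp only [map_mul, Polynomial.eval_mul, MvPolynomial.aeval_X, MvPolynomial.eval_X] at *; rw [hp]

theorem exists_common_zero_free {P Q : Polynomial ℤ} (hP : P ≠ 0) (hQ : Q ≠ 0) :
    ∃ t : ℤ, P.eval t ≠ 0 ∧ Q.eval t ≠ 0 := by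
  obtain ⟨t, ht⟩ : ∃ t : ℤ, (P * Q).eval t ≠ 0 := by
    by_contra hcon
    push Not at hcon
    exact mul_ne_zero hP hQ (Polynomial.funext (fun t => by rw [hcon t]; simp))
  rw [Polynomial.eval_mul] at ht
  exact ⟨t, left_ne_zero_of_mul ht, right_ne_zero_of_mul ht⟩

theorem common_aux {F G : SpecialLinearGroup ι ℤ → ℤ} (hF : IsPoly F) (hG : IsPoly G)
    (w : SpecialLinearGroup ι ℤ) :
    ∀ g : SpecialLinearGroup ι ℤ, F g ≠ 0 → G (g * w) ≠ 0 → ∃ g', F g' ≠ 0 ∧ G g' ≠ 0 := by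
  have hw : w ∈ Subgroup.closure {x : SpecialLinearGroup ι ℤ |
      ∃ i ∈ (Finset.univ : Finset ι), ∃ j ∈ (Finset.univ : Finset ι), i ≠ j ∧ ∃ c : ℤ, x = xe i j c} := by
    have h := Subgroup.mem_top w
    rw [← ES_univ] at h
    exact h
  have step : ∀ (i j : ι) (hij : i ≠ j) (c : ℤ) (y : SpecialLinearGroup ι ℤ),
      (∀ g : SpecialLinearGroup ι ℤ, F g ≠ 0 → G (g * y) ≠ 0 → ∃ g', F g' ≠ 0 ∧ G g' ≠ 0) →
      ∀ g : SpecialLinearGroup ι ℤ, F g ≠ 0 → G (g * (xe i j c * y)) ≠ 0 →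
        ∃ g', F g' ≠ 0 ∧ G g' ≠ 0 := by
    intro i j hij c y ih g hFg hGg
    obtain ⟨P, hP⟩ := hF.line g 1 hij
    obtain ⟨Q, hQ⟩ := hG.line g y hij
    have hP0 : P ≠ 0 := by
      rintro rfl
      have := hP 0
      rw [Polynomial.eval_zero, mul_one] at this
      apply hFg
      have h0 : xe i j (0 : ℤ) = 1 := by
        unfold xe
        rw [Pi.single_zero, tv_zero_right]
      rwa [h0, mul_one] at this
    have hQ0 : Q ≠ 0 := by
      rintro rfl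
      have := hQ c
      rw [Polynomial.eval_zero] at this
      apply hGg
      rw [← mul_assoc]; exact this
    obtain ⟨t, ht1, ht2⟩ := exists_common_zero_free hP0 hQ0
    apply ih (g * xe i j t)
    · have := hP t
      rw [mul_one] at this
      rwa [this]
    · rw [hQ t]; exact ht2
  induction hw using Subgroup.closure_induction_left with
  | one =>
    intro g h1 h2
    rw [mul_one] at h2
    exact ⟨g, h1, h2⟩
  | mul_left x hx y hy ih =>
    obtain ⟨i, _, j, _, hij, c, rfl⟩ := hx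
    exact step i j hij c y ih
  | inv_mul_cancel x hx y hy ih =>
    obtain ⟨i, _, j, _, hij, c, rfl⟩ := hx
    rw [xe_inv hij]
    exact step i j hij (-c) y ih

theorem exists_common {F G : SpecialLinearGroup ι ℤ → ℤ} (hF : IsPoly F) (hG : IsPoly G)
    (h1 : ∃ g, F g ≠ 0) (h2 : ∃ g, G g ≠ 0) : ∃ g, F g ≠ 0 ∧ G g ≠ 0 := by
  obtain ⟨a, ha⟩ := h1
  obtain ⟨b, hb⟩ := h2
  exact common_aux hF hG (a⁻¹ * b) a ha (by rw [mul_inv_cancel_left]; exact hb)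

/-- a nonzero polynomial function -/
def NZ (F : SpecialLinearGroup ι ℤ → ℤ) : Prop := IsPoly F ∧ ∃ g, F g ≠ 0

theorem NZ.mul {F G : SpecialLinearGroup ι ℤ → ℤ} (hF : NZ F) (hG : NZ G) :
    NZ (fun g => F g * G g) := by
  obtain ⟨g, h1, h2⟩ := exists_common hF.1 hG.1 hF.2 hG.2
  exact ⟨hF.1.mul hG.1, g, mul_ne_zero h1 h2⟩

theorem NZ.dense {F : SpecialLinearGroup ι ℤ → ℤ} (hF : NZ F) {H : Subgroup (SpecialLinearGroup ι ℤ)}
    (hD : ZDense H) : ∃ h ∈ H, F h ≠ 0 := by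
  obtain ⟨g, hg⟩ := hF.2
  exact dense_exists hD F hF.1 g hg

theorem NZ.dot {ψ e : ι → ℤ} (hψ : ψ ≠ 0) (he : e ≠ 0) :
    NZ (fun g : SpecialLinearGroup ι ℤ => ψ ⬝ᵥ ((g : Matrix ι ι ℤ) *ᵥ e)) :=
  ⟨IsPoly.dot ψ e, exists_SL_dot hψ he⟩

theorem NZ.dot_inv {ψ e : ι → ℤ} (hψ : ψ ≠ 0) (he : e ≠ 0) :
    NZ (fun g : SpecialLinearGroup ι ℤ => ψ ⬝ᵥ (((g⁻¹ : SpecialLinearGroup ι ℤ) : Matrix ι ι ℤ) *ᵥ e)) := by
  obtain ⟨g, hg⟩ := exists_SL_dot hψ he
  exact ⟨IsPoly.dot_inv ψ e, g⁻¹, by beta_reduce; rw [inv_inv]; exact hg⟩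

omit [DecidableEq ι] in
/-- two nonzero functionals have a common non-vanishing integer vector -/
theorem exists_dot_ne {ψ φ : ι → ℤ} (hψ : ψ ≠ 0) (hφ : φ ≠ 0) :
    ∃ x : ι → ℤ, ψ ⬝ᵥ x ≠ 0 ∧ φ ⬝ᵥ x ≠ 0 := by
  have h1 : ψ ⬝ᵥ ψ ≠ 0 := by rwa [Ne, dotProduct_self_eq_zero]
  have h2 : φ ⬝ᵥ φ ≠ 0 := by rwa [Ne, dotProduct_self_eq_zero]
  by_cases h3 : φ ⬝ᵥ ψ = 0
  · refine ⟨ψ + φ, ?_, ?_⟩
    · rw [dotProduct_add, dotProduct_comm ψ φ, h3, add_zero]; exact h1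
    · rw [dotProduct_add, h3, zero_add]; exact h2
  · exact ⟨ψ, h1, h3⟩

end Pool.Agent.H48SL
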