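import Pool.Agent.helper48.SLn.Three

/-!
The centraliser in `SL(3, ℤ)` of an element with eigenvalues `1, λ, λ⁻¹`, `|λ| > 1`, is virtually
cyclic; abelian subgroups of thin subgroups of `SL(3, ℤ)`.
-/

namespace Pool.Agent.H48SL

open Matrix

/-- The real matrix of an integer matrix. -/
noncomputable def rm (M : Matrix (Fin 3) (Fin 3) ℤ) : Matrix (Fin 3) (Fin 3) ℝ :=
  (Int.castRingHom ℝ).mapMatrix M

theorem rm_apply (M : Matrix (Fin 3) (Fin 3) ℤ) (i j : Fin 3) : rm M i j = (M i j : ℝ) := rfl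

theorem rm_mul (A B : Matrix (Fin 3) (Fin 3) ℤ) : rm (A * B) = rm A * rm B := map_mul _ _ _

theorem rm_one : rm 1 = 1 := map_one _

theorem rm_det (M : Matrix (Fin 3) (Fin 3) ℤ) : (rm M).det = (M.det : ℝ) := by
  have := (Int.castRingHom ℝ).map_det M
  exact this.symm

/-- Conjugated real representation. -/
noncomputable def Ph (P : Matrix (Fin 3) (Fin 3) ℝ) (g : SpecialLinearGroup (Fin 3) ℤ) :
    Matrix (Fin 3) (Fin 3) ℝ := P⁻¹ * rm (g : Matrix (Fin 3) (Fin 3) ℤ) * P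

section

variable {P : Matrix (Fin 3) (Fin 3) ℝ} (hP : P.det ≠ 0)

include hP

theorem PPinv : P * P⁻¹ = 1 := Matrix.mul_nonsing_inv P (Ne.isUnit hP)

theorem PinvP : P⁻¹ * P = 1 := Matrix.nonsing_inv_mul P (Ne.isUnit hP)

theorem Ph_mul (g h : SpecialLinearGroup (Fin 3) ℤ) : Ph P (g * h) = Ph P g * Ph P h := by
  unfold Ph
  rw [Matrix.SpecialLinearGroup.coe_mul, rm_mul]
  calc P⁻¹ * (rm ↑g * rm ↑h) * P = P⁻¹ * rm ↑g * 1 * (rm ↑h * P) := by
        simp only [Matrix.mul_assoc, Matrix.one_mul, Matrix.mul_one]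
    _ = P⁻¹ * rm ↑g * (P * P⁻¹) * (rm ↑h * P) := by rw [PPinv hP]
    _ = _ := by simp only [Matrix.mul_assoc]

theorem Ph_one : Ph P 1 = 1 := by
  unfold Ph
  rw [Matrix.SpecialLinearGroup.coe_one, rm_one, Matrix.mul_one, PinvP hP]

theorem Ph_pow (g : SpecialLinearGroup (Fin 3) ℤ) (n : ℕ) : Ph P (g ^ n) = Ph P g ^ n := by
  induction n with
  | zero => rw [pow_zero, pow_zero, Ph_one hP]
  | succ n ih => rw [pow_succ, pow_succ, Ph_mul hP, ih]

theorem Ph_zpow {g : SpecialLinearGroup (Fin 3) ℤ} {d : Fin 3 → ℝ} (hd : ∀ i, d i ≠ 0)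
    (hg : Ph P g = diagonal d) (m : ℤ) : Ph P (g ^ m) = diagonal (fun i => d i ^ m) := by
  have hnat : ∀ n : ℕ, Ph P (g ^ n) = diagonal (fun i => d i ^ n) := by
    intro n
    rw [Ph_pow hP, hg, Matrix.diagonal_pow]
    rfl
  obtain ⟨n, rfl | rfl⟩ := m.eq_nat_or_neg
  · rw [zpow_natCast, hnat]
    simp
  · have h1 : Ph P (g ^ (-(n : ℤ))) * Ph P (g ^ n) = 1 := by
      rw [← Ph_mul hP, _root_.zpow_neg, zpow_natCast, inv_mul_cancel, Ph_one hP]
    rw [hnat] at h1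
    have h2 : Ph P (g ^ (-(n : ℤ))) * diagonal (fun i => d i ^ n) *
        diagonal (fun i => (d i ^ n)⁻¹) = diagonal (fun i => (d i ^ n)⁻¹) := by
      rw [h1, Matrix.one_mul]
    rw [Matrix.mul_assoc, Matrix.diagonal_mul_diagonal] at h2
    have h3 : (fun i => d i ^ n * (d i ^ n)⁻¹) = fun _ => (1 : ℝ) := by
      funext i
      exact mul_inv_cancel₀ (pow_ne_zero _ (hd i))
    rw [h3, Matrix.diagonal_one, Matrix.mul_one] at h2
    rw [h2]
    congr 1
    funext i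
    rw [_root_.zpow_neg, zpow_natCast]

/-- Anything commuting with an element with distinct eigenvalues is diagonal. -/
theorem Ph_diag {g h : SpecialLinearGroup (Fin 3) ℤ} {d : Fin 3 → ℝ}
    (hdist : ∀ i j, i ≠ j → d i ≠ d j) (hg : Ph P g = diagonal d) (hc : g * h = h * g) :
    Ph P h = diagonal (fun i => Ph P h i i) := by
  have h1 : diagonal d * Ph P h = Ph P h * diagonal d := by
    rw [← hg, ← Ph_mul hP, ← Ph_mul hP, hc]
  ext i j
  by_cases hij : i = j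
  · subst hij; simp
  · rw [Matrix.diagonal_apply_ne _ hij]
    have h2 := congrFun (congrFun h1 i) j
    rw [Matrix.diagonal_mul, Matrix.mul_diagonal] at h2
    have h3 : (d i - d j) * Ph P h i j = 0 := by linarith
    exact (mul_eq_zero.mp h3).resolve_left (sub_ne_zero.mpr (hdist i j hij))

theorem Ph_det (g : SpecialLinearGroup (Fin 3) ℤ) : (Ph P g).det = 1 := by
  unfold Ph
  rw [Matrix.det_mul, Matrix.det_mul, rm_det, Matrix.SpecialLinearGroup.det_coe]
  have : P⁻¹.det * P.det = 1 := by rw [← Matrix.det_mul, PinvP hP, Matrix.det_one]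
  push_cast
  linarith

theorem Ph_back (g : SpecialLinearGroup (Fin 3) ℤ) :
    rm (g : Matrix (Fin 3) (Fin 3) ℤ) = P * Ph P g * P⁻¹ := by
  unfold Ph
  calc rm ↑g = 1 * rm ↑g * 1 := by rw [Matrix.one_mul, Matrix.mul_one]
    _ = (P * P⁻¹) * rm ↑g * (P * P⁻¹) := by rw [PPinv hP]
    _ = _ := by simp only [Matrix.mul_assoc]

end

/-- If an integer matrix of determinant one has a nonzero integer eigenvector with real eigenvalue
`μ` then `|μ| ≥ 1`. -/
theorem one_le_abs_eig {g : SpecialLinearGroup (Fin 3) ℤ} {e : Fin 3 → ℤ} (he : e ≠ 0) {μ : ℝ}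
    (hμ : rm (g : Matrix (Fin 3) (Fin 3) ℤ) *ᵥ (fun i => (e i : ℝ)) = μ • (fun i => (e i : ℝ))) :
    1 ≤ |μ| := by
  by_contra hlt
  push Not at hlt
  have hpow : ∀ k : ℕ, rm ((g ^ k : SpecialLinearGroup (Fin 3) ℤ) : Matrix (Fin 3) (Fin 3) ℤ) *ᵥ
      (fun i => (e i : ℝ)) = (μ ^ k) • (fun i => (e i : ℝ)) := by
    intro k
    induction k with
    | zero => rw [pow_zero, Matrix.SpecialLinearGroup.coe_one, rm_one, Matrix.one_mulVec, pow_zero,
        one_smul]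
    | succ k ih => rw [pow_succ, Matrix.SpecialLinearGroup.coe_mul, rm_mul, ← Matrix.mulVec_mulVec, hμ,
        Matrix.mulVec_smul, ih, smul_smul, pow_succ']
  obtain ⟨i, hi⟩ : ∃ i, e i ≠ 0 := by
    by_contra hcon
    push Not at hcon
    exact he (funext hcon)
  have hcast : ∀ (M : Matrix (Fin 3) (Fin 3) ℤ) (j : Fin 3),
      (rm M *ᵥ (fun i => (e i : ℝ))) j = ((M *ᵥ e) j : ℤ) := by
    intro M j
    simp only [Matrix.mulVec, dotProduct, rm_apply]
    push_cast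
    rfl
  have hei : (0 : ℝ) < |(e i : ℝ)| := abs_pos.mpr (by exact_mod_cast hi)
  obtain ⟨k, hk⟩ := exists_pow_lt_of_lt_one (show (0 : ℝ) < 1 / |(e i : ℝ)| by positivity) hlt
  have h1 : ∀ k', k ≤ k' → |μ| ^ k' * |(e i : ℝ)| < 1 := by
    intro k' hk'
    have h2 : |μ| ^ k' ≤ |μ| ^ k := pow_le_pow_of_le_one (abs_nonneg _) hlt.le hk'
    calc |μ| ^ k' * |(e i : ℝ)| ≤ |μ| ^ k * |(e i : ℝ)| := by gcongr
      _ < 1 / |(e i : ℝ)| * |(e i : ℝ)| := by gcongr
      _ = 1 := by field_simp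
  have h3 : μ ^ k * (e i : ℝ) = (((g ^ k : SpecialLinearGroup (Fin 3) ℤ) :
      Matrix (Fin 3) (Fin 3) ℤ) *ᵥ e) i := by
    rw [← hcast, hpow k]
    rfl
  have h4 : |((((g ^ k : SpecialLinearGroup (Fin 3) ℤ) :
      Matrix (Fin 3) (Fin 3) ℤ) *ᵥ e) i : ℝ)| < 1 := by
    rw [← h3, abs_mul, abs_pow]
    exact h1 k le_rfl
  have h5 : (((g ^ k : SpecialLinearGroup (Fin 3) ℤ) :
      Matrix (Fin 3) (Fin 3) ℤ) *ᵥ e) i = 0 := by
    have h6 : |(((g ^ k : SpecialLinearGroup (Fin 3) ℤ) :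
      Matrix (Fin 3) (Fin 3) ℤ) *ᵥ e) i| < 1 := by exact_mod_cast h4
    exact Int.abs_lt_one_iff.mp h6
  rw [h5] at h3
  push_cast at h3
  have h7 : μ ^ k = 0 := by
    rcases mul_eq_zero.mp h3 with h | h
    · exact h
    · exact absurd (by exact_mod_cast h) hi
  have h8 : μ = 0 := by
    by_contra hne
    exact pow_ne_zero k hne h7
  -- then `g e = 0`
  have h9 : (g : Matrix (Fin 3) (Fin 3) ℤ) *ᵥ e = 0 := by
    funext j
    have h10 := congrFun hμ j
    rw [hcast, h8, zero_smul] at h10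
    have h10' : (((g : Matrix (Fin 3) (Fin 3) ℤ) *ᵥ e) j : ℝ) = 0 := h10
    exact_mod_cast h10'
  apply he
  have h11 : (g : Matrix (Fin 3) (Fin 3) ℤ).det = 0 :=
    Matrix.exists_mulVec_eq_zero_iff.mp ⟨e, he, h9⟩
  rw [Matrix.SpecialLinearGroup.det_coe] at h11
  exact absurd h11 one_ne_zero

/-- Integer matrices with bounded entries form a finite set. -/
theorem finite_bdd (C : ℕ) : {g : SpecialLinearGroup (Fin 3) ℤ |
    ∀ i j, |(g : Matrix (Fin 3) (Fin 3) ℤ) i j| ≤ (C : ℤ)}.Finite := by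
  have hfin : (Set.pi Set.univ (fun _ : Fin 3 => Set.pi Set.univ
      (fun _ : Fin 3 => Set.Icc (-(C : ℤ)) C))).Finite :=
    Set.Finite.pi fun _ => Set.Finite.pi fun _ => Set.finite_Icc _ _
  refine Set.Finite.of_finite_image (f := fun g : SpecialLinearGroup (Fin 3) ℤ =>
    (fun i j => (g : Matrix (Fin 3) (Fin 3) ℤ) i j : Fin 3 → Fin 3 → ℤ)) ?_ ?_
  · refine hfin.subset ?_
    rintro _ ⟨g, hg, rfl⟩
    intro i _ j _
    exact abs_le.mp (hg i j)
  · intro g _ h _ hgh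
    exact SL_ext hgh

/-- The centraliser of an element with eigenvalues `λ, λ⁻¹, 1` is virtually cyclic. -/
theorem hyp_cyclic {w u : SpecialLinearGroup (Fin 3) ℤ} (hwu : w * u = u * w)
    {P : Matrix (Fin 3) (Fin 3) ℝ} (hP : P.det ≠ 0) {l : ℝ} (hl : 1 < |l|)
    (hw : Ph P w = diagonal ![l, l⁻¹, 1]) {e : Fin 3 → ℤ} (he : e ≠ 0)
    (hPe : ∀ i, P i 2 = (e i : ℝ)) : ∃ k : ℕ, 1 ≤ k ∧ ∃ m : ℤ, u ^ k = w ^ m := by
  have hl0 : l ≠ 0 := by
    rintro rfl
    simp at hl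
    linarith
  have hlinv : |l⁻¹| < 1 := by
    rw [abs_inv]
    exact inv_lt_one_of_one_lt₀ hl
  have hd0 : ∀ i, (![l, l⁻¹, 1] : Fin 3 → ℝ) i ≠ 0 := by
    intro i
    fin_cases i <;> simp [hl0]
  have hdist : ∀ i j, i ≠ j → (![l, l⁻¹, 1] : Fin 3 → ℝ) i ≠ (![l, l⁻¹, 1] : Fin 3 → ℝ) j := by
    have a1 : l ≠ l⁻¹ := by
      intro h
      rw [← h] at hlinv
      linarith
    have a2 : l ≠ 1 := by
      rintro rfl
      simp at hl
    have a3 : l⁻¹ ≠ 1 := by
      intro h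
      rw [h] at hlinv
      simp at hlinv
    intro i j hij
    fin_cases i <;> fin_cases j <;> simp at hij ⊢ <;>
      first
        | exact a1
        | exact a2
        | exact a3
        | exact a1.symm
        | exact a2.symm
        | exact a3.symm
        | skip
  obtain ⟨μ, hμdef⟩ : ∃ μ : Fin 3 → ℝ, μ = fun i => Ph P u i i := ⟨_, rfl⟩
  have hu : Ph P u = diagonal μ := by
    rw [hμdef]
    exact Ph_diag hP hdist hw hwu
  have hdet : μ 0 * μ 1 * μ 2 = 1 := by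
    have h1 := Ph_det hP u
    rw [hu, Matrix.det_diagonal, Fin.prod_univ_three] at h1
    exact h1
  have hμ0 : ∀ i, μ i ≠ 0 := by
    have h0 : μ 0 ≠ 0 := by
      intro h; rw [h] at hdet; simp at hdet
    have h1 : μ 1 ≠ 0 := by
      intro h; rw [h] at hdet; simp at hdet
    have h2 : μ 2 ≠ 0 := by
      intro h; rw [h] at hdet; simp at hdet
    intro i
    fin_cases i
    · exact h0
    · exact h1
    · exact h2
  -- the eigenvalue on `e`
  have heig : ∀ (g : SpecialLinearGroup (Fin 3) ℤ) (ν : Fin 3 → ℝ), Ph P g = diagonal ν →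
      1 ≤ |ν 2| := by
    intro g ν hg
    refine one_le_abs_eig (g := g) he ?_
    have h1 : rm (g : Matrix (Fin 3) (Fin 3) ℤ) * P = P * diagonal ν := by
      rw [← hg]
      unfold Ph
      rw [← Matrix.mul_assoc, ← Matrix.mul_assoc, PPinv hP, Matrix.one_mul]
    funext i
    have h2 := congrFun (congrFun h1 i) 2
    rw [Matrix.mul_diagonal, hPe i, Matrix.mul_apply] at h2
    rw [Pi.smul_apply, smul_eq_mul, mul_comm (ν 2), ← h2]
    simp only [Matrix.mulVec, dotProduct]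
    refine Finset.sum_congr rfl fun j _ => ?_
    rw [hPe j]
  have h2a : 1 ≤ |μ 2| := heig u μ hu
  have h2b : 1 ≤ |(μ 2)⁻¹| := by
    have h3 := Ph_zpow hP hμ0 hu (-1)
    have h4 := heig _ _ h3
    simpa using h4
  have h2 : |μ 2| = 1 := by
    rw [abs_inv] at h2b
    have hpos : 0 < |μ 2| := abs_pos.mpr (hμ0 2)
    have h3 : |μ 2| ≤ 1 := by
      have := (one_le_inv₀ hpos).mp h2b
      exact this
    linarith
  have h01 : |μ 0| * |μ 1| = 1 := by
    have h3 : |μ 0 * μ 1 * μ 2| = 1 := by rw [hdet, abs_one]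
    rw [abs_mul, abs_mul, h2, mul_one] at h3
    exact h3
  -- exponents
  obtain ⟨L, hL⟩ : ∃ L : ℝ, L = Real.log |l| := ⟨_, rfl⟩
  have hLpos : 0 < L := by rw [hL]; exact Real.log_pos hl
  obtain ⟨κ, hκ⟩ : ∃ κ : ℝ, κ = Real.log |μ 0| := ⟨_, rfl⟩
  have hμ0pos : 0 < |μ 0| := abs_pos.mpr (hμ0 0)
  have hlpos : 0 < |l| := by linarith
  obtain ⟨m, hm⟩ : ∃ m : ℕ → ℤ, ∀ j, m j = ⌊(j : ℝ) * κ / L⌋ := ⟨_, fun _ => rfl⟩
  have ha : ∀ j : ℕ, 1 ≤ |μ 0| ^ j * |l| ^ (-(m j)) ∧ |μ 0| ^ j * |l| ^ (-(m j)) ≤ |l| := by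
    intro j
    have e1 : |μ 0| ^ j * |l| ^ (-(m j)) = Real.exp ((j : ℝ) * κ - m j * L) := by
      rw [Real.exp_sub, hκ, hL]
      rw [show (j : ℝ) * Real.log |μ 0| = Real.log |μ 0| * j by ring,
        show (m j : ℝ) * Real.log |l| = Real.log |l| * m j by ring, Real.exp_mul, Real.exp_mul,
        Real.exp_log hμ0pos, Real.exp_log hlpos, Real.rpow_natCast, Real.rpow_intCast, _root_.zpow_neg]
      rfl
    have f1 : (m j : ℝ) ≤ (j : ℝ) * κ / L := by rw [hm]; exact Int.floor_le _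
    have f2 : (j : ℝ) * κ / L < m j + 1 := by rw [hm]; exact Int.lt_floor_add_one _
    rw [le_div_iff₀ hLpos] at f1
    rw [div_lt_iff₀ hLpos] at f2
    rw [e1]
    constructor
    · rw [← Real.exp_zero]
      exact Real.exp_le_exp.mpr (by linarith)
    · have : |l| = Real.exp L := by rw [hL, Real.exp_log hlpos]
      rw [this]
      exact Real.exp_le_exp.mpr (by linarith)
  obtain ⟨g, hg⟩ : ∃ g : ℕ → SpecialLinearGroup (Fin 3) ℤ, ∀ j, g j = u ^ j * w ^ (-(m j)) :=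
    ⟨_, fun _ => rfl⟩
  have hPg : ∀ j, Ph P (g j) = diagonal
      (fun i => μ i ^ j * (![l, l⁻¹, 1] : Fin 3 → ℝ) i ^ (-(m j))) := by
    intro j
    rw [hg, Ph_mul hP, Ph_zpow hP hd0 hw, Ph_pow hP, hu, Matrix.diagonal_pow,
      Matrix.diagonal_mul_diagonal]
    rfl
  have hbd : ∀ j i, |μ i ^ j * (![l, l⁻¹, 1] : Fin 3 → ℝ) i ^ (-(m j))| ≤ |l| := by
    intro j i
    have h1 := ha j
    rw [abs_mul, abs_pow, abs_zpow]
    fin_cases i
    · exact h1.2
    · show |μ 1| ^ j * |l⁻¹| ^ (-(m j)) ≤ |l|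
      have e1 : |μ 1| = |μ 0|⁻¹ := by
        field_simp
        linarith
      have e2 : |μ 1| ^ j * |l⁻¹| ^ (-(m j)) = (|μ 0| ^ j * |l| ^ (-(m j)))⁻¹ := by
        rw [e1, abs_inv, mul_inv, inv_pow, _root_.inv_zpow]
      rw [e2]
      have := inv_le_one_of_one_le₀ h1.1
      linarith
    · show |μ 2| ^ j * |(1 : ℝ)| ^ (-(m j)) ≤ |l|
      rw [h2, abs_one, one_pow, _root_.one_zpow, mul_one]
      exact hl.le
  -- bounded entries
  obtain ⟨C, hC⟩ : ∃ C : ℕ, ∀ i j, ∑ k, |P i k| * |l| * |P⁻¹ k j| ≤ C := by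
    obtain ⟨C, hC⟩ := exists_nat_ge (∑ i, ∑ j, ∑ k, |P i k| * |l| * |P⁻¹ k j|)
    refine ⟨C, fun i j => le_trans ?_ hC⟩
    have hnn : ∀ i j, 0 ≤ ∑ k, |P i k| * |l| * |P⁻¹ k j| := fun i j =>
      Finset.sum_nonneg fun k _ => by positivity
    calc ∑ k, |P i k| * |l| * |P⁻¹ k j| ≤ ∑ j, ∑ k, |P i k| * |l| * |P⁻¹ k j| :=
          Finset.single_le_sum (f := fun j => ∑ k, |P i k| * |l| * |P⁻¹ k j|)
            (fun j _ => hnn i j) (Finset.mem_univ j)
      _ ≤ _ := Finset.single_le_sum (f := fun i => ∑ j, ∑ k, |P i k| * |l| * |P⁻¹ k j|)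
            (fun i _ => Finset.sum_nonneg fun j _ => hnn i j) (Finset.mem_univ i)
  have hmem : ∀ j, g j ∈ {g : SpecialLinearGroup (Fin 3) ℤ |
      ∀ i j, |(g : Matrix (Fin 3) (Fin 3) ℤ) i j| ≤ (C : ℤ)} := by
    intro j a b
    have h1 : ((|((g j : SpecialLinearGroup (Fin 3) ℤ) : Matrix (Fin 3) (Fin 3) ℤ) a b| : ℤ) : ℝ)
        ≤ C := by
      rw [Int.cast_abs, ← rm_apply, Ph_back hP, hPg j, Matrix.mul_apply]
      refine le_trans (Finset.abs_sum_le_sum_abs _ _) (le_trans ?_ (hC a b))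
      refine Finset.sum_le_sum fun k _ => ?_
      rw [Matrix.mul_diagonal, abs_mul, abs_mul]
      have := hbd j k
      gcongr
    exact_mod_cast h1
  obtain ⟨i, j, hij, hgij⟩ := Set.Finite.exists_lt_map_eq_of_forall_mem hmem (finite_bdd C)
  refine ⟨j - i, by omega, m j - m i, ?_⟩
  rw [hg, hg] at hgij
  have hcomm : Commute u w := hwu.symm
  have h1 : u ^ j = u ^ i * u ^ (j - i) := by rw [← pow_add]; congr 1; omega
  rw [h1, mul_assoc] at hgij
  have h3 : w ^ (-(m i)) = u ^ (j - i) * w ^ (-(m j)) := mul_left_cancel hgij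
  calc u ^ (j - i) = u ^ (j - i) * w ^ (-(m j)) * w ^ (m j) := by
        rw [mul_assoc, ← _root_.zpow_add]; simp
    _ = w ^ (-(m i)) * w ^ (m j) := by rw [h3]
    _ = w ^ (m j - m i) := by rw [← _root_.zpow_add]; congr 1; ring

/-- Cayley-Hamilton in dimension three, with the eigenvalue `1`. -/
theorem ch_three {M : Matrix (Fin 3) (Fin 3) ℤ} (hdet : M.det = 1) (h1 : (M - 1).det = 0) :
    M * M * M - M.trace • (M * M) + M.trace • M - 1 = 0 := by
  rw [Matrix.det_fin_three] at hdet h1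
  simp only [Matrix.sub_apply, Matrix.one_apply] at h1
  simp at h1
  have hc2 : M 0 0 * M 1 1 - M 0 1 * M 1 0 + (M 0 0 * M 2 2 - M 0 2 * M 2 0) +
      (M 1 1 * M 2 2 - M 1 2 * M 2 1) = M 0 0 + M 1 1 + M 2 2 := by
    linear_combination hdet - h1
  rw [Matrix.trace_fin_three]
  ext i j
  have hij : (M * M * M - (M 0 0 + M 1 1 + M 2 2) • (M * M) + (M 0 0 + M 1 1 + M 2 2) • M - 1) i j =
      (M * M * M) i j - (M 0 0 + M 1 1 + M 2 2) * (M * M) i j + (M 0 0 + M 1 1 + M 2 2) * M i j -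
        (1 : Matrix (Fin 3) (Fin 3) ℤ) i j := by
    simp only [Matrix.sub_apply, Matrix.add_apply, Matrix.smul_apply, smul_eq_mul]
  rw [hij, Matrix.zero_apply]
  simp only [Matrix.mul_apply, Fin.sum_univ_three]
  fin_cases i <;> fin_cases j <;> simp [Matrix.one_apply] <;>
    first
      | linear_combination (-(M 0 0)) * hc2 + hdet
      | linear_combination (-(M 0 1)) * hc2
      | linear_combination (-(M 0 2)) * hc2
      | linear_combination (-(M 1 0)) * hc2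
      | linear_combination (-(M 1 1)) * hc2 + hdet
      | linear_combination (-(M 1 2)) * hc2
      | linear_combination (-(M 2 0)) * hc2
      | linear_combination (-(M 2 1)) * hc2
      | linear_combination (-(M 2 2)) * hc2 + hdet

/-- A real eigenvector for every root of `x² - (tr M - 1) x + 1`. -/
theorem exists_eig {M : Matrix (Fin 3) (Fin 3) ℤ} (hdet : M.det = 1) (h1 : (M - 1).det = 0) {x : ℝ}
    (hx : x * x - ((M.trace : ℝ) - 1) * x + 1 = 0) :
    ∃ v : Fin 3 → ℝ, v ≠ 0 ∧ rm M *ᵥ v = x • v := by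
  have hd : (rm M - x • (1 : Matrix (Fin 3) (Fin 3) ℝ)).det = 0 := by
    rw [Matrix.det_fin_three] at hdet h1
    simp only [Matrix.sub_apply, Matrix.one_apply] at h1
    simp at h1
    rw [Matrix.trace_fin_three] at hx
    rw [Matrix.det_fin_three]
    simp only [Matrix.sub_apply, Matrix.smul_apply, rm_apply, smul_eq_mul, Matrix.one_apply]
    simp
    have hdet' : (M 0 0 : ℝ) * M 1 1 * M 2 2 - M 0 0 * M 1 2 * M 2 1 - M 0 1 * M 1 0 * M 2 2 +
        M 0 1 * M 1 2 * M 2 0 + M 0 2 * M 1 0 * M 2 1 - M 0 2 * M 1 1 * M 2 0 = 1 := by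
      exact_mod_cast hdet
    have h1' : ((M 0 0 : ℝ) - 1) * (M 1 1 - 1) * (M 2 2 - 1) - (M 0 0 - 1) * M 1 2 * M 2 1 -
        M 0 1 * M 1 0 * (M 2 2 - 1) + M 0 1 * M 1 2 * M 2 0 + M 0 2 * M 1 0 * M 2 1 -
        M 0 2 * (M 1 1 - 1) * M 2 0 = 0 := by
      exact_mod_cast h1
    push_cast at hx
    linear_combination (1 - x) * hx + (1 - x) * hdet' + x * h1'
  obtain ⟨v, hv0, hv⟩ := Matrix.exists_mulVec_eq_zero_iff.mpr hd
  refine ⟨v, hv0, ?_⟩
  rw [Matrix.sub_mulVec, Matrix.smul_mulVec, Matrix.one_mulVec, sub_eq_zero] at hv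
  exact hv

theorem hyp_case {w u : SpecialLinearGroup (Fin 3) ℤ} (hwu : w * u = u * w)
    (h1 : ((w : Matrix (Fin 3) (Fin 3) ℤ) - 1).det = 0)
    (htr : 3 ≤ |(w : Matrix (Fin 3) (Fin 3) ℤ).trace - 1|) :
    ∃ k : ℕ, 1 ≤ k ∧ ∃ m : ℤ, u ^ k = w ^ m := by
  have hdet : (w : Matrix (Fin 3) (Fin 3) ℤ).det = 1 := Matrix.SpecialLinearGroup.det_coe w
  obtain ⟨t, ht⟩ : ∃ t : ℝ, t = ((w : Matrix (Fin 3) (Fin 3) ℤ).trace : ℝ) - 1 := ⟨_, rfl⟩
  have ht3 : 3 ≤ |t| := by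
    rw [ht]
    have : (3 : ℝ) ≤ ((|(w : Matrix (Fin 3) (Fin 3) ℤ).trace - 1| : ℤ) : ℝ) := by exact_mod_cast htr
    rwa [Int.cast_abs, Int.cast_sub, Int.cast_one] at this
  have hsq : 0 ≤ t * t - 4 := by
    have h2 : |t| * |t| = t * t := abs_mul_abs_self t
    nlinarith
  obtain ⟨l, hl, hroot⟩ : ∃ l : ℝ, 1 < |l| ∧ l * l - t * l + 1 = 0 := by
    have hs := Real.mul_self_sqrt hsq
    have hs0 := Real.sqrt_nonneg (t * t - 4)
    rcases abs_cases t with ⟨h, h0⟩ | ⟨h, h0⟩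
    · refine ⟨(t + Real.sqrt (t * t - 4)) / 2, ?_, by nlinarith⟩
      rw [abs_of_pos (by linarith)]
      linarith
    · refine ⟨(t - Real.sqrt (t * t - 4)) / 2, ?_, by nlinarith⟩
      rw [abs_of_neg (by linarith)]
      linarith
  have hl0 : l ≠ 0 := by
    rintro rfl
    simp at hl
    linarith
  have hlinv : l⁻¹ = t - l := by
    field_simp
    linarith
  have hroot' : l⁻¹ * l⁻¹ - t * l⁻¹ + 1 = 0 := by
    rw [hlinv]; linarith
  obtain ⟨v, hv0, hv⟩ := exists_eig hdet h1 (x := l) (by rw [← ht]; exact hroot)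
  obtain ⟨v', hv0', hv'⟩ := exists_eig hdet h1 (x := l⁻¹) (by rw [← ht]; exact hroot')
  obtain ⟨e, he0, he⟩ := Matrix.exists_mulVec_eq_zero_iff.mpr h1
  rw [Matrix.sub_mulVec, Matrix.one_mulVec, sub_eq_zero] at he
  have heR : rm (w : Matrix (Fin 3) (Fin 3) ℤ) *ᵥ (fun i => (e i : ℝ)) = fun i => (e i : ℝ) := by
    funext i
    have h2 := congrFun he i
    have h3 : (((w : Matrix (Fin 3) (Fin 3) ℤ) *ᵥ e) i : ℝ) = e i := by rw [h2]
    rw [← h3]
    simp only [Matrix.mulVec, dotProduct, rm_apply]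
    push_cast
    rfl
  have heR0 : (fun i => (e i : ℝ)) ≠ (0 : Fin 3 → ℝ) := by
    intro h
    apply he0
    funext i
    have h5 : (e i : ℝ) = 0 := congrFun h i
    show e i = 0
    exact_mod_cast h5
  obtain ⟨P, hPdef⟩ : ∃ P : Matrix (Fin 3) (Fin 3) ℝ,
      ∀ i, P i 0 = v i ∧ P i 1 = v' i ∧ P i 2 = (e i : ℝ) :=
    ⟨Matrix.of fun i j => ![v i, v' i, (e i : ℝ)] j, fun i => ⟨rfl, rfl, rfl⟩⟩
  have hWP : rm (w : Matrix (Fin 3) (Fin 3) ℤ) * P = P * diagonal ![l, l⁻¹, 1] := by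
    ext i j
    rw [Matrix.mul_diagonal, Matrix.mul_apply]
    have c0 := congrFun hv i
    have c1 := congrFun hv' i
    have c2 := congrFun heR i
    simp only [Matrix.mulVec, dotProduct, Pi.smul_apply, smul_eq_mul] at c0 c1 c2
    fin_cases j
    · simp only [Fin.zero_eta, (hPdef _).1]
      rw [c0]
      simp [mul_comm]
    · simp only [Fin.mk_one, (hPdef _).2.1]
      rw [c1]
      simp [mul_comm]
    · simp only [Fin.reduceFinMk, (hPdef _).2.2]
      rw [c2]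
      simp
  have hdist1 : l - l⁻¹ ≠ 0 := by
    intro h
    have h2 : l = l⁻¹ := by linarith
    have h3 : |l| = |l|⁻¹ := by
      conv_lhs => rw [h2]
      rw [abs_inv]
    have h4 : |l|⁻¹ < 1 := inv_lt_one_of_one_lt₀ hl
    linarith
  have hdist2 : l - 1 ≠ 0 := by
    intro h
    have h2 : l = 1 := by linarith
    rw [h2] at hl
    simp at hl
  have hdist3 : l⁻¹ - 1 ≠ 0 := by
    intro h
    have h2 : l⁻¹ = 1 := by linarith
    have h3 : l = 1 := inv_eq_one.mp h2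
    exact hdist2 (by linarith)
  have hP : P.det ≠ 0 := by
    intro hPd
    obtain ⟨x, hx0, hx⟩ := Matrix.exists_mulVec_eq_zero_iff.mpr hPd
    have E0 : ∀ i, P i 0 * x 0 + P i 1 * x 1 + P i 2 * x 2 = 0 := by
      intro i
      have := congrFun hx i
      simpa [Matrix.mulVec, dotProduct, Fin.sum_univ_three] using this
    have step : ∀ y : Fin 3 → ℝ, P *ᵥ y = 0 →
        P *ᵥ (fun i => (![l, l⁻¹, 1] : Fin 3 → ℝ) i * y i) = 0 := by
      intro y hy
      have h2 : (P * diagonal ![l, l⁻¹, 1]) *ᵥ y = 0 := by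
        rw [← hWP, ← Matrix.mulVec_mulVec, hy, Matrix.mulVec_zero]
      rw [← Matrix.mulVec_mulVec] at h2
      have h3 : diagonal (![l, l⁻¹, 1] : Fin 3 → ℝ) *ᵥ y =
          fun i => (![l, l⁻¹, 1] : Fin 3 → ℝ) i * y i := by
        funext i
        rw [Matrix.mulVec_diagonal]
      rwa [h3] at h2
    have hx1 := step x hx
    have hx2 := step _ hx1
    have E1 : ∀ i, P i 0 * (l * x 0) + P i 1 * (l⁻¹ * x 1) + P i 2 * x 2 = 0 := by
      intro i
      have := congrFun hx1 i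
      simpa [Matrix.mulVec, dotProduct, Fin.sum_univ_three] using this
    have E2 : ∀ i, P i 0 * (l * (l * x 0)) + P i 1 * (l⁻¹ * (l⁻¹ * x 1)) + P i 2 * x 2 = 0 := by
      intro i
      have := congrFun hx2 i
      simpa [Matrix.mulVec, dotProduct, Fin.sum_univ_three] using this
    have p0 : ∀ i, P i 0 * x 0 = 0 := by
      intro i
      have h2 : (l - l⁻¹) * (l - 1) * (P i 0 * x 0) = 0 := by
        linear_combination E2 i - (l⁻¹ + 1) * E1 i + l⁻¹ * E0 i
      rcases mul_eq_zero.mp h2 with h3 | h3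
      · exact absurd h3 (mul_ne_zero hdist1 hdist2)
      · exact h3
    have p1 : ∀ i, P i 1 * x 1 = 0 := by
      intro i
      have h2 : (l⁻¹ - l) * (l⁻¹ - 1) * (P i 1 * x 1) = 0 := by
        linear_combination E2 i - (l + 1) * E1 i + l * E0 i
      rcases mul_eq_zero.mp h2 with h3 | h3
      · exact absurd h3 (mul_ne_zero (by intro h; exact hdist1 (by linarith)) hdist3)
      · exact h3
    have p2 : ∀ i, P i 2 * x 2 = 0 := by
      intro i
      have := E0 i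
      rw [p0 i, p1 i] at this
      linarith
    have nz : ∀ (y : Fin 3 → ℝ) (c : ℝ), y ≠ 0 → (∀ i, y i * c = 0) → c = 0 := by
      intro y c hy hc
      by_contra hne
      apply hy
      funext i
      exact (mul_eq_zero.mp (hc i)).resolve_right hne
    have x0 : x 0 = 0 := nz v _ hv0 (fun i => by rw [← (hPdef i).1]; exact p0 i)
    have x1 : x 1 = 0 := nz v' _ hv0' (fun i => by rw [← (hPdef i).2.1]; exact p1 i)
    have x2 : x 2 = 0 := nz _ _ heR0 (fun i => by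
      show (e i : ℝ) * x 2 = 0
      rw [← (hPdef i).2.2]; exact p2 i)
    apply hx0
    funext i
    fin_cases i
    · exact x0
    · exact x1
    · exact x2
  have hPw : Ph P w = diagonal ![l, l⁻¹, 1] := by
    unfold Ph
    rw [Matrix.mul_assoc, hWP, ← Matrix.mul_assoc, PinvP hP, Matrix.one_mul]
  exact hyp_cyclic hwu hP hl hPw he0 fun i => (hPdef i).2.2

/-- Squares: `w² e = e` as soon as the characteristic polynomial of `w` is reducible. -/
theorem sq_eig {w : SpecialLinearGroup (Fin 3) ℤ}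
    (hred : ¬ Irreducible (w : Matrix (Fin 3) (Fin 3) ℤ).charpoly) :
    (((w ^ 2 : SpecialLinearGroup (Fin 3) ℤ) : Matrix (Fin 3) (Fin 3) ℤ) - 1).det = 0 := by
  obtain ⟨M, hM⟩ : ∃ M : Matrix (Fin 3) (Fin 3) ℤ, M = (w : Matrix (Fin 3) (Fin 3) ℤ) := ⟨_, rfl⟩
  rw [← hM] at hred
  have hdet : M.det = 1 := by rw [hM]; exact Matrix.SpecialLinearGroup.det_coe w
  have hdeg : M.charpoly.natDegree = 3 := by rw [Matrix.charpoly_natDegree_eq_dim]; rfl
  rw [(Matrix.charpoly_monic M).irreducible_iff_roots_eq_zero_of_degree_le_three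
    (by omega) (by omega)] at hred
  obtain ⟨x, hx⟩ := Multiset.exists_mem_of_ne_zero hred
  have hx1 := (Polynomial.mem_roots'.mp hx).2
  rw [Polynomial.IsRoot, Matrix.eval_charpoly] at hx1
  have hx2 : x = 1 ∨ x = -1 := by
    have h2 : x ∣ 1 := by
      rw [← hdet]
      rw [Matrix.det_fin_three] at hx1 ⊢
      rw [Matrix.scalar_apply] at hx1
      simp only [Matrix.sub_apply, Matrix.diagonal_apply] at hx1
      simp at hx1
      refine ⟨x * x - (M 0 0 + M 1 1 + M 2 2) * x + (M 0 0 * M 1 1 - M 0 1 * M 1 0 +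
        (M 0 0 * M 2 2 - M 0 2 * M 2 0) + (M 1 1 * M 2 2 - M 1 2 * M 2 1)), ?_⟩
      linear_combination -hx1
    exact Int.isUnit_iff.mp (isUnit_of_dvd_one h2)
  obtain ⟨v, hv0, hv⟩ := Matrix.exists_mulVec_eq_zero_iff.mpr hx1
  have hv2 : M *ᵥ v = x • v := by
    rw [Matrix.sub_mulVec, sub_eq_zero] at hv
    rw [← hv, Matrix.scalar_apply]
    funext i
    rw [Matrix.mulVec_diagonal]
    rfl
  apply Matrix.exists_mulVec_eq_zero_iff.mp
  refine ⟨v, hv0, ?_⟩
  rw [sq, Matrix.SpecialLinearGroup.coe_mul, ← hM, Matrix.sub_mulVec, Matrix.one_mulVec,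
    ← Matrix.mulVec_mulVec, hv2, Matrix.mulVec_smul, hv2, smul_smul]
  rcases hx2 with rfl | rfl <;> simp

end Pool.Agent.H48SL
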