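import Pool.Agent.helper48.SLn.Split

/-!
A transvection commuting with a square-zero unipotent in a Zariski dense subgroup of `SL(ι, ℤ)`.
-/

namespace Pool.Agent.H48SL

open Matrix

variable {ι : Type*} [Fintype ι] [DecidableEq ι]

theorem coe_inv_of_sq_zero {u : SpecialLinearGroup ι ℤ} {N : Matrix ι ι ℤ}
    (hN : (u : Matrix ι ι ℤ) = 1 + N) (hN2 : N * N = 0) :
    ((u⁻¹ : SpecialLinearGroup ι ℤ) : Matrix ι ι ℤ) = 1 - N := by
  have h1 : (u : Matrix ι ι ℤ) * (1 - N) = 1 := by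
    rw [hN, Matrix.add_mul, Matrix.mul_sub, Matrix.mul_sub, hN2]
    simp
  calc ((u⁻¹ : SpecialLinearGroup ι ℤ) : Matrix ι ι ℤ)
      = ((u⁻¹ : SpecialLinearGroup ι ℤ) : Matrix ι ι ℤ) * ((u : Matrix ι ι ℤ) * (1 - N)) := by
        rw [h1, Matrix.mul_one]
    _ = 1 - N := by
        rw [← Matrix.mul_assoc, ← Matrix.SpecialLinearGroup.coe_mul, inv_mul_cancel,
          Matrix.SpecialLinearGroup.coe_one, Matrix.one_mul]

theorem coe_pow_of_sq_zero {u : SpecialLinearGroup ι ℤ} {N : Matrix ι ι ℤ}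
    (hN : (u : Matrix ι ι ℤ) = 1 + N) (hN2 : N * N = 0) (k : ℕ) :
    ((u ^ k : SpecialLinearGroup ι ℤ) : Matrix ι ι ℤ) = 1 + (k : ℤ) • N := by
  induction k with
  | zero => simp
  | succ k ih =>
    rw [pow_succ, Matrix.SpecialLinearGroup.coe_mul, ih, hN]
    simp only [Matrix.add_mul, Matrix.mul_add, Matrix.one_mul, Matrix.mul_one, Matrix.smul_mul, hN2,
      smul_zero, add_zero]
    push_cast
    rw [add_smul, one_smul]
    abel

theorem coe_zpow_of_sq_zero {u : SpecialLinearGroup ι ℤ} {N : Matrix ι ι ℤ}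
    (hN : (u : Matrix ι ι ℤ) = 1 + N) (hN2 : N * N = 0) (k : ℤ) :
    ((u ^ k : SpecialLinearGroup ι ℤ) : Matrix ι ι ℤ) = 1 + k • N := by
  rcases Int.eq_nat_or_neg k with ⟨m, rfl | rfl⟩
  · rw [zpow_natCast, coe_pow_of_sq_zero hN hN2]
  · rw [_root_.zpow_neg, zpow_natCast, ← inv_pow, coe_pow_of_sq_zero (N := -N)
      (by rw [coe_inv_of_sq_zero hN hN2, sub_eq_add_neg]) (by simp [hN2])]
    simp

theorem nil_case (hcard : 3 ≤ Fintype.card ι) {H : Subgroup (SpecialLinearGroup ι ℤ)}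
    (hD : ZDense H) {e φ : ι → ℤ} (he : e ≠ 0) (hφ : φ ≠ 0) (h0 : φ ⬝ᵥ e = 0) (t : tv e φ ∈ H)
    {u : SpecialLinearGroup ι ℤ} (hu : u ∈ H) {N : Matrix ι ι ℤ}
    (hN : (u : Matrix ι ι ℤ) = 1 + N) (hN2 : N * N = 0) (hNe : N *ᵥ e = 0) (hφN : φ ᵥ* N = 0)
    (hind : ∀ k : ℕ, 1 ≤ k → ∀ m : ℤ, u ^ k ≠ (tv e φ) ^ m) : H.FiniteIndex := by
  by_cases hcase : ∃ i j, e j • N i - e i • N j ≠ 0
  · obtain ⟨i, j, hij⟩ := hcase
    have NZ1 := ((NZ.dot hφ he).mul (NZ.dot_inv hφ he)).mul (NZ.dot hij he)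
    obtain ⟨h, hh, hne⟩ := NZ1.dense hD
    set e3 : ι → ℤ := (h : Matrix ι ι ℤ) *ᵥ e with he3
    set φ3 : ι → ℤ := φ ᵥ* ((h⁻¹ : SpecialLinearGroup ι ℤ) : Matrix ι ι ℤ) with hφ3
    have hb : φ ⬝ᵥ (((h⁻¹ : SpecialLinearGroup ι ℤ) : Matrix ι ι ℤ) *ᵥ e) = φ3 ⬝ᵥ e := by
      rw [dotProduct_mulVec]
    set a : ℤ := φ ⬝ᵥ e3 with ha
    set b : ℤ := φ3 ⬝ᵥ e with hbdef
    have hne' : a * b * ((e j • N i - e i • N j) ⬝ᵥ e3) ≠ 0 := by
      rw [← hb]; exact hne
    have ha0 : a ≠ 0 := left_ne_zero_of_mul (left_ne_zero_of_mul hne')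
    have hb0 : b ≠ 0 := right_ne_zero_of_mul (left_ne_zero_of_mul hne')
    have hψ0 := right_ne_zero_of_mul hne'
    have h33 : φ3 ⬝ᵥ e3 = 0 := by rw [hφ3, he3, vecMul_inv_dot, h0]
    have t3 : tv e3 φ3 ∈ H := conj_mem h0 t hh
    set A : ℤ := φ3 ⬝ᵥ (N *ᵥ e3) with hA
    set g : SpecialLinearGroup ι ℤ := u ^ (a * b) * (tv e φ) ^ (-A) with hg
    have hgH : g ∈ H := Subgroup.mul_mem _ (Subgroup.zpow_mem _ hu _) (Subgroup.zpow_mem _ t _)
    set v : ι → ℤ := (a * b) • (N *ᵥ e3) - (A * a) • e with hv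
    set ψ : ι → ℤ := (A * b) • φ - (a * b) • (φ3 ᵥ* N) with hψ
    have hAe : (-A • φ) ⬝ᵥ e = 0 := by rw [smul_dotProduct, h0, smul_zero]
    have hge : (g : Matrix ι ι ℤ) *ᵥ e3 = e3 + v := by
      rw [hg, Matrix.SpecialLinearGroup.coe_mul, ← mulVec_mulVec, ← tv_zsmul_right h0,
        tv_mulVec hAe, coe_zpow_of_sq_zero hN hN2, add_mulVec, one_mulVec, smul_mulVec,
        mulVec_add, mulVec_smul, hNe, smul_dotProduct, ← ha, hv]
      ext l
      simp only [Pi.add_apply, Pi.sub_apply, Pi.smul_apply, smul_eq_mul, Pi.zero_apply]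
      ring
    have hφg : φ3 ᵥ* ((g⁻¹ : SpecialLinearGroup ι ℤ) : Matrix ι ι ℤ) = φ3 + ψ := by
      have hAe' : (A • φ) ⬝ᵥ e = 0 := by rw [smul_dotProduct, h0, smul_zero]
      have : g⁻¹ = tv e (A • φ) * u ^ (-(a * b)) := by
        rw [hg, _root_.mul_inv_rev, ← _root_.zpow_neg, ← _root_.zpow_neg, neg_neg, tv_zsmul_right h0]
      rw [this, Matrix.SpecialLinearGroup.coe_mul, ← vecMul_vecMul, tv_vecMul hAe', ← hbdef,
        coe_zpow_of_sq_zero hN hN2, vecMul_add, vecMul_one, vecMul_smul, add_vecMul, smul_vecMul,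
        smul_vecMul, hφN, hψ]
      ext l
      simp only [Pi.add_apply, Pi.sub_apply, Pi.smul_apply, smul_eq_mul, Pi.zero_apply]
      ring
    have t4 : tv (e3 + v) (φ3 + ψ) ∈ H := by
      rw [← hge, ← hφg]; exact conj_mem h33 t3 hgH
    have p1 : φ3 ⬝ᵥ (e3 + v) = 0 := by
      rw [hv, dotProduct_add, dotProduct_sub, dotProduct_smul, dotProduct_smul, h33, ← hA, ← hbdef]
      simp only [smul_eq_mul]; ring
    have p2 : (φ3 + ψ) ⬝ᵥ e3 = 0 := by
      rw [hψ, add_dotProduct, sub_dotProduct, smul_dotProduct, smul_dotProduct, h33, ← ha,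
        ← dotProduct_mulVec, ← hA]
      simp only [smul_eq_mul]; ring
    have p3 : (φ3 + ψ) ⬝ᵥ (e3 + v) = 0 := by
      rw [← hge, ← hφg, vecMul_inv_dot, h33]
    have q1 : φ ⬝ᵥ v = 0 := by
      rw [hv, dotProduct_sub, dotProduct_smul, dotProduct_smul, h0, dotProduct_mulVec, hφN]
      simp
    have hv0 : v ≠ 0 := by
      intro hv0
      have h1 : (a * b) • (N *ᵥ e3) = (A * a) • e := by
        rw [hv] at hv0; exact sub_eq_zero.mp hv0
      have hi : (a * b) * (N i ⬝ᵥ e3) = A * a * e i := congrFun h1 i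
      have hj : (a * b) * (N j ⬝ᵥ e3) = A * a * e j := congrFun h1 j
      apply hψ0
      have h2 : (a * b) * ((e j • N i - e i • N j) ⬝ᵥ e3) = 0 := by
        rw [sub_dotProduct, smul_dotProduct, smul_dotProduct]
        simp only [smul_eq_mul]
        linear_combination (e j) * hi - (e i) * hj
      exact (mul_eq_zero.mp h2).resolve_left (mul_ne_zero ha0 hb0)
    have hI1 : Indep e3 v := indep_of_dot (ψ := φ) ha0 q1 hv0
    have hI2 : Indep e3 (e3 + v) := by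
      intro c d hcd
      have h1 : (c + d) • e3 + d • v = 0 := by
        rw [← hcd, add_smul, smul_add]; abel
      obtain ⟨h2, h3⟩ := hI1 _ _ h1
      exact ⟨by linarith, h3⟩
    by_cases hψz : ψ = 0
    · rw [hψz, add_zero] at t4 p2 p3
      exact same_axis hcard hD h33 p3 t3 t4 (vecMul_ne_zero _ hφ) one_ne_zero
        (rfl : (1 : ℤ) • φ3 = (1 : ℤ) • φ3) hI2
    · have q2 : e ⬝ᵥ ψ = 0 := by
        rw [dotProduct_comm, hψ, sub_dotProduct, smul_dotProduct, smul_dotProduct, h0,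
          ← dotProduct_mulVec, hNe]
        simp
      have q3 : e ⬝ᵥ φ3 ≠ 0 := by rw [dotProduct_comm]; exact hb0
      have hI3 : Indep φ3 ψ := indep_of_dot (ψ := e) q3 q2 hψz
      have hI4 : Indep φ3 (φ3 + ψ) := by
        intro c d hcd
        have h1 : (c + d) • φ3 + d • ψ = 0 := by
          rw [← hcd, add_smul, smul_add]; abel
        obtain ⟨h2, h3⟩ := hI3 _ _ h1
        exact ⟨by linarith, h3⟩
      exact split_case hcard hD h33 p1 p2 p3 t3 t4 hI2 hI4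
  · push Not at hcase
    obtain ⟨j, hj⟩ := Function.ne_iff.mp he
    rw [Pi.zero_apply] at hj
    have hχe : (N j) ⬝ᵥ e = 0 := congrFun hNe j
    have h1 : u ^ (e j) = tv e (N j) := by
      apply SL_ext
      rw [coe_zpow_of_sq_zero hN hN2, tv_coe hχe]
      congr 1
      ext i k
      have := congrFun (hcase i j) k
      simp only [Pi.sub_apply, Pi.smul_apply, smul_eq_mul, Pi.zero_apply] at this
      rw [Matrix.smul_apply, vecMulVec_apply, smul_eq_mul]
      linarith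
    have tχ : tv e (N j) ∈ H := by rw [← h1]; exact Subgroup.zpow_mem _ hu _
    have hI : Indep (N j) φ := by
      by_contra hcon
      obtain ⟨a, b, ha, hab⟩ := not_indep hφ hcon
      have h2 : u ^ (e j * a) = (tv e φ) ^ b := by
        rw [_root_.zpow_mul, h1, ← tv_zsmul_right hχe, hab, tv_zsmul_right h0]
      have hk : e j * a ≠ 0 := mul_ne_zero hj ha
      rcases lt_or_gt_of_ne hk with hlt | hgt
      · refine hind (e j * a).natAbs (Int.natAbs_pos.mpr hk) (-b) ?_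
        rw [← zpow_natCast, Int.natCast_natAbs, abs_of_neg hlt, _root_.zpow_neg, _root_.zpow_neg, h2]
      · refine hind (e j * a).natAbs (Int.natAbs_pos.mpr hk) b ?_
        rw [← zpow_natCast, Int.natCast_natAbs, abs_of_pos hgt, h2]
    exact same_centre hcard hD hχe h0 tχ t he one_ne_zero
      (rfl : (1 : ℤ) • e = (1 : ℤ) • e) hI

end Pool.Agent.H48SL
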