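import Pool.Agent.helper48.SLn.Comm

/-!
Pairs of transvections in a Zariski dense subgroup of `SL(ι, ℤ)`.
-/

namespace Pool.Agent.H48SL

open Matrix

variable {ι : Type*} [Fintype ι] [DecidableEq ι]

/-- Two transvections, the centre of the second in the axis of the first, not commensurable. -/
theorem pair_zero (hcard : 3 ≤ Fintype.card ι) {H : Subgroup (SpecialLinearGroup ι ℤ)}
    (hD : ZDense H) {x ξ y η : ι → ℤ} (h0 : ξ ⬝ᵥ x = 0) (h0' : η ⬝ᵥ y = 0)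
    (t : tv x ξ ∈ H) (t' : tv y η ∈ H) (hx : x ≠ 0) (hξ : ξ ≠ 0) (hy : y ≠ 0) (hη : η ≠ 0)
    (hz : ξ ⬝ᵥ y = 0) (hI : Indep x y ∨ Indep ξ η) : H.FiniteIndex := by
  by_cases h1 : η ⬝ᵥ x = 0
  · by_cases I1 : Indep x y
    · by_cases I2 : Indep ξ η
      · exact split_case hcard hD h0 hz h1 h0' t t' I1 I2
      · obtain ⟨a, b, ha, hab⟩ := not_indep hη I2
        exact same_axis hcard hD h0 h0' t t' hξ ha hab I1
    · have I2 : Indep ξ η := hI.resolve_left I1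
      obtain ⟨a, b, ha, hab⟩ := not_indep hy I1
      exact same_centre hcard hD h0 h0' t t' hx ha hab I2
  · exact heis_case hcard hD h0 h0' t t' hξ hy hz h1

theorem neg_cases_right {g : SpecialLinearGroup ι ℤ} {φ : ι → ℤ}
    (h : φ ᵥ* ((g⁻¹ : SpecialLinearGroup ι ℤ) : Matrix ι ι ℤ) = φ ∨
      φ ᵥ* ((g⁻¹ : SpecialLinearGroup ι ℤ) : Matrix ι ι ℤ) = -φ) :
    φ ᵥ* (g : Matrix ι ι ℤ) = φ ∨ φ ᵥ* (g : Matrix ι ι ℤ) = -φ := by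
  have key : ∀ ψ : ι → ℤ, φ ᵥ* ((g⁻¹ : SpecialLinearGroup ι ℤ) : Matrix ι ι ℤ) = ψ →
      φ = ψ ᵥ* (g : Matrix ι ι ℤ) := by
    intro ψ h
    rw [← h, vecMul_vecMul, ← Matrix.SpecialLinearGroup.coe_mul, inv_mul_cancel,
      Matrix.SpecialLinearGroup.coe_one, vecMul_one]
  rcases h with h | h
  · left; exact (key _ h).symm
  · right
    have := key _ h
    rw [neg_vecMul] at this
    rw [eq_neg_iff_add_eq_zero, add_comm, ← eq_neg_iff_add_eq_zero]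
    exact this

/-- `φ (g e) = 0` forces finite index unless `g` normalises the transvection group. -/
theorem zero_case (hcard : 3 ≤ Fintype.card ι) {H : Subgroup (SpecialLinearGroup ι ℤ)}
    (hD : ZDense H) {e φ : ι → ℤ} (he : e ≠ 0) (hφ : φ ≠ 0) (h0 : φ ⬝ᵥ e = 0) (t : tv e φ ∈ H)
    {g : SpecialLinearGroup ι ℤ} (hg : g ∈ H) (hz : φ ⬝ᵥ ((g : Matrix ι ι ℤ) *ᵥ e) = 0)
    (hfi : ¬ H.FiniteIndex) :
    ((g : Matrix ι ι ℤ) *ᵥ e = e ∨ (g : Matrix ι ι ℤ) *ᵥ e = -e) ∧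
      (φ ᵥ* (g : Matrix ι ι ℤ) = φ ∨ φ ᵥ* (g : Matrix ι ι ℤ) = -φ) := by
  have tg := conj_mem h0 t hg
  have h0g : (φ ᵥ* ((g⁻¹ : SpecialLinearGroup ι ℤ) : Matrix ι ι ℤ)) ⬝ᵥ ((g : Matrix ι ι ℤ) *ᵥ e) = 0 := by
    rw [vecMul_inv_dot, h0]
  have I1 : ¬ Indep ((g : Matrix ι ι ℤ) *ᵥ e) e := fun h =>
    hfi (pair_zero hcard hD h0 h0g t tg he hφ (mulVec_ne_zero _ he) (vecMul_ne_zero _ hφ) hz
      (Or.inl h.symm))
  have I2 : ¬ Indep (φ ᵥ* ((g⁻¹ : SpecialLinearGroup ι ℤ) : Matrix ι ι ℤ)) φ := fun h =>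
    hfi (pair_zero hcard hD h0 h0g t tg he hφ (mulVec_ne_zero _ he) (vecMul_ne_zero _ hφ) hz
      (Or.inr h.symm))
  obtain ⟨a, b, ha, hab⟩ := not_indep he I1
  obtain ⟨a', b', ha', hab'⟩ := not_indep hφ I2
  exact ⟨eig_pm he ha hab, neg_cases_right (eig_pm' hφ ha' hab')⟩

theorem tv_prop {H : Subgroup (SpecialLinearGroup ι ℤ)} {v ψ w ω : ι → ℤ} (hψv : ψ ⬝ᵥ v = 0)
    (t : tv v ψ ∈ H) (hωw : ω ⬝ᵥ w = 0) {a b c d : ℤ} (ha : a ≠ 0) (hc : c ≠ 0)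
    (hab : a • w = b • v) (hcd : c • ω = d • ψ) : ∃ k : ℤ, k ≠ 0 ∧ tv w (k • ω) ∈ H := by
  refine ⟨a * c, mul_ne_zero ha hc, ?_⟩
  have h1 : tv w ((a * c) • ω) = tv v ((b * d) • ψ) := by
    rw [mul_smul, ← tv_smul_comm (by rw [smul_dotProduct, hωw, smul_zero]), hab, hcd,
      tv_smul_comm (by rw [smul_dotProduct, hψv, smul_zero]), smul_smul]
  rw [h1]
  exact tv_smul_mem hψv t _

section cusp

variable {e φ e' φ' : ι → ℤ}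

/-- membership of a power of the transvection of the plane `⟨e, e'⟩` centred at `x e + y e'` -/
def Cu (H : Subgroup (SpecialLinearGroup ι ℤ)) (e φ e' φ' : ι → ℤ) (x y : ℤ) : Prop :=
  ∃ k : ℤ, k ≠ 0 ∧ tv (x • e + y • e')
    (k • ((φ' ⬝ᵥ e * x) • φ - (φ ⬝ᵥ e' * y) • φ')) ∈ H

theorem omega_w (h0 : φ ⬝ᵥ e = 0) (h0' : φ' ⬝ᵥ e' = 0) (x y : ℤ) :
    ((φ' ⬝ᵥ e * x) • φ - (φ ⬝ᵥ e' * y) • φ') ⬝ᵥ (x • e + y • e') = 0 := by
  rw [sub_dotProduct, smul_dotProduct, smul_dotProduct, dotProduct_add, dotProduct_add,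
    dotProduct_smul, dotProduct_smul, dotProduct_smul, dotProduct_smul, h0, h0']
  simp only [smul_eq_mul]; ring

/-- the integral functional vanishing on a plane, for `n ≥ 3` -/
theorem exists_chi (hcard : 3 ≤ Fintype.card ι) (h0 : φ ⬝ᵥ e = 0) (h0' : φ' ⬝ᵥ e' = 0)
    (hα : φ ⬝ᵥ e' ≠ 0) (hβ : φ' ⬝ᵥ e ≠ 0) :
    ∃ χ : ι → ℤ, χ ≠ 0 ∧ χ ⬝ᵥ e = 0 ∧ χ ⬝ᵥ e' = 0 := by
  set α := φ ⬝ᵥ e' with hαd
  set β := φ' ⬝ᵥ e with hβd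
  set χ : ι → ι → ℤ := fun i => (α * β) • Pi.single i 1 - (α * e i) • φ' - (β * e' i) • φ with hχ
  have h1 : ∀ i, χ i ⬝ᵥ e = 0 := by
    intro i
    simp only [hχ, sub_dotProduct, smul_dotProduct, single_one_dotProduct, smul_eq_mul, h0, ← hβd]
    ring
  have h2 : ∀ i, χ i ⬝ᵥ e' = 0 := by
    intro i
    simp only [hχ, sub_dotProduct, smul_dotProduct, single_one_dotProduct, smul_eq_mul, h0', ← hαd]
    ring
  by_contra hcon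
  push Not at hcon
  have h3 : ∀ i, χ i = 0 := by
    intro i
    by_contra hne
    exact hcon (χ i) hne (h1 i) (h2 i)
  have h4 : ∑ i, χ i i = α * β * ((Fintype.card ι : ℤ) - 2) := by
    have h5 : ∀ i, χ i i = α * β - α * (φ' i * e i) - β * (φ i * e' i) := by
      intro i
      simp only [hχ, Pi.sub_apply, Pi.smul_apply, Pi.single_eq_same, smul_eq_mul]
      ring
    simp_rw [h5, Finset.sum_sub_distrib, ← Finset.mul_sum]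
    have h6 : ∑ i, φ' i * e i = β := rfl
    have h7 : ∑ i, φ i * e' i = α := rfl
    rw [h6, h7]
    simp
    ring
  simp_rw [h3, Pi.zero_apply, Finset.sum_const_zero] at h4
  have h8 : ((Fintype.card ι : ℤ) - 2) ≠ 0 := by
    have : (3 : ℤ) ≤ Fintype.card ι := by exact_mod_cast hcard
    intro h; linarith
  exact mul_ne_zero (mul_ne_zero hα hβ) h8 h4.symm

theorem cusp_case (hcard : 3 ≤ Fintype.card ι) {H : Subgroup (SpecialLinearGroup ι ℤ)}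
    (hD : ZDense H) (h0 : φ ⬝ᵥ e = 0) (h0' : φ' ⬝ᵥ e' = 0)
    (hα : φ ⬝ᵥ e' ≠ 0) (hβ : φ' ⬝ᵥ e ≠ 0) (hc : ∀ x y : ℤ, Cu H e φ e' φ' x y) :
    H.FiniteIndex := by
  obtain ⟨χ, hχ0, hχe, hχe'⟩ := exists_chi hcard h0 h0' hα hβ
  have he : e ≠ 0 := by rintro rfl; simp at hβ
  have he' : e' ≠ 0 := by rintro rfl; simp at hα
  have hφ : φ ≠ 0 := by rintro rfl; simp at hα
  have hφ' : φ' ≠ 0 := by rintro rfl; simp at hβ
  obtain ⟨k1, hk1, t1⟩ := hc 1 0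
  have t1' : tv e ((k1 * (φ' ⬝ᵥ e)) • φ) ∈ H := by
    have : k1 • ((φ' ⬝ᵥ e * 1) • φ - (φ ⬝ᵥ e' * 0) • φ') = (k1 * (φ' ⬝ᵥ e)) • φ := by
      rw [mul_zero, zero_smul, sub_zero, mul_one, smul_smul]
    rw [this, one_smul, zero_smul, add_zero] at t1
    exact t1
  set κ : ℤ := k1 * (φ' ⬝ᵥ e) with hκ
  have hκ0 : κ ≠ 0 := mul_ne_zero hk1 hβ
  obtain ⟨h, hh, hne⟩ := ((NZ.dot hχ0 he).mul (NZ.dot hφ he)).dense hD
  set e3 : ι → ℤ := (h : Matrix ι ι ℤ) *ᵥ e with he3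
  have hne' : (χ ⬝ᵥ e3) * (φ ⬝ᵥ e3) ≠ 0 := hne
  have hχ3 : χ ⬝ᵥ e3 ≠ 0 := left_ne_zero_of_mul hne'
  have hφ3 : φ ⬝ᵥ e3 ≠ 0 := right_ne_zero_of_mul hne'
  have hκe : (κ • φ) ⬝ᵥ e = 0 := by rw [smul_dotProduct, h0, smul_zero]
  have t3 := conj_mem hκe t1' hh
  obtain ⟨k, hk, t2⟩ := hc ((φ ⬝ᵥ e') * (φ' ⬝ᵥ e3)) ((φ' ⬝ᵥ e) * (φ ⬝ᵥ e3))
  set x : ℤ := (φ ⬝ᵥ e') * (φ' ⬝ᵥ e3) with hx
  set y : ℤ := (φ' ⬝ᵥ e) * (φ ⬝ᵥ e3) with hy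
  have hy0 : y ≠ 0 := mul_ne_zero hβ hφ3
  have hw0 : x • e + y • e' ≠ 0 := by
    intro h1
    have h2 := congrArg (fun v => φ ⬝ᵥ v) h1
    simp only [dotProduct_add, dotProduct_smul, h0, smul_eq_mul, mul_zero, zero_add,
      dotProduct_zero] at h2
    exact mul_ne_zero hy0 hα h2
  have hχw : χ ⬝ᵥ (x • e + y • e') = 0 := by
    rw [dotProduct_add, dotProduct_smul, dotProduct_smul, hχe, hχe']; simp
  have hI : Indep (x • e + y • e') e3 := (indep_of_dot hχ3 hχw hw0).symm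
  have hω3 : (k • ((φ' ⬝ᵥ e * x) • φ - (φ ⬝ᵥ e' * y) • φ')) ⬝ᵥ e3 = 0 := by
    rw [smul_dotProduct, sub_dotProduct, smul_dotProduct, smul_dotProduct, hx, hy]
    simp only [smul_eq_mul]; ring
  have hω0 : k • ((φ' ⬝ᵥ e * x) • φ - (φ ⬝ᵥ e' * y) • φ') ≠ 0 := by
    intro h1
    rcases smul_eq_zero.mp h1 with h1 | h1
    · exact hk h1
    · have h2 := congrArg (fun v => v ⬝ᵥ e) h1
      simp only [sub_dotProduct, smul_dotProduct, h0, smul_eq_mul, mul_zero, zero_sub,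
        zero_dotProduct, neg_eq_zero] at h2
      exact mul_ne_zero (mul_ne_zero hα hy0) hβ h2
  have hωw : (k • ((φ' ⬝ᵥ e * x) • φ - (φ ⬝ᵥ e' * y) • φ')) ⬝ᵥ (x • e + y • e') = 0 := by
    rw [smul_dotProduct, omega_w h0 h0', smul_zero]
  exact pair_zero hcard hD hωw (by rw [vecMul_inv_dot, hκe]) t2 t3 hw0 hω0
    (mulVec_ne_zero _ he) (vecMul_ne_zero _ (smul_ne_zero hκ0 hφ)) hω3 (Or.inl hI)

theorem Cu.step (H : Subgroup (SpecialLinearGroup ι ℤ)) (h0 : φ ⬝ᵥ e = 0)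
    (t : tv e φ ∈ H) (h0' : φ' ⬝ᵥ e' = 0) (ε x y : ℤ)
    (hc : Cu H e φ e' φ' (x + ε * (φ ⬝ᵥ e' * y)) y) : Cu H e φ e' φ' x y := by
  obtain ⟨k, hk, hm⟩ := hc
  refine ⟨k, hk, ?_⟩
  have hε : (ε • φ) ⬝ᵥ e = 0 := by rw [smul_dotProduct, h0, smul_zero]
  have hε' : (-(ε • φ)) ⬝ᵥ e = 0 := by rw [neg_dotProduct, hε, neg_zero]
  have hg : tv e (-(ε • φ)) ∈ H := by
    rw [tv_neg_right hε]; exact Subgroup.inv_mem _ (tv_smul_mem h0 t ε)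
  have h1 := conj_mem (by rw [smul_dotProduct, omega_w h0 h0', smul_zero]) hm hg
  have h2 : (tv e (-(ε • φ)))⁻¹ = tv e (ε • φ) := by rw [tv_neg_right hε, inv_inv]
  rw [h2, tv_mulVec hε', tv_vecMul hε] at h1
  have e1 : (x + ε * (φ ⬝ᵥ e' * y)) • e + y • e' +
      ((-(ε • φ)) ⬝ᵥ ((x + ε * (φ ⬝ᵥ e' * y)) • e + y • e')) • e = x • e + y • e' := by
    have : (-(ε • φ)) ⬝ᵥ ((x + ε * (φ ⬝ᵥ e' * y)) • e + y • e') = -(ε * (φ ⬝ᵥ e' * y)) := by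
      rw [neg_dotProduct, smul_dotProduct, dotProduct_add, dotProduct_smul, dotProduct_smul, h0]
      simp only [smul_eq_mul]; ring
    rw [this]
    ext i
    simp only [Pi.add_apply, Pi.smul_apply, smul_eq_mul]; ring
  have e2 : k • ((φ' ⬝ᵥ e * (x + ε * (φ ⬝ᵥ e' * y))) • φ - (φ ⬝ᵥ e' * y) • φ') +
      ((k • ((φ' ⬝ᵥ e * (x + ε * (φ ⬝ᵥ e' * y))) • φ - (φ ⬝ᵥ e' * y) • φ')) ⬝ᵥ e) • ε • φ
      = k • ((φ' ⬝ᵥ e * x) • φ - (φ ⬝ᵥ e' * y) • φ') := by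
    have : (k • ((φ' ⬝ᵥ e * (x + ε * (φ ⬝ᵥ e' * y))) • φ - (φ ⬝ᵥ e' * y) • φ')) ⬝ᵥ e
        = -(k * (φ ⬝ᵥ e' * y * (φ' ⬝ᵥ e))) := by
      rw [smul_dotProduct, sub_dotProduct, smul_dotProduct, smul_dotProduct, h0]
      simp only [smul_eq_mul]; ring
    rw [this]
    ext i
    simp only [Pi.add_apply, Pi.sub_apply, Pi.smul_apply, smul_eq_mul]; ring
  rw [e1, e2] at h1
  exact h1

theorem Cu.swap {H : Subgroup (SpecialLinearGroup ι ℤ)} {x y : ℤ}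
    (hc : Cu H e' φ' e φ y x) : Cu H e φ e' φ' x y := by
  obtain ⟨k, hk, hm⟩ := hc
  refine ⟨-k, neg_ne_zero.mpr hk, ?_⟩
  have h1 : (-k) • ((φ' ⬝ᵥ e * x) • φ - (φ ⬝ᵥ e' * y) • φ')
      = k • ((φ ⬝ᵥ e' * y) • φ' - (φ' ⬝ᵥ e * x) • φ) := by
    rw [neg_smul, ← smul_neg, neg_sub]
  rw [h1, add_comm (x • e)]
  exact hm

/-- the algebra spanned by the four rank one matrices -/
def Q4 (e φ e' φ' : ι → ℤ) (a b c d : ℤ) : Matrix ι ι ℤ :=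
  a • vecMulVec e φ + b • vecMulVec e φ' + c • vecMulVec e' φ + d • vecMulVec e' φ'

theorem Q4_mul (h0 : φ ⬝ᵥ e = 0) (h0' : φ' ⬝ᵥ e' = 0) (a b c d a' b' c' d' : ℤ) :
    Q4 e φ e' φ' a b c d * Q4 e φ e' φ' a' b' c' d' =
      Q4 e φ e' φ' (b * (φ' ⬝ᵥ e) * a' + a * (φ ⬝ᵥ e') * c') (b * (φ' ⬝ᵥ e) * b' + a * (φ ⬝ᵥ e') * d')
        (d * (φ' ⬝ᵥ e) * a' + c * (φ ⬝ᵥ e') * c') (d * (φ' ⬝ᵥ e) * b' + c * (φ ⬝ᵥ e') * d') := by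
  unfold Q4
  simp only [Matrix.add_mul, Matrix.mul_add, Matrix.smul_mul, Matrix.mul_smul,
    vecMulVec_mul_vecMulVec, h0, h0', zero_smul, vecMulVec_zero, smul_zero, add_zero, zero_add]
  ext i j
  simp only [Matrix.add_apply, Matrix.smul_apply, vecMulVec_apply, Pi.smul_apply, smul_eq_mul]
  ring

theorem tt_coe (h0 : φ ⬝ᵥ e = 0) (h0' : φ' ⬝ᵥ e' = 0) :
    ((tv e φ * tv e' φ' : SpecialLinearGroup ι ℤ) : Matrix ι ι ℤ)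
      = 1 + Q4 e φ e' φ' 1 (φ ⬝ᵥ e') 0 1 := by
  rw [Matrix.SpecialLinearGroup.coe_mul, tv_coe h0, tv_coe h0']
  unfold Q4
  simp only [Matrix.add_mul, Matrix.mul_add, Matrix.one_mul, Matrix.mul_one,
    vecMulVec_mul_vecMulVec, one_smul, zero_smul, add_zero]
  ext i j
  simp only [Matrix.add_apply, Matrix.smul_apply, vecMulVec_apply, Pi.smul_apply, smul_eq_mul]
  ring

/-- when `φ(e') φ'(e) = -4` the fourth power of the product is a transvection -/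
theorem tt_four (h0 : φ ⬝ᵥ e = 0) (h0' : φ' ⬝ᵥ e' = 0) (hc : (φ ⬝ᵥ e') * (φ' ⬝ᵥ e) = -4) :
    (tv e φ * tv e' φ') ^ 4 =
      tv ((2 : ℤ) • e - (φ' ⬝ᵥ e) • e') (-((2 : ℤ) • φ + (φ ⬝ᵥ e') • φ')) := by
  have h1 : (-((2 : ℤ) • φ + (φ ⬝ᵥ e') • φ')) ⬝ᵥ ((2 : ℤ) • e - (φ' ⬝ᵥ e) • e') = 0 := by
    rw [neg_dotProduct, add_dotProduct, smul_dotProduct, smul_dotProduct, dotProduct_sub,
      dotProduct_sub, dotProduct_smul, dotProduct_smul, dotProduct_smul, dotProduct_smul, h0, h0']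
    simp only [smul_eq_mul]; ring
  apply SL_ext
  rw [tv_coe h1, Matrix.SpecialLinearGroup.coe_pow, tt_coe h0 h0']
  have h2 : (1 + Q4 e φ e' φ' 1 (φ ⬝ᵥ e') 0 1) ^ 2 =
      1 + Q4 e φ e' φ' (-2) (-(φ ⬝ᵥ e')) (φ' ⬝ᵥ e) (-2) := by
    have : (1 + Q4 e φ e' φ' 1 (φ ⬝ᵥ e') 0 1) ^ 2 = 1 + (2 : ℤ) • Q4 e φ e' φ' 1 (φ ⬝ᵥ e') 0 1 +
        Q4 e φ e' φ' 1 (φ ⬝ᵥ e') 0 1 * Q4 e φ e' φ' 1 (φ ⬝ᵥ e') 0 1 := by
      rw [sq, Matrix.add_mul, Matrix.mul_add, Matrix.mul_add, two_smul]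
      simp only [Matrix.one_mul, Matrix.mul_one]
      abel
    rw [this, Q4_mul h0 h0', add_assoc]
    congr 1
    unfold Q4
    ext i j
    simp only [Matrix.add_apply, Matrix.smul_apply, vecMulVec_apply, smul_eq_mul]
    linear_combination (e i * φ j + (φ ⬝ᵥ e') * e i * φ' j + e' i * φ' j) * hc
  have h3 : (1 + Q4 e φ e' φ' (-2) (-(φ ⬝ᵥ e')) (φ' ⬝ᵥ e) (-2)) ^ 2 =
      1 + (2 : ℤ) • Q4 e φ e' φ' (-2) (-(φ ⬝ᵥ e')) (φ' ⬝ᵥ e) (-2) := by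
    have : (1 + Q4 e φ e' φ' (-2) (-(φ ⬝ᵥ e')) (φ' ⬝ᵥ e) (-2)) ^ 2 =
        1 + (2 : ℤ) • Q4 e φ e' φ' (-2) (-(φ ⬝ᵥ e')) (φ' ⬝ᵥ e) (-2) +
        Q4 e φ e' φ' (-2) (-(φ ⬝ᵥ e')) (φ' ⬝ᵥ e) (-2) *
          Q4 e φ e' φ' (-2) (-(φ ⬝ᵥ e')) (φ' ⬝ᵥ e) (-2) := by
      rw [sq, Matrix.add_mul, Matrix.mul_add, Matrix.mul_add, two_smul]
      simp only [Matrix.one_mul, Matrix.mul_one]
      abel
    rw [this, Q4_mul h0 h0']
    have h4 : Q4 e φ e' φ'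
        (-(φ ⬝ᵥ e') * (φ' ⬝ᵥ e) * -2 + -2 * (φ ⬝ᵥ e') * (φ' ⬝ᵥ e))
        (-(φ ⬝ᵥ e') * (φ' ⬝ᵥ e) * -(φ ⬝ᵥ e') + -2 * (φ ⬝ᵥ e') * -2)
        (-2 * (φ' ⬝ᵥ e) * -2 + (φ' ⬝ᵥ e) * (φ ⬝ᵥ e') * (φ' ⬝ᵥ e))
        (-2 * (φ' ⬝ᵥ e) * -(φ ⬝ᵥ e') + (φ' ⬝ᵥ e) * (φ ⬝ᵥ e') * -2) = 0 := by
      have a1 : -(φ ⬝ᵥ e') * (φ' ⬝ᵥ e) * -2 + -2 * (φ ⬝ᵥ e') * (φ' ⬝ᵥ e) = 0 := by ring
      have a2 : -(φ ⬝ᵥ e') * (φ' ⬝ᵥ e) * -(φ ⬝ᵥ e') + -2 * (φ ⬝ᵥ e') * -2 = 0 := by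
        linear_combination (φ ⬝ᵥ e') * hc
      have a3 : -2 * (φ' ⬝ᵥ e) * -2 + (φ' ⬝ᵥ e) * (φ ⬝ᵥ e') * (φ' ⬝ᵥ e) = 0 := by
        linear_combination (φ' ⬝ᵥ e) * hc
      have a4 : -2 * (φ' ⬝ᵥ e) * -(φ ⬝ᵥ e') + (φ' ⬝ᵥ e) * (φ ⬝ᵥ e') * -2 = 0 := by ring
      rw [a1, a2, a3, a4]
      unfold Q4
      simp
    rw [h4, add_zero]
  have h5 : (1 + Q4 e φ e' φ' 1 (φ ⬝ᵥ e') 0 1) ^ 4 = ((1 + Q4 e φ e' φ' 1 (φ ⬝ᵥ e') 0 1) ^ 2) ^ 2 := by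
    rw [← pow_mul]
  rw [h5, h2, h3]
  congr 1
  unfold Q4
  ext i j
  simp only [Matrix.add_apply, Matrix.smul_apply, vecMulVec_apply, smul_eq_mul, Pi.neg_apply,
    Pi.sub_apply, Pi.add_apply, Pi.smul_apply]
  linear_combination (-(e' i * φ' j)) * hc

theorem Cu.four {H : Subgroup (SpecialLinearGroup ι ℤ)} (h0 : φ ⬝ᵥ e = 0) (h0' : φ' ⬝ᵥ e' = 0)
    (t : tv e φ ∈ H) (t' : tv e' φ' ∈ H) (hc : (φ ⬝ᵥ e') * (φ' ⬝ᵥ e) = -4) {x y : ℤ}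
    (hxy : (φ ⬝ᵥ e') * y = 2 * x) : Cu H e φ e' φ' x y := by
  have hβ : φ' ⬝ᵥ e ≠ 0 := by
    intro h; rw [h, mul_zero] at hc; norm_num at hc
  have h1 : (-((2 : ℤ) • φ + (φ ⬝ᵥ e') • φ')) ⬝ᵥ ((2 : ℤ) • e - (φ' ⬝ᵥ e) • e') = 0 := by
    rw [neg_dotProduct, add_dotProduct, smul_dotProduct, smul_dotProduct, dotProduct_sub,
      dotProduct_sub, dotProduct_smul, dotProduct_smul, dotProduct_smul, dotProduct_smul, h0, h0']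
    simp only [smul_eq_mul]; ring
  have h2 : tv ((2 : ℤ) • e - (φ' ⬝ᵥ e) • e') (-((2 : ℤ) • φ + (φ ⬝ᵥ e') • φ')) ∈ H := by
    rw [← tt_four h0 h0' hc]
    exact Subgroup.pow_mem _ (Subgroup.mul_mem _ t t') _
  have hβx : (φ' ⬝ᵥ e) * x = -2 * y := by
    have h3 : 2 * ((φ' ⬝ᵥ e) * x) = 2 * (-2 * y) := by
      linear_combination y * hc - (φ' ⬝ᵥ e) * hxy
    exact mul_left_cancel₀ two_ne_zero h3
  refine tv_prop h1 h2 (omega_w h0 h0' x y) (neg_ne_zero.mpr hβ) one_ne_zero (b := y) (d := y) ?_ ?_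
  · ext i
    simp only [Pi.smul_apply, Pi.add_apply, Pi.sub_apply, smul_eq_mul]
    linear_combination (-(e i)) * hβx
  · ext i
    simp only [Pi.smul_apply, Pi.sub_apply, Pi.neg_apply, Pi.add_apply, smul_eq_mul]
    linear_combination (φ i) * hβx

theorem Cu.neg {H : Subgroup (SpecialLinearGroup ι ℤ)} {x y : ℤ}
    (hc : Cu H e φ e' (-φ') x y) : Cu H e φ e' φ' x y := by
  obtain ⟨k, hk, hm⟩ := hc
  refine ⟨-k, neg_ne_zero.mpr hk, ?_⟩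
  have h1 : (-k) • ((φ' ⬝ᵥ e * x) • φ - (φ ⬝ᵥ e' * y) • φ')
      = k • (((-φ') ⬝ᵥ e * x) • φ - (φ ⬝ᵥ e' * y) • (-φ')) := by
    rw [neg_dotProduct]
    ext i
    simp only [Pi.smul_apply, Pi.sub_apply, Pi.neg_apply, smul_eq_mul]
    ring
  rw [h1]
  exact hm

theorem Cu.four' {H : Subgroup (SpecialLinearGroup ι ℤ)} (h0 : φ ⬝ᵥ e = 0) (h0' : φ' ⬝ᵥ e' = 0)
    (t : tv e φ ∈ H) (t' : tv e' φ' ∈ H) (hc : (φ ⬝ᵥ e') * (φ' ⬝ᵥ e) = -4) {x y : ℤ}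
    (hxy : (φ ⬝ᵥ e') * y = 2 * x ∨ (φ ⬝ᵥ e') * y = -(2 * x)) : Cu H e φ e' φ' x y := by
  rcases hxy with hxy | hxy
  · exact Cu.four h0 h0' t t' hc hxy
  · apply Cu.swap
    apply Cu.four h0' h0 t' t (by rw [mul_comm]; exact hc)
    have h3 : 2 * ((φ' ⬝ᵥ e) * x) = 2 * (2 * y) := by
      linear_combination (-y) * hc + (φ' ⬝ᵥ e) * hxy
    exact mul_left_cancel₀ two_ne_zero h3

theorem Cu.small {H : Subgroup (SpecialLinearGroup ι ℤ)} (h0 : φ ⬝ᵥ e = 0) (h0' : φ' ⬝ᵥ e' = 0)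
    (t : tv e φ ∈ H) (t' : tv e' φ' ∈ H) (hα : φ ⬝ᵥ e' ≠ 0) (hβ : φ' ⬝ᵥ e ≠ 0)
    (hc : |(φ ⬝ᵥ e') * (φ' ⬝ᵥ e)| ≤ 4) :
    ∀ (m : ℕ) (x y : ℤ), x.natAbs + ((φ ⬝ᵥ e') * y).natAbs = m → Cu H e φ e' φ' x y := by
  intro m
  induction m using Nat.strong_induction_on with
  | _ m IH =>
    intro x y hm
    by_cases hy : y = 0
    · refine ⟨1, one_ne_zero, ?_⟩
      subst hy
      have : (1 : ℤ) • ((φ' ⬝ᵥ e * x) • φ - (φ ⬝ᵥ e' * 0) • φ') = (φ' ⬝ᵥ e * x) • φ := by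
        rw [one_smul, mul_zero, zero_smul, sub_zero]
      rw [this, zero_smul, add_zero, tv_smul_comm (by rw [smul_dotProduct, h0, smul_zero]), smul_smul]
      exact tv_smul_mem h0 t _
    by_cases hx : x = 0
    · refine ⟨1, one_ne_zero, ?_⟩
      subst hx
      have : (1 : ℤ) • ((φ' ⬝ᵥ e * 0) • φ - (φ ⬝ᵥ e' * y) • φ') = (-(φ ⬝ᵥ e' * y)) • φ' := by
        rw [one_smul, mul_zero, zero_smul, zero_sub, neg_smul]
      rw [this, zero_smul, zero_add, tv_smul_comm (by rw [smul_dotProduct, h0', smul_zero]), smul_smul]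
      exact tv_smul_mem h0' t' _
    have hY : φ ⬝ᵥ e' * y ≠ 0 := mul_ne_zero hα hy
    by_cases h1 : |φ ⬝ᵥ e' * y| < 2 * |x|
    · -- reduce x
      obtain ⟨ε, hε⟩ : ∃ ε : ℤ, (x + ε * (φ ⬝ᵥ e' * y)).natAbs < x.natAbs := by
        rcases lt_or_gt_of_ne hx with hx' | hx' <;> rcases lt_or_gt_of_ne hY with hY' | hY'
        · refine ⟨-1, ?_⟩
          rw [abs_of_neg hx', abs_of_neg hY'] at h1
          omega
        · refine ⟨1, ?_⟩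
          rw [abs_of_neg hx', abs_of_pos hY'] at h1
          omega
        · refine ⟨1, ?_⟩
          rw [abs_of_pos hx', abs_of_neg hY'] at h1
          omega
        · refine ⟨-1, ?_⟩
          rw [abs_of_pos hx', abs_of_pos hY'] at h1
          omega
      exact Cu.step H h0 t h0' ε x y (IH _ (by omega) _ _ rfl)
    · by_cases h2 : |(φ ⬝ᵥ e') * (φ' ⬝ᵥ e) * x| < 2 * |φ ⬝ᵥ e' * y|
      · -- reduce y
        have hcx : (φ ⬝ᵥ e') * (φ' ⬝ᵥ e) * x ≠ 0 := mul_ne_zero (mul_ne_zero hα hβ) hx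
        obtain ⟨ε, hε⟩ : ∃ ε : ℤ, ((φ ⬝ᵥ e') * (y + ε * (φ' ⬝ᵥ e * x))).natAbs
            < (φ ⬝ᵥ e' * y).natAbs := by
          have hexp : ∀ ε : ℤ, (φ ⬝ᵥ e') * (y + ε * (φ' ⬝ᵥ e * x))
              = φ ⬝ᵥ e' * y + ε * ((φ ⬝ᵥ e') * (φ' ⬝ᵥ e) * x) := by intro ε; ring
          simp_rw [hexp]
          rcases lt_or_gt_of_ne hcx with hx' | hx' <;> rcases lt_or_gt_of_ne hY with hY' | hY'
          · refine ⟨-1, ?_⟩
            rw [abs_of_neg hx', abs_of_neg hY'] at h2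
            omega
          · refine ⟨1, ?_⟩
            rw [abs_of_neg hx', abs_of_pos hY'] at h2
            omega
          · refine ⟨1, ?_⟩
            rw [abs_of_pos hx', abs_of_neg hY'] at h2
            omega
          · refine ⟨-1, ?_⟩
            rw [abs_of_pos hx', abs_of_pos hY'] at h2
            omega
        apply Cu.swap
        apply Cu.step H h0' t' h0 ε y x
        apply Cu.swap
        exact IH _ (by omega) _ _ rfl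
      · -- |c| = 4 and |α y| = 2 |x|
        push Not at h1 h2
        have hxp : 0 < |x| := abs_pos.mpr hx
        rw [abs_mul ((φ ⬝ᵥ e') * (φ' ⬝ᵥ e)) x] at h2
        have hc4 : |(φ ⬝ᵥ e') * (φ' ⬝ᵥ e)| = 4 := by
          apply le_antisymm hc
          by_contra hlt
          push Not at hlt
          have : |(φ ⬝ᵥ e') * (φ' ⬝ᵥ e)| * |x| ≤ 3 * |x| := by
            apply mul_le_mul_of_nonneg_right _ hxp.le
            omega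
          linarith
        rw [hc4] at h2
        have h3 : |φ ⬝ᵥ e' * y| = |2 * x| := by
          rw [abs_mul 2 x, abs_two]
          linarith
        have h4 := abs_eq_abs.mp h3
        rcases (abs_eq (by norm_num : (0 : ℤ) ≤ 4)).mp hc4 with h5 | h5
        · apply Cu.neg
          apply Cu.four' h0 (by rw [neg_dotProduct, h0', neg_zero]) t
            (by rw [tv_neg_right h0']; exact Subgroup.inv_mem _ t')
            (by rw [neg_dotProduct, mul_neg, h5])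
          rcases h4 with h4 | h4
          · exact Or.inl h4
          · exact Or.inr h4
        · apply Cu.four' h0 h0' t t' h5
          rcases h4 with h4 | h4
          · exact Or.inl h4
          · exact Or.inr h4

/-- Two transvections with `|φ(e') φ'(e)| ≤ 4` which are not commensurable force finite index. -/
theorem small_pair (hcard : 3 ≤ Fintype.card ι) {H : Subgroup (SpecialLinearGroup ι ℤ)}
    (hD : ZDense H) (he : e ≠ 0) (hφ : φ ≠ 0) (he' : e' ≠ 0) (hφ' : φ' ≠ 0)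
    (h0 : φ ⬝ᵥ e = 0) (h0' : φ' ⬝ᵥ e' = 0)
    (t : tv e φ ∈ H) (t' : tv e' φ' ∈ H) (hc : |(φ ⬝ᵥ e') * (φ' ⬝ᵥ e)| ≤ 4)
    (hI : Indep e e' ∨ Indep φ φ') : H.FiniteIndex := by
  by_cases hα : φ ⬝ᵥ e' = 0
  · exact pair_zero hcard hD h0 h0' t t' he hφ he' hφ' hα hI
  by_cases hβ : φ' ⬝ᵥ e = 0
  · exact pair_zero hcard hD h0' h0 t' t he' hφ' he hφ hβ (hI.imp Indep.symm Indep.symm)
  exact cusp_case hcard hD h0 h0' hα hβ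
    (fun x y => Cu.small h0 h0' t t' hα hβ hc _ x y rfl)

end cusp

end Pool.Agent.H48SL
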