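import Pool.Agent.helper48.SLn.Pairs

/-!
Small matrix coefficients `φ (g e)` in a Zariski dense subgroup of `SL(ι, ℤ)` containing the
transvection `1 + e ⊗ φ`.
-/

namespace Pool.Agent.H48SL

open Matrix

variable {ι : Type*} [Fintype ι] [DecidableEq ι]

/-- the matrix coefficient -/
def cf (e φ : ι → ℤ) (g : SpecialLinearGroup ι ℤ) : ℤ := φ ⬝ᵥ ((g : Matrix ι ι ℤ) *ᵥ e)

theorem cf_mul {e φ : ι → ℤ} (h0 : φ ⬝ᵥ e = 0) (g1 g2 : SpecialLinearGroup ι ℤ) (m : ℤ) :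
    cf e φ (g1 * (tv e φ) ^ m * g2) = cf e φ (g1 * g2) + m * (cf e φ g1 * cf e φ g2) := by
  unfold cf
  rw [← tv_zsmul_right h0, Matrix.SpecialLinearGroup.coe_mul, Matrix.SpecialLinearGroup.coe_mul,
    Matrix.SpecialLinearGroup.coe_mul, ← mulVec_mulVec, ← mulVec_mulVec, ← mulVec_mulVec,
    tv_mulVec (by rw [smul_dotProduct, h0, smul_zero]), mulVec_add, mulVec_smul, dotProduct_add,
    dotProduct_smul, smul_dotProduct]
  simp only [smul_eq_mul]
  ring

variable {H : Subgroup (SpecialLinearGroup ι ℤ)} {e φ : ι → ℤ}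

theorem conj_small (hcard : 3 ≤ Fintype.card ι) (hD : ZDense H) (he : e ≠ 0) (hφ : φ ≠ 0)
    (h0 : φ ⬝ᵥ e = 0) (t : tv e φ ∈ H) {h : SpecialLinearGroup ι ℤ} (hh : h ∈ H)
    (hne : cf e φ h ≠ 0) (hc : |cf e φ h * cf e φ h⁻¹| ≤ 4) : H.FiniteIndex := by
  refine small_pair hcard hD he hφ (mulVec_ne_zero h he) (vecMul_ne_zero h⁻¹ hφ) h0
    (by rw [vecMul_inv_dot, h0]) t (conj_mem h0 t hh) ?_ (Or.inl (indep_of_dot hne h0 he).symm)
  rw [← dotProduct_mulVec]
  exact hc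

theorem ncase (hcard : 3 ≤ Fintype.card ι) (hD : ZDense H) (he : e ≠ 0) (hφ : φ ≠ 0)
    (h0 : φ ⬝ᵥ e = 0) (t : tv e φ ∈ H) (hfi : ¬ H.FiniteIndex)
    {g1 g2 : SpecialLinearGroup ι ℤ} (h1 : g1 ∈ H) (h2 : g2 ∈ H) (m : ℤ)
    (hz : cf e φ (g1 * (tv e φ) ^ m * g2) = 0) :
    cf e φ g1 = cf e φ g2⁻¹ ∨ cf e φ g1 = - cf e φ g2⁻¹ := by
  have hg : g1 * (tv e φ) ^ m * g2 ∈ H :=
    Subgroup.mul_mem _ (Subgroup.mul_mem _ h1 (Subgroup.zpow_mem _ t _)) h2
  obtain ⟨_, h3⟩ := zero_case hcard hD he hφ h0 t hg hz hfi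
  have h4 : ((g1 * (tv e φ) ^ m * g2 : SpecialLinearGroup ι ℤ) : Matrix ι ι ℤ) *ᵥ
      (((g2⁻¹ : SpecialLinearGroup ι ℤ) : Matrix ι ι ℤ) *ᵥ e) = (g1 : Matrix ι ι ℤ) *ᵥ e := by
    rw [mulVec_mulVec, ← Matrix.SpecialLinearGroup.coe_mul, mul_inv_cancel_right,
      Matrix.SpecialLinearGroup.coe_mul, ← mulVec_mulVec, ← tv_zsmul_right h0,
      tv_mulVec (by rw [smul_dotProduct, h0, smul_zero]), smul_dotProduct, h0]
    simp
  have h5 : cf e φ g1 = (φ ᵥ* ((g1 * (tv e φ) ^ m * g2 : SpecialLinearGroup ι ℤ) : Matrix ι ι ℤ)) ⬝ᵥ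
      (((g2⁻¹ : SpecialLinearGroup ι ℤ) : Matrix ι ι ℤ) *ᵥ e) := by
    rw [← dotProduct_mulVec, h4]; rfl
  rcases h3 with h3 | h3
  · left; rw [h5, h3]; rfl
  · right; rw [h5, h3, neg_dotProduct]; rfl

theorem unit_case (hcard : 3 ≤ Fintype.card ι) (hD : ZDense H) (he : e ≠ 0) (hφ : φ ≠ 0)
    (h0 : φ ⬝ᵥ e = 0) (t : tv e φ ∈ H) {h : SpecialLinearGroup ι ℤ} (hh : h ∈ H)
    (hc : |cf e φ h| = 1) : H.FiniteIndex := by
  by_contra hfi
  have hsq : cf e φ h * cf e φ h = 1 := by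
    rw [← abs_mul_abs_self, hc, one_mul]
  have hz : cf e φ (h * (tv e φ) ^ (-(cf e φ (h * h))) * h) = 0 := by
    rw [cf_mul h0, hsq]; ring
  have h1 := ncase hcard hD he hφ h0 t hfi hh hh _ hz
  apply hfi
  apply conj_small hcard hD he hφ h0 t hh (by intro h2; rw [h2] at hc; norm_num at hc)
  have h2 : |cf e φ h⁻¹| = 1 := by
    rcases h1 with h1 | h1
    · rw [← h1]; exact hc
    · rw [← abs_neg, ← h1]; exact hc
  rw [abs_mul, hc, h2]; norm_num

theorem double_case (hcard : 3 ≤ Fintype.card ι) (hD : ZDense H) (he : e ≠ 0) (hφ : φ ≠ 0)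
    (h0 : φ ⬝ᵥ e = 0) (t : tv e φ ∈ H) {h : SpecialLinearGroup ι ℤ} (hh : h ∈ H)
    (hc : |cf e φ h| = 2) : H.FiniteIndex := by
  by_contra hfi
  have hU : ∀ g ∈ H, |cf e φ g| ≠ 1 := fun g hg h1 =>
    hfi (unit_case hcard hD he hφ h0 t hg h1)
  have hch : cf e φ h = 2 ∨ cf e φ h = -2 := (abs_eq (by norm_num)).mp hc
  have claim : ∀ k : ℕ, 1 ≤ k → (∀ i : ℕ, 1 ≤ i → i ≤ k → cf e φ (h ^ i) % 4 = 2) ∧
      ∃ g ∈ H, |cf e φ g| = 2 ∧ ∀ j : ℕ, (∀ i : ℕ, 1 ≤ i → i < k + j → (2 : ℤ) ∣ cf e φ (h ^ i)) →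
        (4 : ℤ) ∣ cf e φ (g * h ^ j) - cf e φ (h ^ (k + j)) := by
    intro k hk
    induction k, hk using Nat.le_induction with
    | base =>
      refine ⟨?_, h, hh, hc, ?_⟩
      · intro i hi1 hi2
        have : i = 1 := le_antisymm hi2 hi1
        subst this
        rw [pow_one]
        rcases hch with h1 | h1 <;> rw [h1] <;> norm_num
      · intro j _
        rw [pow_add, pow_one, sub_self]
        exact dvd_zero _
    | succ k hk ih =>
      obtain ⟨ih1, g, hg, hcg, hB⟩ := ih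
      have hcg' : cf e φ g = 2 ∨ cf e φ g = -2 := (abs_eq (by norm_num)).mp hcg
      have hB1 := hB 1 (by
        intro i hi1 hi2
        have := ih1 i hi1 (by omega)
        omega)
      rw [pow_one] at hB1
      -- the possible shifts
      have hshift : ∀ r : ℤ, (4 : ℤ) ∣ cf e φ (g * h) - r →
          ∃ m : ℤ, cf e φ (g * (tv e φ) ^ m * h) = r := by
        intro r hr
        obtain ⟨q, hq⟩ := hr
        have hs : cf e φ g * cf e φ h = 4 ∨ cf e φ g * cf e φ h = -4 := by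
          rcases hcg' with h1 | h1 <;> rcases hch with h2 | h2 <;> rw [h1, h2] <;> norm_num
        rcases hs with hs | hs
        · refine ⟨-q, ?_⟩
          rw [cf_mul h0, hs]; linarith
        · refine ⟨q, ?_⟩
          rw [cf_mul h0, hs]; linarith
      have hmod : cf e φ (h ^ (k + 1)) % 4 = 2 := by
        have h4 : (cf e φ (h ^ (k + 1))) % 4 = 0 ∨ (cf e φ (h ^ (k + 1))) % 4 = 1 ∨
          (cf e φ (h ^ (k + 1))) % 4 = 2 ∨ (cf e φ (h ^ (k + 1))) % 4 = 3 := by omega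
        rcases h4 with h4 | h4 | h4 | h4
        · exfalso
          obtain ⟨m, hm⟩ := hshift 0 (by omega)
          have h1 := ncase hcard hD he hφ h0 t hfi hg hh _ hm
          have h2 : |cf e φ h⁻¹| = 2 := by
            rcases h1 with h1 | h1
            · rw [← h1]; exact hcg
            · rw [← abs_neg, ← h1]; exact hcg
          apply hfi
          apply conj_small hcard hD he hφ h0 t hh (by intro h3; rw [h3] at hc; norm_num at hc)
          rw [abs_mul, hc, h2]; norm_num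
        · exfalso
          obtain ⟨m, hm⟩ := hshift 1 (by omega)
          refine hU _ (Subgroup.mul_mem _ (Subgroup.mul_mem _ hg (Subgroup.zpow_mem _ t m)) hh) ?_
          rw [hm]; norm_num
        · exact h4
        · exfalso
          obtain ⟨m, hm⟩ := hshift (-1) (by omega)
          refine hU _ (Subgroup.mul_mem _ (Subgroup.mul_mem _ hg (Subgroup.zpow_mem _ t m)) hh) ?_
          rw [hm]; norm_num
      obtain ⟨m, hm⟩ := hshift 2 (by omega)
      refine ⟨?_, g * (tv e φ) ^ m * h,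
        Subgroup.mul_mem _ (Subgroup.mul_mem _ hg (Subgroup.zpow_mem _ t m)) hh,
        by rw [hm]; norm_num, ?_⟩
      · intro i hi1 hi2
        rcases Nat.lt_or_ge i (k + 1) with h5 | h5
        · exact ih1 i hi1 (by omega)
        · have : i = k + 1 := le_antisymm hi2 h5
          rw [this]; exact hmod
      · intro j hj
        have h5 := hB (j + 1) (by
          intro i hi1 hi2
          exact hj i hi1 (by omega))
        have h6 : (2 : ℤ) ∣ cf e φ (h ^ (j + 1)) := hj (j + 1) (by omega) (by omega)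
        have h7 : g * (tv e φ) ^ m * h * h ^ j = g * (tv e φ) ^ m * h ^ (j + 1) := by
          rw [mul_assoc, ← pow_succ']
        have h8 : k + 1 + j = k + (j + 1) := by omega
        rw [h7, h8, cf_mul h0]
        have h9 : (4 : ℤ) ∣ cf e φ g * cf e φ (h ^ (j + 1)) := by
          obtain ⟨q, hq⟩ := h6
          rcases hcg' with h10 | h10
          · exact ⟨q, by rw [h10, hq]; ring⟩
          · exact ⟨-q, by rw [h10, hq]; ring⟩
        have h11 : cf e φ (g * h ^ (j + 1)) + m * (cf e φ g * cf e φ (h ^ (j + 1))) -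
            cf e φ (h ^ (k + (j + 1))) = (cf e φ (g * h ^ (j + 1)) - cf e φ (h ^ (k + (j + 1)))) +
              m * (cf e φ g * cf e φ (h ^ (j + 1))) := by ring
        rw [h11]
        exact dvd_add h5 (Dvd.dvd.mul_left h9 m)
  obtain ⟨K, hK, hcong⟩ := exists_pow_cong h 4 (by norm_num)
  obtain ⟨B, hB⟩ := mem_Cong.mp hcong
  have h1 := (claim K hK).1 K hK le_rfl
  have h2 : cf e φ (h ^ K) = 4 * (φ ⬝ᵥ (B *ᵥ e)) := by
    unfold cf
    rw [hB, add_mulVec, one_mulVec, dotProduct_add, h0, zero_add, smul_mulVec, dotProduct_smul,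
      smul_eq_mul]
    rfl
  omega

/-- The main theorem on small coefficients. -/
theorem coef_case (hcard : 3 ≤ Fintype.card ι) (hD : ZDense H) (he : e ≠ 0) (hφ : φ ≠ 0)
    (h0 : φ ⬝ᵥ e = 0) (t : tv e φ ∈ H) (hfi : ¬ H.FiniteIndex) {g : SpecialLinearGroup ι ℤ}
    (hg : g ∈ H) (hc : |cf e φ g| ≤ 2) :
    (g * tv e φ * g⁻¹ = tv e φ ∨ g * tv e φ * g⁻¹ = (tv e φ)⁻¹) ∧
      ∃ k : ℕ, 1 ≤ k ∧ ∃ m : ℤ, g ^ k = (tv e φ) ^ m := by
  have hnn : 0 ≤ |cf e φ g| := abs_nonneg _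
  have hz : cf e φ g = 0 := by
    rcases (by omega : |cf e φ g| = 0 ∨ |cf e φ g| = 1 ∨ |cf e φ g| = 2) with h | h | h
    · exact abs_eq_zero.mp h
    · exact absurd (unit_case hcard hD he hφ h0 t hg h) hfi
    · exact absurd (double_case hcard hD he hφ h0 t hg h) hfi
  obtain ⟨h1, h2⟩ := zero_case hcard hD he hφ h0 t hg hz hfi
  constructor
  · rw [tv_conj h0]
    have h3 : φ ᵥ* ((g⁻¹ : SpecialLinearGroup ι ℤ) : Matrix ι ι ℤ) = φ ∨
        φ ᵥ* ((g⁻¹ : SpecialLinearGroup ι ℤ) : Matrix ι ι ℤ) = -φ :=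
      neg_cases_right (g := g⁻¹) (by rw [inv_inv]; exact h2)
    have hneg : tv (-e) φ = (tv e φ)⁻¹ := by
      rw [← tv_neg_right h0]
      have := tv_smul_comm h0 (-1)
      rwa [neg_smul, one_smul, neg_smul, one_smul] at this
    rcases h1 with h1 | h1 <;> rcases h3 with h3 | h3 <;> rw [h1, h3]
    · left; rfl
    · right; exact tv_neg_right h0
    · right; exact hneg
    · left
      have := tv_neg_right (e := -e) (φ := φ) (by rw [dotProduct_neg, h0, neg_zero])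
      rw [this, hneg, inv_inv]
  · by_contra hcon
    push Not at hcon
    apply hfi
    refine stab_case hcard hD he hφ h0 t hg (Or.inl ?_) hcon
    rcases h1 with h1 | h1
    · exact ⟨1, by rw [h1, one_smul]⟩
    · exact ⟨-1, by rw [h1, neg_smul, one_smul]⟩

end Pool.Agent.H48SL
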