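import Pool.Agent.helper48.SLn.Cases

/-!
Two commuting transvections with independent centres and independent axes in a Zariski dense
subgroup of `SL(ι, ℤ)` force finite index.
-/

namespace Pool.Agent.H48SL

open Matrix

variable {ι : Type*} [Fintype ι] [DecidableEq ι]

/-- functional killing `w` and not `v` -/
theorem exists_sep {v w : ι → ℤ} (h : Indep v w) : ∃ α : ι → ℤ, α ⬝ᵥ v ≠ 0 ∧ α ⬝ᵥ w = 0 := by
  obtain ⟨j, hj⟩ := Function.ne_iff.mp h.ne_right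
  rw [Pi.zero_apply] at hj
  have h1 : ∃ i, w j * v i - v j * w i ≠ 0 := by
    by_contra hcon
    push Not at hcon
    apply hj
    refine (h (w j) (-(v j)) ?_).1
    ext i
    simp only [Pi.add_apply, Pi.smul_apply, smul_eq_mul, Pi.zero_apply]
    have := hcon i
    linarith
  obtain ⟨i, hi⟩ := h1
  refine ⟨w j • Pi.single i 1 - w i • Pi.single j 1, ?_, ?_⟩
  · simp only [sub_dotProduct, smul_dotProduct, single_one_dotProduct, smul_eq_mul]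
    intro h2; apply hi; linarith
  · simp only [sub_dotProduct, smul_dotProduct, single_one_dotProduct, smul_eq_mul]
    ring

theorem four_id {e φ ρ σ : ι → ℤ} (h1 : φ ⬝ᵥ e = 0) (h2 : φ ⬝ᵥ ρ = 0) (h3 : σ ⬝ᵥ e = 0)
    (h4 : σ ⬝ᵥ ρ = 0) :
    tv ρ ((-2 : ℤ) • σ) * (tv e φ * tv e φ) = tv (e - ρ) (φ + σ) * tv (e + ρ) (φ - σ) := by
  apply SL_ext
  simp only [Matrix.SpecialLinearGroup.coe_mul]
  rw [tv_coe h1, tv_coe (by rw [smul_dotProduct, h4, smul_zero]),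
    tv_coe (by simp [dotProduct_sub, add_dotProduct, h1, h2, h3, h4]),
    tv_coe (by simp [dotProduct_add, sub_dotProduct, h1, h2, h3, h4])]
  simp only [Matrix.add_mul, Matrix.mul_add, Matrix.one_mul, Matrix.mul_one,
    vecMulVec_mul_vecMulVec, smul_dotProduct, dotProduct_add, add_dotProduct, dotProduct_sub,
    sub_dotProduct, h1, h2, h3, h4, smul_zero, add_zero, sub_zero, zero_smul, vecMulVec_zero]
  ext i j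
  simp only [Matrix.add_apply, vecMulVec_apply, Pi.smul_apply, Pi.sub_apply, Pi.add_apply, smul_eq_mul]
  ring

theorem conj12 {H : Subgroup (SpecialLinearGroup ι ℤ)} {e1 φ1 e2 φ2 e φ : ι → ℤ}
    (h11 : φ1 ⬝ᵥ e1 = 0) (h12 : φ1 ⬝ᵥ e2 = 0) (h21 : φ2 ⬝ᵥ e1 = 0) (h22 : φ2 ⬝ᵥ e2 = 0)
    (t1 : tv e1 φ1 ∈ H) (t2 : tv e2 φ2 ∈ H) (h0 : φ ⬝ᵥ e = 0) (t : tv e φ ∈ H) (k l : ℤ) :
    tv (e + (k * (φ1 ⬝ᵥ e)) • e1 + (l * (φ2 ⬝ᵥ e)) • e2)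
      (φ - (k * (φ ⬝ᵥ e1)) • φ1 - (l * (φ ⬝ᵥ e2)) • φ2) ∈ H := by
  have k1 : (k • φ1) ⬝ᵥ e1 = 0 := by rw [smul_dotProduct, h11, smul_zero]
  have k2 : (l • φ2) ⬝ᵥ e2 = 0 := by rw [smul_dotProduct, h22, smul_zero]
  have hg : tv e2 (l • φ2) * tv e1 (k • φ1) ∈ H :=
    Subgroup.mul_mem _ (tv_smul_mem h22 t2 l) (tv_smul_mem h11 t1 k)
  have h1 := conj_mem h0 t hg
  have h2 : ((tv e2 (l • φ2) * tv e1 (k • φ1) : SpecialLinearGroup ι ℤ) : Matrix ι ι ℤ) *ᵥ e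
      = e + (k * (φ1 ⬝ᵥ e)) • e1 + (l * (φ2 ⬝ᵥ e)) • e2 := by
    rw [Matrix.SpecialLinearGroup.coe_mul, ← mulVec_mulVec, tv_mulVec k1, tv_mulVec k2]
    simp only [smul_dotProduct, dotProduct_add, dotProduct_smul, h21, smul_eq_mul, mul_zero, add_zero]
  have h3 : φ ᵥ* (((tv e2 (l • φ2) * tv e1 (k • φ1))⁻¹ : SpecialLinearGroup ι ℤ) : Matrix ι ι ℤ)
      = φ - (k * (φ ⬝ᵥ e1)) • φ1 - (l * (φ ⬝ᵥ e2)) • φ2 := by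
    have k1' : (-(k • φ1)) ⬝ᵥ e1 = 0 := by rw [neg_dotProduct, k1, neg_zero]
    have k2' : (-(l • φ2)) ⬝ᵥ e2 = 0 := by rw [neg_dotProduct, k2, neg_zero]
    rw [_root_.mul_inv_rev, ← tv_neg_right k1, ← tv_neg_right k2, Matrix.SpecialLinearGroup.coe_mul,
      ← vecMul_vecMul, tv_vecMul k1', tv_vecMul k2']
    simp only [add_dotProduct, smul_dotProduct, neg_dotProduct, h12, smul_eq_mul, mul_zero,
      neg_zero, add_zero]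
    ext i
    simp only [Pi.add_apply, Pi.sub_apply, Pi.smul_apply, Pi.neg_apply, smul_eq_mul]
    ring
  rwa [h2, h3] at h1

/-- the central transvection of the Heisenberg group generated from three transvections -/
theorem rs_mem {H : Subgroup (SpecialLinearGroup ι ℤ)} {e1 φ1 e2 φ2 e φ : ι → ℤ}
    (h11 : φ1 ⬝ᵥ e1 = 0) (h12 : φ1 ⬝ᵥ e2 = 0) (h21 : φ2 ⬝ᵥ e1 = 0) (h22 : φ2 ⬝ᵥ e2 = 0)
    (t1 : tv e1 φ1 ∈ H) (t2 : tv e2 φ2 ∈ H) (h0 : φ ⬝ᵥ e = 0) (t : tv e φ ∈ H) :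
    tv (((φ1 ⬝ᵥ e) * (φ2 ⬝ᵥ e)) • ((φ ⬝ᵥ e2) • e1 - (φ ⬝ᵥ e1) • e2))
      ((-2 : ℤ) • (((φ ⬝ᵥ e1) * (φ ⬝ᵥ e2)) • ((φ2 ⬝ᵥ e) • φ1 - (φ1 ⬝ᵥ e) • φ2))) ∈ H := by
  set a1 := φ1 ⬝ᵥ e with ha1
  set a2 := φ2 ⬝ᵥ e with ha2
  set b1 := φ ⬝ᵥ e1 with hb1
  set b2 := φ ⬝ᵥ e2 with hb2
  set ρ : ι → ℤ := (a1 * a2) • (b2 • e1 - b1 • e2) with hρ
  set σ : ι → ℤ := (b1 * b2) • (a2 • φ1 - a1 • φ2) with hσ
  have h2 : φ ⬝ᵥ ρ = 0 := by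
    rw [hρ, dotProduct_smul, dotProduct_sub, dotProduct_smul, dotProduct_smul, ← hb1, ← hb2]
    simp only [smul_eq_mul]; ring
  have h3 : σ ⬝ᵥ e = 0 := by
    rw [hσ, smul_dotProduct, sub_dotProduct, smul_dotProduct, smul_dotProduct, ← ha1, ← ha2]
    simp only [smul_eq_mul]; ring
  have h4 : σ ⬝ᵥ ρ = 0 := by
    rw [hσ, hρ]
    simp only [smul_dotProduct, sub_dotProduct, dotProduct_smul, dotProduct_sub, h11, h12, h21, h22]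
    simp
  have hid := four_id h0 h2 h3 h4
  have hp := conj12 h11 h12 h21 h22 t1 t2 h0 t (-(a2 * b2)) (a1 * b1)
  have hm := conj12 h11 h12 h21 h22 t1 t2 h0 t (a2 * b2) (-(a1 * b1))
  rw [← ha1, ← ha2, ← hb1, ← hb2] at hp hm
  have e1' : e + (-(a2 * b2) * a1) • e1 + (a1 * b1 * a2) • e2 = e - ρ := by
    rw [hρ]; ext i
    simp only [Pi.add_apply, Pi.sub_apply, Pi.smul_apply, smul_eq_mul]; ring
  have e2' : φ - (-(a2 * b2) * b1) • φ1 - (a1 * b1 * b2) • φ2 = φ + σ := by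
    rw [hσ]; ext i
    simp only [Pi.add_apply, Pi.sub_apply, Pi.smul_apply, smul_eq_mul]; ring
  have e3' : e + (a2 * b2 * a1) • e1 + (-(a1 * b1) * a2) • e2 = e + ρ := by
    rw [hρ]; ext i
    simp only [Pi.add_apply, Pi.sub_apply, Pi.smul_apply, smul_eq_mul]; ring
  have e4' : φ - (a2 * b2 * b1) • φ1 - (-(a1 * b1) * b2) • φ2 = φ - σ := by
    rw [hσ]; ext i
    simp only [Pi.sub_apply, Pi.smul_apply, smul_eq_mul]; ring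
  rw [e1', e2'] at hp
  rw [e3', e4'] at hm
  have h5 : tv ρ ((-2 : ℤ) • σ) * (tv e φ * tv e φ) ∈ H := by
    rw [hid]; exact Subgroup.mul_mem _ hp hm
  exact (Subgroup.mul_mem_cancel_right _ (Subgroup.mul_mem _ t t)).mp h5

/-- `1 + x e₁ ⊗ φ₂ + y e₂ ⊗ φ₁` -/
noncomputable def EE (e1 φ1 e2 φ2 : ι → ℤ) (x y : ℤ) : SpecialLinearGroup ι ℤ :=
  tv e1 (x • φ2) * tv e2 (y • φ1)

theorem EE_coe {e1 φ1 e2 φ2 : ι → ℤ}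
    (h11 : φ1 ⬝ᵥ e1 = 0) (h12 : φ1 ⬝ᵥ e2 = 0) (h21 : φ2 ⬝ᵥ e1 = 0) (h22 : φ2 ⬝ᵥ e2 = 0) (x y : ℤ) :
    ((EE e1 φ1 e2 φ2 x y : SpecialLinearGroup ι ℤ) : Matrix ι ι ℤ)
      = 1 + x • vecMulVec e1 φ2 + y • vecMulVec e2 φ1 := by
  unfold EE
  rw [Matrix.SpecialLinearGroup.coe_mul, tv_coe (by rw [smul_dotProduct, h21, smul_zero]),
    tv_coe (by rw [smul_dotProduct, h12, smul_zero])]
  simp only [Matrix.add_mul, Matrix.mul_add, Matrix.one_mul, Matrix.mul_one,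
    vecMulVec_smul, Matrix.smul_mul, Matrix.mul_smul, vecMulVec_mul_vecMulVec, h22, smul_zero,
    zero_smul, vecMulVec_zero]
  abel

theorem EE_mul {e1 φ1 e2 φ2 : ι → ℤ}
    (h11 : φ1 ⬝ᵥ e1 = 0) (h12 : φ1 ⬝ᵥ e2 = 0) (h21 : φ2 ⬝ᵥ e1 = 0) (h22 : φ2 ⬝ᵥ e2 = 0)
    (x y x' y' : ℤ) :
    EE e1 φ1 e2 φ2 x y * EE e1 φ1 e2 φ2 x' y' = EE e1 φ1 e2 φ2 (x + x') (y + y') := by
  apply SL_ext
  rw [Matrix.SpecialLinearGroup.coe_mul]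
  simp only [EE_coe h11 h12 h21 h22]
  simp only [Matrix.add_mul, Matrix.mul_add, Matrix.one_mul, Matrix.mul_one, Matrix.smul_mul,
    Matrix.mul_smul, vecMulVec_mul_vecMulVec, h11, h22, h12, h21, smul_zero, zero_smul,
    vecMulVec_zero, add_smul]
  abel

theorem EE_zpow_mem {H : Subgroup (SpecialLinearGroup ι ℤ)} {e1 φ1 e2 φ2 : ι → ℤ}
    (h11 : φ1 ⬝ᵥ e1 = 0) (h12 : φ1 ⬝ᵥ e2 = 0) (h21 : φ2 ⬝ᵥ e1 = 0) (h22 : φ2 ⬝ᵥ e2 = 0)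
    {x y : ℤ} (h : EE e1 φ1 e2 φ2 x y ∈ H) (k : ℤ) : EE e1 φ1 e2 φ2 (k * x) (k * y) ∈ H := by
  have hnat : ∀ m : ℕ, EE e1 φ1 e2 φ2 (m * x) (m * y) = (EE e1 φ1 e2 φ2 x y) ^ m := by
    intro m
    induction m with
    | zero =>
      rw [pow_zero]
      unfold EE
      simp [tv_zero_right]
    | succ m ih =>
      rw [pow_succ, ← ih, EE_mul h11 h12 h21 h22]
      congr 1 <;> push_cast <;> ring
  rcases Int.eq_nat_or_neg k with ⟨m, rfl | rfl⟩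
  · rw [hnat]; exact Subgroup.pow_mem _ h _
  · have h3 : EE e1 φ1 e2 φ2 (-(m : ℤ) * x) (-(m : ℤ) * y) = ((EE e1 φ1 e2 φ2 x y) ^ m)⁻¹ := by
      rw [eq_inv_iff_mul_eq_one, ← hnat, EE_mul h11 h12 h21 h22]
      have : -(m : ℤ) * x + m * x = 0 := by ring
      rw [this]
      have : -(m : ℤ) * y + m * y = 0 := by ring
      rw [this]
      unfold EE
      simp [tv_zero_right]
    rw [h3]
    exact Subgroup.inv_mem _ (Subgroup.pow_mem _ h _)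

theorem EE_mem {H : Subgroup (SpecialLinearGroup ι ℤ)} {e1 φ1 e2 φ2 e φ : ι → ℤ}
    (h11 : φ1 ⬝ᵥ e1 = 0) (h12 : φ1 ⬝ᵥ e2 = 0) (h21 : φ2 ⬝ᵥ e1 = 0) (h22 : φ2 ⬝ᵥ e2 = 0)
    (t1 : tv e1 φ1 ∈ H) (t2 : tv e2 φ2 ∈ H) (h0 : φ ⬝ᵥ e = 0) (t : tv e φ ∈ H) :
    EE e1 φ1 e2 φ2
      (2 * ((φ1 ⬝ᵥ e) * (φ2 ⬝ᵥ e) * (φ ⬝ᵥ e1) * (φ ⬝ᵥ e2)) * ((φ ⬝ᵥ e2) * (φ1 ⬝ᵥ e)))
      (2 * ((φ1 ⬝ᵥ e) * (φ2 ⬝ᵥ e) * (φ ⬝ᵥ e1) * (φ ⬝ᵥ e2)) * ((φ ⬝ᵥ e1) * (φ2 ⬝ᵥ e))) ∈ H := by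
  have h := rs_mem h11 h12 h21 h22 t1 t2 h0 t
  set a1 := φ1 ⬝ᵥ e with ha1
  set a2 := φ2 ⬝ᵥ e with ha2
  set b1 := φ ⬝ᵥ e1 with hb1
  set b2 := φ ⬝ᵥ e2 with hb2
  set κ : ℤ := 2 * (a1 * a2 * b1 * b2) with hκ
  have k1 := tv_smul_mem h11 t1 (κ * b2 * a2)
  have k2 := tv_smul_mem h22 t2 (κ * b1 * a1)
  have key : EE e1 φ1 e2 φ2 (κ * (b2 * a1)) (κ * (b1 * a2)) =
      tv ((a1 * a2) • (b2 • e1 - b1 • e2)) ((-2 : ℤ) • ((b1 * b2) • (a2 • φ1 - a1 • φ2))) *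
        (tv e1 ((κ * b2 * a2) • φ1) * tv e2 ((κ * b1 * a1) • φ2)) := by
    apply SL_ext
    rw [EE_coe h11 h12 h21 h22]
    simp only [Matrix.SpecialLinearGroup.coe_mul]
    rw [tv_coe (by
        simp only [smul_dotProduct, sub_dotProduct, dotProduct_smul, dotProduct_sub, h11, h12, h21, h22]
        simp),
      tv_coe (by rw [smul_dotProduct, h11, smul_zero]), tv_coe (by rw [smul_dotProduct, h22, smul_zero])]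
    simp only [Matrix.add_mul, Matrix.mul_add, Matrix.one_mul, Matrix.mul_one,
      vecMulVec_mul_vecMulVec, smul_dotProduct, sub_dotProduct, h11, h12, h21, h22, smul_zero,
      sub_zero, zero_smul, vecMulVec_zero, add_zero]
    ext i j
    simp only [Matrix.add_apply, Matrix.smul_apply, vecMulVec_apply, Pi.smul_apply, Pi.sub_apply,
      smul_eq_mul]
    rw [hκ]
    ring
  rw [key]
  exact Subgroup.mul_mem _ h (Subgroup.mul_mem _ k1 k2)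

theorem split_case (hcard : 3 ≤ Fintype.card ι) {H : Subgroup (SpecialLinearGroup ι ℤ)}
    (hD : ZDense H) {e1 φ1 e2 φ2 : ι → ℤ}
    (h11 : φ1 ⬝ᵥ e1 = 0) (h12 : φ1 ⬝ᵥ e2 = 0) (h21 : φ2 ⬝ᵥ e1 = 0) (h22 : φ2 ⬝ᵥ e2 = 0)
    (t1 : tv e1 φ1 ∈ H) (t2 : tv e2 φ2 ∈ H) (hie : Indep e1 e2) (hiφ : Indep φ1 φ2) :
    H.FiniteIndex := by
  have he1 := hie.ne_left
  have he2 := hie.ne_right
  have hφ1 := hiφ.ne_left
  have hφ2 := hiφ.ne_right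
  have N0 : NZ (fun g : SpecialLinearGroup ι ℤ =>
      ((φ1 ⬝ᵥ ((g : Matrix ι ι ℤ) *ᵥ e1)) * (φ2 ⬝ᵥ ((g : Matrix ι ι ℤ) *ᵥ e1))) *
      ((φ1 ⬝ᵥ (((g⁻¹ : SpecialLinearGroup ι ℤ) : Matrix ι ι ℤ) *ᵥ e1)) *
       (φ1 ⬝ᵥ (((g⁻¹ : SpecialLinearGroup ι ℤ) : Matrix ι ι ℤ) *ᵥ e2)))) :=
    ((NZ.dot hφ1 he1).mul (NZ.dot hφ2 he1)).mul ((NZ.dot_inv hφ1 he1).mul (NZ.dot_inv hφ1 he2))
  -- the data attached to an element of `H`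
  have data : ∀ h ∈ H,
      EE e1 φ1 e2 φ2
        (2 * ((φ1 ⬝ᵥ ((h : Matrix ι ι ℤ) *ᵥ e1)) * (φ2 ⬝ᵥ ((h : Matrix ι ι ℤ) *ᵥ e1)) *
          (φ1 ⬝ᵥ (((h⁻¹ : SpecialLinearGroup ι ℤ) : Matrix ι ι ℤ) *ᵥ e1)) *
          (φ1 ⬝ᵥ (((h⁻¹ : SpecialLinearGroup ι ℤ) : Matrix ι ι ℤ) *ᵥ e2))) *
          ((φ1 ⬝ᵥ (((h⁻¹ : SpecialLinearGroup ι ℤ) : Matrix ι ι ℤ) *ᵥ e2)) *
            (φ1 ⬝ᵥ ((h : Matrix ι ι ℤ) *ᵥ e1))))
        (2 * ((φ1 ⬝ᵥ ((h : Matrix ι ι ℤ) *ᵥ e1)) * (φ2 ⬝ᵥ ((h : Matrix ι ι ℤ) *ᵥ e1)) *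
          (φ1 ⬝ᵥ (((h⁻¹ : SpecialLinearGroup ι ℤ) : Matrix ι ι ℤ) *ᵥ e1)) *
          (φ1 ⬝ᵥ (((h⁻¹ : SpecialLinearGroup ι ℤ) : Matrix ι ι ℤ) *ᵥ e2))) *
          ((φ1 ⬝ᵥ (((h⁻¹ : SpecialLinearGroup ι ℤ) : Matrix ι ι ℤ) *ᵥ e1)) *
            (φ2 ⬝ᵥ ((h : Matrix ι ι ℤ) *ᵥ e1)))) ∈ H := by
    intro h hh
    have h0 : (φ1 ᵥ* ((h⁻¹ : SpecialLinearGroup ι ℤ) : Matrix ι ι ℤ)) ⬝ᵥ ((h : Matrix ι ι ℤ) *ᵥ e1) = 0 := by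
      rw [vecMul_inv_dot, h11]
    have hE := EE_mem h11 h12 h21 h22 t1 t2 h0 (conj_mem h11 t1 hh)
    simpa only [← dotProduct_mulVec] using hE
  obtain ⟨h, hh, hne⟩ := N0.dense hD
  have dh := data h hh
  set A1 := φ1 ⬝ᵥ ((h : Matrix ι ι ℤ) *ᵥ e1) with hA1
  set A2 := φ2 ⬝ᵥ ((h : Matrix ι ι ℤ) *ᵥ e1) with hA2
  set B1 := φ1 ⬝ᵥ (((h⁻¹ : SpecialLinearGroup ι ℤ) : Matrix ι ι ℤ) *ᵥ e1) with hB1
  set B2 := φ1 ⬝ᵥ (((h⁻¹ : SpecialLinearGroup ι ℤ) : Matrix ι ι ℤ) *ᵥ e2) with hB2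
  have hne' : A1 * A2 * (B1 * B2) ≠ 0 := hne
  have hA1' : A1 ≠ 0 := left_ne_zero_of_mul (left_ne_zero_of_mul hne')
  have hA2' : A2 ≠ 0 := right_ne_zero_of_mul (left_ne_zero_of_mul hne')
  have hB1' : B1 ≠ 0 := left_ne_zero_of_mul (right_ne_zero_of_mul hne')
  have hB2' : B2 ≠ 0 := right_ne_zero_of_mul (right_ne_zero_of_mul hne')
  -- the determinant condition
  have N1 : NZ (fun g : SpecialLinearGroup ι ℤ =>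
      (B2 * A1) * ((φ1 ⬝ᵥ (((g⁻¹ : SpecialLinearGroup ι ℤ) : Matrix ι ι ℤ) *ᵥ e1)) *
        (φ2 ⬝ᵥ ((g : Matrix ι ι ℤ) *ᵥ e1))) -
      (B1 * A2) * ((φ1 ⬝ᵥ (((g⁻¹ : SpecialLinearGroup ι ℤ) : Matrix ι ι ℤ) *ᵥ e2)) *
        (φ1 ⬝ᵥ ((g : Matrix ι ι ℤ) *ᵥ e1)))) := by
    refine ⟨(((IsPoly.dot_inv _ _).mul (IsPoly.dot _ _)).smul _).sub
      (((IsPoly.dot_inv _ _).mul (IsPoly.dot _ _)).smul _), ?_⟩
    obtain ⟨x, hx1, hx2⟩ := exists_dot_ne hφ1 hφ2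
    obtain ⟨α0, hα1, hα2⟩ := exists_sep hie
    set α : ι → ℤ := (φ1 ⬝ᵥ x) • α0 - (α0 ⬝ᵥ x) • φ1 with hα
    have k0 : α ⬝ᵥ x = 0 := by
      rw [hα, sub_dotProduct, smul_dotProduct, smul_dotProduct]
      simp only [smul_eq_mul]; ring
    have k1 : α ⬝ᵥ e1 ≠ 0 := by
      rw [hα, sub_dotProduct, smul_dotProduct, smul_dotProduct, h11]
      simp only [smul_eq_mul, mul_zero, sub_zero]
      exact mul_ne_zero hx1 hα1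
    have k2 : α ⬝ᵥ e2 = 0 := by
      rw [hα, sub_dotProduct, smul_dotProduct, smul_dotProduct, h12, hα2]
      simp
    have k0' : (-α) ⬝ᵥ x = 0 := by rw [neg_dotProduct, k0, neg_zero]
    refine ⟨tv x α, ?_⟩
    beta_reduce
    rw [← tv_neg_right k0, tv_mulVec k0, tv_mulVec k0', tv_mulVec k0']
    simp only [dotProduct_add, dotProduct_smul, neg_dotProduct, h11, h12, h21, k2, smul_eq_mul,
      zero_add, neg_zero, zero_mul, mul_zero, sub_zero]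
    refine mul_ne_zero (mul_ne_zero hB2' hA1') (mul_ne_zero (mul_ne_zero (neg_ne_zero.mpr k1) hx1)
      (mul_ne_zero k1 hx2))
  obtain ⟨h', hh', hne2⟩ := (N0.mul N1).dense hD
  have dh' := data h' hh'
  set A1' := φ1 ⬝ᵥ ((h' : Matrix ι ι ℤ) *ᵥ e1) with hA1x
  set A2' := φ2 ⬝ᵥ ((h' : Matrix ι ι ℤ) *ᵥ e1) with hA2x
  set B1' := φ1 ⬝ᵥ (((h'⁻¹ : SpecialLinearGroup ι ℤ) : Matrix ι ι ℤ) *ᵥ e1) with hB1x
  set B2' := φ1 ⬝ᵥ (((h'⁻¹ : SpecialLinearGroup ι ℤ) : Matrix ι ι ℤ) *ᵥ e2) with hB2x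
  have hne2' : A1' * A2' * (B1' * B2') * ((B2 * A1) * (B1' * A2') - (B1 * A2) * (B2' * A1')) ≠ 0 := hne2
  have hκ' : A1' * A2' * (B1' * B2') ≠ 0 := left_ne_zero_of_mul hne2'
  have hdet : (B2 * A1) * (B1' * A2') - (B1 * A2) * (B2' * A1') ≠ 0 := right_ne_zero_of_mul hne2'
  set κ : ℤ := 2 * (A1 * A2 * B1 * B2) with hκdef
  set κ' : ℤ := 2 * (A1' * A2' * B1' * B2') with hκdef'
  have m1 := EE_zpow_mem h11 h12 h21 h22 dh (κ' * (B1' * A2'))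
  have m2 := EE_zpow_mem h11 h12 h21 h22 dh' (-(κ * (B1 * A2)))
  have m3 := Subgroup.mul_mem _ m1 m2
  rw [EE_mul h11 h12 h21 h22] at m3
  have hy : κ' * (B1' * A2') * (κ * (B1 * A2)) + -(κ * (B1 * A2)) * (κ' * (B1' * A2')) = 0 := by ring
  rw [hy] at m3
  set X : ℤ := κ' * (B1' * A2') * (κ * (B2 * A1)) + -(κ * (B1 * A2)) * (κ' * (B2' * A1')) with hX
  have hX0 : X ≠ 0 := by
    have : X = κ * κ' * ((B2 * A1) * (B1' * A2') - (B1 * A2) * (B2' * A1')) := by rw [hX]; ring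
    rw [this]
    refine mul_ne_zero (mul_ne_zero ?_ ?_) hdet
    · rw [hκdef]
      have : A1 * A2 * B1 * B2 = A1 * A2 * (B1 * B2) := by ring
      rw [this]
      exact mul_ne_zero two_ne_zero hne'
    · rw [hκdef']
      have : A1' * A2' * B1' * B2' = A1' * A2' * (B1' * B2') := by ring
      rw [this]
      exact mul_ne_zero two_ne_zero hκ'
  have m4 : tv e1 (X • φ2) ∈ H := by
    unfold EE at m3
    rwa [zero_smul, tv_zero_right, mul_one] at m3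
  refine same_centre hcard hD h11 (by rw [smul_dotProduct, h21, smul_zero]) t1 m4 he1 one_ne_zero
    (rfl : (1 : ℤ) • e1 = (1 : ℤ) • e1) ?_
  have := hiφ.smul one_ne_zero hX0
  rwa [one_smul] at this

end Pool.Agent.H48SL
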