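import Pool.Agent.helper48.SLn.Small

/-!
Unipotent `ℤ²` subgroups of `SL(3, ℤ)`.
-/

namespace Pool.Agent.H48SL

open Matrix

theorem sq_zero_minors {X : Matrix (Fin 3) (Fin 3) ℤ} (hX : X * X = 0) :
    ∀ i i' j l, X i j * X i' l = X i l * X i' j := by
  have htr : X.trace = 0 := by
    have h1 : IsNilpotent X := ⟨2, by rw [sq, hX]⟩
    have h2 := Matrix.isNilpotent_trace_of_isNilpotent h1
    exact h2.eq_zero
  rw [Matrix.trace_fin_three] at htr
  have hm : ∀ i j, X i 0 * X 0 j + X i 1 * X 1 j + X i 2 * X 2 j = 0 := by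
    intro i j
    have := congrFun (congrFun hX i) j
    rw [Matrix.mul_apply, Fin.sum_univ_three] at this
    exact this
  have h00 := hm 0 0
  have h01 := hm 0 1
  have h02 := hm 0 2
  have h10 := hm 1 0
  have h11 := hm 1 1
  have h12 := hm 1 2
  have h20 := hm 2 0
  have h21 := hm 2 1
  have h22 := hm 2 2
  have e2 : (X 0 0 * X 1 1 - X 0 1 * X 1 0) + (X 0 0 * X 2 2 - X 0 2 * X 2 0) +
      (X 1 1 * X 2 2 - X 1 2 * X 2 1) = 0 := by
    have : 2 * ((X 0 0 * X 1 1 - X 0 1 * X 1 0) + (X 0 0 * X 2 2 - X 0 2 * X 2 0) +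
      (X 1 1 * X 2 2 - X 1 2 * X 2 1)) = 0 := by
      linear_combination (X 0 0 + X 1 1 + X 2 2) * htr - h00 - h11 - h22
    linarith
  have m22 : X 0 0 * X 1 1 - X 0 1 * X 1 0 = 0 := by
    linear_combination h22 - X 2 2 * htr + e2
  have m11 : X 0 0 * X 2 2 - X 0 2 * X 2 0 = 0 := by
    linear_combination h11 - X 1 1 * htr + e2
  have m00 : X 1 1 * X 2 2 - X 1 2 * X 2 1 = 0 := by
    linear_combination h00 - X 0 0 * htr + e2
  have m01 : X 0 1 * X 2 2 - X 0 2 * X 2 1 = 0 := by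
    linear_combination X 0 1 * htr - h01
  have m02 : X 0 1 * X 1 2 - X 0 2 * X 1 1 = 0 := by
    linear_combination h02 - X 0 2 * htr
  have m10 : X 1 0 * X 2 2 - X 1 2 * X 2 0 = 0 := by
    linear_combination X 1 0 * htr - h10
  have m12 : X 0 0 * X 1 2 - X 0 2 * X 1 0 = 0 := by
    linear_combination X 1 2 * htr - h12
  have m20 : X 1 0 * X 2 1 - X 1 1 * X 2 0 = 0 := by
    linear_combination h20 - X 2 0 * htr
  have m21 : X 0 0 * X 2 1 - X 0 1 * X 2 0 = 0 := by
    linear_combination X 2 1 * htr - h21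
  intro i i' j l
  fin_cases i <;> fin_cases i' <;> fin_cases j <;> fin_cases l <;>
    simp only [Fin.zero_eta, Fin.mk_one, Fin.reduceFinMk] <;> linarith

theorem rank_one_of_sq_zero {X : Matrix (Fin 3) (Fin 3) ℤ} (hX : X * X = 0) :
    ∃ e φ : Fin 3 → ℤ, X = vecMulVec e φ := by
  have hmin := sq_zero_minors hX
  by_cases h0 : X = 0
  · exact ⟨0, 0, by rw [h0]; simp⟩
  obtain ⟨i0, hi0⟩ : ∃ i, X i ≠ 0 := by
    by_contra hcon
    push Not at hcon
    exact h0 (funext hcon)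
  obtain ⟨k, x0, ψ, hk, hx, hψ⟩ := primitive_part (X i0) hi0
  refine ⟨fun i => X i ⬝ᵥ ψ, x0, ?_⟩
  ext i j
  rw [vecMulVec_apply]
  have h1 : ∀ l, x0 l * X i j = x0 j * X i l := by
    intro l
    have h2 := hmin i i0 j l
    have h3 : X i0 l = k * x0 l := congrFun hx l
    have h4 : X i0 j = k * x0 j := congrFun hx j
    rw [h3, h4] at h2
    have h5 : k * (x0 l * X i j) = k * (x0 j * X i l) := by linear_combination h2
    exact mul_left_cancel₀ hk h5
  have h6 : (ψ ⬝ᵥ x0) * X i j = x0 j * (X i ⬝ᵥ ψ) := by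
    unfold dotProduct
    rw [Finset.sum_mul, Finset.mul_sum]
    apply Finset.sum_congr rfl
    intro l _
    have := h1 l
    linear_combination (ψ l) * this
  rw [hψ, one_mul] at h6
  rw [h6]; ring

section general

variable {ι : Type*} [Fintype ι] [DecidableEq ι]

theorem comm_eig {e φ : ι → ℤ} (hφ : φ ≠ 0) (h0 : φ ⬝ᵥ e = 0)
    {g : SpecialLinearGroup ι ℤ} (hc : g * tv e φ = tv e φ * g) (he : e ≠ 0) :
    ∃ c : ℤ, (g : Matrix ι ι ℤ) *ᵥ e = c • e := by
  obtain ⟨j, hj⟩ := Function.ne_iff.mp hφ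
  rw [Pi.zero_apply] at hj
  have h1 : (g : Matrix ι ι ℤ) * vecMulVec e φ = vecMulVec e φ * (g : Matrix ι ι ℤ) := by
    have h2 := congrArg (fun x : SpecialLinearGroup ι ℤ => (x : Matrix ι ι ℤ)) hc
    simp only [Matrix.SpecialLinearGroup.coe_mul] at h2
    rw [tv_coe h0, Matrix.mul_add, Matrix.add_mul, Matrix.mul_one, Matrix.one_mul] at h2
    exact add_left_cancel h2
  rw [mul_vecMulVec, vecMulVec_mul] at h1
  have h3 : φ j • ((g : Matrix ι ι ℤ) *ᵥ e) = ((φ ᵥ* (g : Matrix ι ι ℤ)) j) • e := by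
    ext i
    have := congrFun (congrFun h1 i) j
    rw [vecMulVec_apply, vecMulVec_apply] at this
    simp only [Pi.smul_apply, smul_eq_mul]
    linarith
  rcases eig_pm he hj h3 with h4 | h4
  · exact ⟨1, by rw [h4, one_smul]⟩
  · exact ⟨-1, by rw [h4, neg_smul, one_smul]⟩

/-- cast to rational matrices -/
def qm (M : Matrix ι ι ℤ) : Matrix ι ι ℚ := (Int.castRingHom ℚ).mapMatrix M

theorem qm_inj {M M' : Matrix ι ι ℤ} (h : qm M = qm M') : M = M' := by
  ext i j
  have := congrFun (congrFun h i) j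
  simp only [qm, RingHom.mapMatrix_apply, Matrix.map_apply, eq_intCast] at this
  exact_mod_cast this

/-- `g = 1 + β N + γ N²` over `ℚ` for some `γ` -/
def PP (N : Matrix ι ι ℤ) (g : SpecialLinearGroup ι ℤ) (β : ℚ) : Prop :=
  ∃ γ : ℚ, qm (g : Matrix ι ι ℤ) = 1 + β • qm N + γ • (qm N * qm N)

variable {N : Matrix ι ι ℤ}

theorem qm_mul (A B : Matrix ι ι ℤ) : qm (A * B) = qm A * qm B := map_mul _ _ _
theorem qm_one : qm (1 : Matrix ι ι ℤ) = 1 := map_one _

theorem PP.mul (hN : qm N * qm N * qm N = 0) {g g' : SpecialLinearGroup ι ℤ} {β β' : ℚ}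
    (h : PP N g β) (h' : PP N g' β') : PP N (g * g') (β + β') := by
  obtain ⟨γ, hγ⟩ := h
  obtain ⟨γ', hγ'⟩ := h'
  have h4 : qm N * (qm N * qm N) = 0 := by rw [← Matrix.mul_assoc]; exact hN
  have h5 : (qm N * qm N) * (qm N * qm N) = 0 := by rw [← Matrix.mul_assoc, hN, Matrix.zero_mul]
  refine ⟨γ + γ' + β * β', ?_⟩
  rw [Matrix.SpecialLinearGroup.coe_mul, qm_mul, hγ, hγ']
  simp only [Matrix.add_mul, Matrix.mul_add, Matrix.one_mul, Matrix.mul_one, Matrix.smul_mul,
    Matrix.mul_smul, hN, h4, h5, smul_zero, add_zero]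
  module

theorem PP.inv (hN : qm N * qm N * qm N = 0) {g : SpecialLinearGroup ι ℤ} {β : ℚ}
    (h : PP N g β) : PP N g⁻¹ (-β) := by
  obtain ⟨γ, hγ⟩ := h
  have h4 : qm N * (qm N * qm N) = 0 := by rw [← Matrix.mul_assoc]; exact hN
  have h5 : (qm N * qm N) * (qm N * qm N) = 0 := by rw [← Matrix.mul_assoc, hN, Matrix.zero_mul]
  refine ⟨β ^ 2 - γ, ?_⟩
  have h6 : qm (g : Matrix ι ι ℤ) * (1 + (-β) • qm N + (β ^ 2 - γ) • (qm N * qm N)) = 1 := by
    rw [hγ]
    simp only [Matrix.add_mul, Matrix.mul_add, Matrix.one_mul, Matrix.mul_one, Matrix.smul_mul,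
      Matrix.mul_smul, hN, h4, h5, smul_zero, add_zero]
    module
  have h7 : qm ((g⁻¹ : SpecialLinearGroup ι ℤ) : Matrix ι ι ℤ) * qm (g : Matrix ι ι ℤ) = 1 := by
    rw [← qm_mul, ← Matrix.SpecialLinearGroup.coe_mul, inv_mul_cancel,
      Matrix.SpecialLinearGroup.coe_one, qm_one]
  calc qm ((g⁻¹ : SpecialLinearGroup ι ℤ) : Matrix ι ι ℤ)
      = qm ((g⁻¹ : SpecialLinearGroup ι ℤ) : Matrix ι ι ℤ) *
        (qm (g : Matrix ι ι ℤ) * (1 + (-β) • qm N + (β ^ 2 - γ) • (qm N * qm N))) := by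
        rw [h6, Matrix.mul_one]
    _ = _ := by rw [← Matrix.mul_assoc, h7, Matrix.one_mul]

theorem PP.one : PP N (1 : SpecialLinearGroup ι ℤ) 0 :=
  ⟨0, by rw [Matrix.SpecialLinearGroup.coe_one, qm_one]; simp⟩

theorem PP.pow (hN : qm N * qm N * qm N = 0) {g : SpecialLinearGroup ι ℤ} {β : ℚ}
    (h : PP N g β) (m : ℕ) : PP N (g ^ m) (m * β) := by
  induction m with
  | zero => simpa using PP.one
  | succ m ih =>
    rw [pow_succ]
    have := ih.mul hN h
    have h1 : (m : ℚ) * β + β = ((m + 1 : ℕ) : ℚ) * β := by push_cast; ring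
    rwa [h1] at this

theorem PP.zpow (hN : qm N * qm N * qm N = 0) {g : SpecialLinearGroup ι ℤ} {β : ℚ}
    (h : PP N g β) (m : ℤ) : PP N (g ^ m) (m * β) := by
  rcases Int.eq_nat_or_neg m with ⟨k, rfl | rfl⟩
  · rw [zpow_natCast]
    have := h.pow hN k
    simpa using this
  · rw [_root_.zpow_neg, zpow_natCast]
    have := (h.pow hN k).inv hN
    have h1 : -((k : ℚ) * β) = ((-(k : ℤ) : ℤ) : ℚ) * β := by push_cast; ring
    rwa [h1] at this

theorem PP.uniq (hN : qm N * qm N * qm N = 0) (hN2 : qm N * qm N ≠ 0)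
    {g : SpecialLinearGroup ι ℤ} {β β' : ℚ} (h : PP N g β) (h' : PP N g β') : β = β' := by
  obtain ⟨γ, hγ⟩ := h
  obtain ⟨γ', hγ'⟩ := h'
  have h1 : (1 + β • qm N + γ • (qm N * qm N)) * qm N = (1 + β' • qm N + γ' • (qm N * qm N)) * qm N := by
    rw [← hγ, ← hγ']
  simp only [Matrix.add_mul, Matrix.smul_mul, hN, smul_zero, add_zero] at h1
  have h2 : (β - β') • (qm N * qm N) = 0 := by
    rw [sub_smul, sub_eq_zero]; exact add_left_cancel h1
  rcases smul_eq_zero.mp h2 with h3 | h3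
  · linarith
  · exact absurd h3 hN2

end general

/-- the commutant of a regular nilpotent integral `3 × 3` matrix -/
theorem commutant_three {N : Matrix (Fin 3) (Fin 3) ℤ} (hN3 : N * N * N = 0) (hN2 : N * N ≠ 0)
    {U : Matrix (Fin 3) (Fin 3) ℤ} (hU : U * N = N * U) :
    ∃ D a b c : ℤ, D ≠ 0 ∧ D • U = a • 1 + b • N + c • (N * N) := by
  obtain ⟨i, j, hij⟩ : ∃ i j, (N * N) i j ≠ 0 := by
    by_contra hcon
    push Not at hcon
    exact hN2 (by ext i j; exact hcon i j)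
  set x : Fin 3 → ℤ := Pi.single j 1 with hx
  have hx2 : (N * N) *ᵥ x ≠ 0 := by
    intro h
    have := congrFun h i
    rw [hx, mulVec_single_one] at this
    exact hij this
  set F : Matrix (Fin 3) (Fin 3) ℤ := Matrix.of (fun k l => ![x k, (N *ᵥ x) k, ((N * N) *ᵥ x) k] l) with hF
  have hFv : ∀ v : Fin 3 → ℤ, F *ᵥ v = v 0 • x + v 1 • (N *ᵥ x) + v 2 • ((N * N) *ᵥ x) := by
    intro v
    ext k
    simp only [hF, mulVec, dotProduct, Fin.sum_univ_three, Matrix.of_apply, Pi.add_apply,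
      Pi.smul_apply, smul_eq_mul]
    simp
    ring
  have hNN : N *ᵥ ((N * N) *ᵥ x) = 0 := by
    rw [mulVec_mulVec, ← Matrix.mul_assoc, hN3, zero_mulVec]
  have hNx : N *ᵥ (N *ᵥ x) = (N * N) *ᵥ x := by rw [mulVec_mulVec]
  have hD : F.det ≠ 0 := by
    intro h
    obtain ⟨v, hv, hFv0⟩ := Matrix.exists_mulVec_eq_zero_iff.mpr h
    rw [hFv] at hFv0
    have h1 := congrArg (fun y => (N * N) *ᵥ y) hFv0
    simp only [mulVec_add, mulVec_smul, mulVec_zero] at h1
    have e1 : (N * N) *ᵥ (N *ᵥ x) = 0 := by rw [mulVec_mulVec, hN3, zero_mulVec]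
    have e2 : (N * N) *ᵥ ((N * N) *ᵥ x) = 0 := by
      rw [mulVec_mulVec, ← Matrix.mul_assoc, hN3, Matrix.zero_mul, zero_mulVec]
    rw [e1, e2, smul_zero, smul_zero, add_zero, add_zero] at h1
    have hv0 : v 0 = 0 := (smul_eq_zero.mp h1).resolve_right hx2
    rw [hv0, zero_smul, zero_add] at hFv0
    have h2 := congrArg (fun y => N *ᵥ y) hFv0
    simp only [mulVec_add, mulVec_smul, mulVec_zero, hNN, hNx, smul_zero, add_zero] at h2
    have hv1 : v 1 = 0 := (smul_eq_zero.mp h2).resolve_right hx2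
    rw [hv1, zero_smul, zero_add] at hFv0
    have hv2 : v 2 = 0 := (smul_eq_zero.mp hFv0).resolve_right hx2
    apply hv
    ext k
    fin_cases k
    · exact hv0
    · exact hv1
    · exact hv2
  set v : Fin 3 → ℤ := F.adjugate *ᵥ (U *ᵥ x) with hv
  have h1 : F *ᵥ v = F.det • (U *ᵥ x) := by
    rw [hv, mulVec_mulVec, Matrix.mul_adjugate, smul_mulVec, one_mulVec]
  rw [hFv] at h1
  refine ⟨F.det, v 0, v 1, v 2, hD, ?_⟩
  set Z : Matrix (Fin 3) (Fin 3) ℤ := F.det • U - (v 0 • 1 + v 1 • N + v 2 • (N * N)) with hZ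
  have hZx : Z *ᵥ x = 0 := by
    rw [hZ, sub_mulVec, add_mulVec, add_mulVec, smul_mulVec, smul_mulVec, smul_mulVec, smul_mulVec,
      one_mulVec, ← h1, sub_self]
  have hZN : Z * N = N * Z := by
    rw [hZ]
    simp only [Matrix.sub_mul, Matrix.mul_sub, Matrix.add_mul, Matrix.mul_add, Matrix.smul_mul,
      Matrix.mul_smul, Matrix.one_mul, Matrix.mul_one, hU, Matrix.mul_assoc]
  have hZNx : Z *ᵥ (N *ᵥ x) = 0 := by
    rw [mulVec_mulVec, hZN, ← mulVec_mulVec, hZx, mulVec_zero]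
  have hZNNx : Z *ᵥ ((N * N) *ᵥ x) = 0 := by
    rw [← hNx, mulVec_mulVec (N *ᵥ x) Z N, hZN, ← mulVec_mulVec, hZNx, mulVec_zero]
  have hZF : Z * F = 0 := by
    have h2 : ∀ v : Fin 3 → ℤ, (Z * F) *ᵥ v = 0 := by
      intro v
      rw [← mulVec_mulVec, hFv, mulVec_add, mulVec_add, mulVec_smul, mulVec_smul, mulVec_smul, hZx,
        hZNx, hZNNx]
      simp
    ext k l
    have := congrFun (h2 (Pi.single l 1)) k
    rw [mulVec_single_one] at this
    exact this
  have hZ0 : Z = 0 := by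
    have h2 : F.det • Z = 0 := by
      have h3 : Z * F * F.adjugate = F.det • Z := by
        rw [Matrix.mul_assoc, Matrix.mul_adjugate, Matrix.mul_smul, Matrix.mul_one]
      rw [← h3, hZF, Matrix.zero_mul]
    exact (smul_eq_zero.mp h2).resolve_left hD
  rw [hZ, sub_eq_zero] at hZ0
  exact hZ0

/-- A Zariski dense subgroup of `SL(3, ℤ)` with a nontrivial unipotent element `w` whose centraliser
contains an element with no positive power in `⟨w⟩` has finite index. -/
theorem unip_three {H : Subgroup (SpecialLinearGroup (Fin 3) ℤ)} (hD : ZDense H)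
    {w u : SpecialLinearGroup (Fin 3) ℤ} (hw : w ∈ H) (hu : u ∈ H) (hw1 : w ≠ 1)
    (hwn : ((w : Matrix (Fin 3) (Fin 3) ℤ) - 1) ^ 3 = 0) (hwu : w * u = u * w)
    (hind : ∀ k : ℕ, 1 ≤ k → ∀ m : ℤ, u ^ k ≠ w ^ m) : H.FiniteIndex := by
  have hcard : 3 ≤ Fintype.card (Fin 3) := by simp
  set N : Matrix (Fin 3) (Fin 3) ℤ := (w : Matrix (Fin 3) (Fin 3) ℤ) - 1 with hNdef
  have hwN : (w : Matrix (Fin 3) (Fin 3) ℤ) = 1 + N := by rw [hNdef]; abel
  have hN0 : N ≠ 0 := by
    intro h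
    apply hw1
    apply SL_ext
    rw [hwN, h, add_zero]; rfl
  have hN3 : N * N * N = 0 := by rw [← hwn, pow_succ, sq]
  -- a transvection commuting with something gives the result
  have main : ∀ z v : SpecialLinearGroup (Fin 3) ℤ, z ∈ H → v ∈ H → z ≠ 1 →
      ((z : Matrix (Fin 3) (Fin 3) ℤ) - 1) * ((z : Matrix (Fin 3) (Fin 3) ℤ) - 1) = 0 →
      v * z = z * v → (∀ k : ℕ, 1 ≤ k → ∀ m : ℤ, v ^ k ≠ z ^ m) → H.FiniteIndex := by
    intro z v hz hv hz1 hzz hvz hvk
    obtain ⟨e, φ, heφ⟩ := rank_one_of_sq_zero hzz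
    have hzc : (z : Matrix (Fin 3) (Fin 3) ℤ) = 1 + vecMulVec e φ := by rw [← heφ]; abel
    have he : e ≠ 0 := by
      rintro rfl
      apply hz1
      apply SL_ext
      rw [hzc]; ext i j; simp
    have hφ : φ ≠ 0 := by
      rintro rfl
      apply hz1
      apply SL_ext
      rw [hzc]; ext i j; simp
    have h0 : φ ⬝ᵥ e = 0 := by
      have h1 := det_one_add_vecMulVec e φ
      rw [← hzc, Matrix.SpecialLinearGroup.det_coe] at h1
      linarith
    have hzt : z = tv e φ := SL_ext (by rw [hzc, tv_coe h0])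
    rw [hzt] at hz hvz hvk
    exact stab_case hcard hD he hφ h0 hz hv (Or.inl (comm_eig hφ h0 hvz he)) hvk
  by_cases hN2 : N * N = 0
  · exact main w u hw hu hw1 hN2 hwu.symm hind
  · have hNq3 : qm N * qm N * qm N = 0 := by
      rw [← qm_mul, ← qm_mul, hN3]; exact map_zero _
    have hNq2 : qm N * qm N ≠ 0 := by
      intro h
      apply hN2
      apply qm_inj
      rw [qm_mul, h]; exact (map_zero _).symm
    have hPw : PP N w 1 := ⟨0, by
      have h1 : qm (1 + N) = 1 + qm N := by rw [← qm_one]; exact map_add _ _ _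
      rw [hwN, h1]; simp⟩
    have hUN : (u : Matrix (Fin 3) (Fin 3) ℤ) * N = N * (u : Matrix (Fin 3) (Fin 3) ℤ) := by
      have h1 := congrArg (fun x : SpecialLinearGroup (Fin 3) ℤ => (x : Matrix (Fin 3) (Fin 3) ℤ)) hwu
      simp only [Matrix.SpecialLinearGroup.coe_mul] at h1
      rw [hwN, Matrix.add_mul, Matrix.mul_add, Matrix.one_mul, Matrix.mul_one] at h1
      exact (add_left_cancel h1).symm
    obtain ⟨D, a, b, c, hD0, hDu⟩ := commutant_three hN3 hN2 hUN
    -- eigenvalue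
    obtain ⟨x, hx⟩ : ∃ x : Fin 3 → ℤ, (N * N) *ᵥ x ≠ 0 := by
      by_contra hcon
      push Not at hcon
      apply hN2
      ext k l
      have := congrFun (hcon (Pi.single l 1)) k
      rw [mulVec_single_one] at this
      exact this
    have hax : D • ((u : Matrix (Fin 3) (Fin 3) ℤ) *ᵥ ((N * N) *ᵥ x)) = a • ((N * N) *ᵥ x) := by
      rw [← smul_mulVec, hDu, add_mulVec, add_mulVec, smul_mulVec, smul_mulVec, smul_mulVec,
        one_mulVec, mulVec_mulVec, mulVec_mulVec, ← Matrix.mul_assoc, hN3,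
        show N * N * (N * N) = N * N * N * N by rw [Matrix.mul_assoc (N * N)], hN3,
        Matrix.zero_mul, zero_mulVec]
      simp
    have haD : a = D ∨ a = -D := by
      rcases eig_pm hx hD0 hax with h1 | h1
      · left
        rw [h1] at hax
        have h2 : (D - a) • ((N * N) *ᵥ x) = 0 := by rw [sub_smul, hax, sub_self]
        have h3 := (smul_eq_zero.mp h2).resolve_right hx
        linarith
      · right
        rw [h1, smul_neg, ← neg_smul] at hax
        have h2 : (-D - a) • ((N * N) *ᵥ x) = 0 := by rw [sub_smul, hax, sub_self]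
        have h3 := (smul_eq_zero.mp h2).resolve_right hx
        linarith
    have hDq : (D : ℚ) ≠ 0 := by exact_mod_cast hD0
    -- `u²` lies in the one-parameter family
    obtain ⟨β, hPu⟩ : ∃ β : ℚ, PP N (u ^ 2) β := by
      have h1 : (D : ℚ) • qm (u : Matrix (Fin 3) (Fin 3) ℤ) =
          (a : ℚ) • 1 + (b : ℚ) • qm N + (c : ℚ) • (qm N * qm N) := by
        ext k l
        have h2 := congrFun (congrFun hDu k) l
        simp only [Matrix.add_apply, Matrix.smul_apply, smul_eq_mul] at h2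
        have h3 := congrArg (Int.cast : ℤ → ℚ) h2
        have h4 : (((N * N) k l : ℤ) : ℚ) = (qm N * qm N) k l := by rw [← qm_mul]; rfl
        have h5 : (((1 : Matrix (Fin 3) (Fin 3) ℤ) k l : ℤ) : ℚ) = (1 : Matrix (Fin 3) (Fin 3) ℚ) k l := by
          rw [← qm_one]; rfl
        push_cast at h3
        rw [h4, h5] at h3
        exact h3
      -- `u = ε (1 + β' N + γ' N²)`
      have h2 : ∃ ε β' γ' : ℚ, ε * ε = 1 ∧ qm (u : Matrix (Fin 3) (Fin 3) ℤ) =
          ε • (1 + β' • qm N + γ' • (qm N * qm N)) := by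
        rcases haD with h3 | h3
        · refine ⟨1, b / D, c / D, by norm_num, ?_⟩
          have h4 : qm (u : Matrix (Fin 3) (Fin 3) ℤ) = (D : ℚ)⁻¹ • ((D : ℚ) • qm (u : Matrix (Fin 3) (Fin 3) ℤ)) := by
            rw [smul_smul, inv_mul_cancel₀ hDq, one_smul]
          rw [h4, h1, h3]
          rw [smul_add, smul_add, smul_smul, smul_smul, smul_smul, inv_mul_cancel₀ hDq, one_smul, one_smul,
            div_eq_inv_mul, div_eq_inv_mul]
        · refine ⟨-1, -(b / D), -(c / D), by norm_num, ?_⟩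
          have h4 : qm (u : Matrix (Fin 3) (Fin 3) ℤ) = (D : ℚ)⁻¹ • ((D : ℚ) • qm (u : Matrix (Fin 3) (Fin 3) ℤ)) := by
            rw [smul_smul, inv_mul_cancel₀ hDq, one_smul]
          rw [h4, h1, h3]
          push_cast
          rw [smul_add, smul_add, smul_smul, smul_smul, smul_smul, mul_neg, inv_mul_cancel₀ hDq,
            div_eq_inv_mul, div_eq_inv_mul]
          module
      obtain ⟨ε, β', γ', hε, hu'⟩ := h2
      refine ⟨2 * β', 2 * γ' + β' ^ 2, ?_⟩
      have h4 : qm N * (qm N * qm N) = 0 := by rw [← Matrix.mul_assoc]; exact hNq3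
      have h5 : (qm N * qm N) * (qm N * qm N) = 0 := by rw [← Matrix.mul_assoc, hNq3, Matrix.zero_mul]
      rw [sq, Matrix.SpecialLinearGroup.coe_mul, qm_mul, hu', Matrix.smul_mul, Matrix.mul_smul,
        smul_smul, hε, one_smul]
      simp only [Matrix.add_mul, Matrix.mul_add, Matrix.one_mul, Matrix.mul_one, Matrix.smul_mul,
        Matrix.mul_smul, hNq3, h4, h5, smul_zero, add_zero]
      module
    -- the transvection
    set v : SpecialLinearGroup (Fin 3) ℤ := (u ^ 2) ^ β.den * w ^ (-β.num) with hv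
    have hvH : v ∈ H := Subgroup.mul_mem _ (Subgroup.pow_mem _ (Subgroup.pow_mem _ hu _) _)
      (Subgroup.zpow_mem _ hw _)
    have hPv : PP N v 0 := by
      have h1 := (hPu.pow hNq3 β.den).mul hNq3 (hPw.zpow hNq3 (-β.num))
      have h2 : (β.den : ℚ) * β + ((-β.num : ℤ) : ℚ) * 1 = 0 := by
        rw [mul_comm, Rat.mul_den_eq_num]; push_cast; ring
      rwa [h2] at h1
    have hv1 : v ≠ 1 := by
      intro h1
      rw [hv, ← pow_mul, mul_eq_one_iff_eq_inv, ← _root_.zpow_neg, neg_neg] at h1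
      exact hind (2 * β.den) (Nat.mul_pos two_pos β.den_pos) β.num h1
    obtain ⟨γ, hγ⟩ := hPv
    have hvq : qm ((v : Matrix (Fin 3) (Fin 3) ℤ) - 1) = γ • (qm N * qm N) := by
      have h1 : qm ((v : Matrix (Fin 3) (Fin 3) ℤ) - 1) = qm (v : Matrix (Fin 3) (Fin 3) ℤ) - qm 1 :=
        map_sub _ _ _
      rw [h1, hγ, qm_one]; simp
    have hvv : ((v : Matrix (Fin 3) (Fin 3) ℤ) - 1) * ((v : Matrix (Fin 3) (Fin 3) ℤ) - 1) = 0 := by
      apply qm_inj
      rw [qm_mul, hvq, Matrix.smul_mul, Matrix.mul_smul, ← Matrix.mul_assoc, hNq3, Matrix.zero_mul,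
        smul_zero, smul_zero]
      exact (map_zero _).symm
    have hwv : w * v = v * w := by
      rw [hv]
      have h1 : Commute w (u ^ 2) := (show Commute w u from hwu).pow_right 2
      exact ((h1.pow_right β.den).mul_right ((Commute.refl w).zpow_right _)).eq
    refine main v w hvH hw hv1 hvv hwv ?_
    intro k hk m hkm
    have h1 := hPw.pow hNq3 k
    rw [hkm] at h1
    have h2 := (PP.zpow hNq3 (⟨γ, hγ⟩ : PP N v 0) m)
    have h3 := PP.uniq hNq3 hNq2 h1 h2
    rw [mul_zero, mul_one] at h3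
    have : (k : ℚ) ≠ 0 := by
      have : k ≠ 0 := by omega
      exact_mod_cast this
    exact this h3

end Pool.Agent.H48SL
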